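import Mathlib

/-!
Powers of an object of a category with finite products.
-/

open CategoryTheory MonoidalCategory CartesianMonoidalCategory

universe u v

namespace Pool.NP

variable {V : Type u} [Category.{v} V] [CartesianMonoidalCategory V]

/-- the power `Y^n` -/
def pow (Y : V) : ℕ → V
  | 0 => 𝟙_ V
  | n + 1 => Y ⊗ pow Y n

/-- the projections `Y^n → Y` -/
def pr (Y : V) : (n : ℕ) → Fin n → (pow Y n ⟶ Y)
  | n + 1, i => Fin.cases (fst Y (pow Y n)) (fun j => snd Y (pow Y n) ≫ pr Y n j) i

/-- the morphism to `Y^n` with given components -/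
def tup {Z Y : V} : (n : ℕ) → (Fin n → (Z ⟶ Y)) → (Z ⟶ pow Y n)
  | 0, _ => toUnit Z
  | n + 1, f => lift (f 0) (tup n fun i => f i.succ)

/-- permutation of the factors: the component `i` of `perm Y σ` is the projection `σ i` -/
def perm (Y : V) {n : ℕ} (σ : Equiv.Perm (Fin n)) : pow Y n ⟶ pow Y n :=
  tup n fun i => pr Y n (σ i)

end Pool.NP
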