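import Pool.Agent.Work.StdConj01.Api
import Pool.Agent.Work.MP_a60482_np.Pw

/-!
# Numerically trivial correspondences; very general hypersurface sections

`WeilCoh.NumTriv D z`: the self-correspondence `z` is numerically trivial.

`WeilCoh.Nilpotence D`: numerically trivial self-correspondences act nilpotently.

`WeilCoh.NoPhantoms D`: numerically trivial idempotent self-correspondences act by zero.

`WeilCoh.Conservative D`: self-correspondences invertible modulo numerical equivalence are
invertible.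

`Polarization.GenericSection M i`, `Polarization.HasGenericSections`: very general hypersurface
sections of large degree of varieties of even dimension.
-/

open CategoryTheory MonoidalCategory CartesianMonoidalCategory

universe u v w x b

namespace Pool.Std

open Pool.NP

namespace WeilCoh

variable {V : Type u} [Category.{v} V] [CartesianMonoidalCategory V] {K : Type x} [Field K]
variable (D : WeilCoh.{u, v, w, x} V K)

/-- The class `z` on `X × X` of codimension `dim X` is numerically trivial: its intersection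
numbers with all algebraic classes of codimension `dim X` are zero. -/
def NumTriv {X : V} (z : D.H (X ⊗ X)) : Prop := ∀ y ∈ D.alg (X ⊗ X) (D.dim X), D.int (z * y) = 0

/-- **Nilpotence**: every numerically trivial algebraic self-correspondence (of degree `0`) of
every `X` acts nilpotently on `H(X)`. -/
def Nilpotence : Prop :=
  ∀ (X : V), ∀ z ∈ D.alg (X ⊗ X) (D.dim X), D.NumTriv z → ∃ k : ℕ, ∀ a, (D.act z)^[k] a = 0

/-- **No phantoms**: an idempotent algebraic self-correspondence which is numerically trivial acts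
by zero on `H(X)`. -/
def NoPhantoms : Prop :=
  ∀ (X : V), ∀ z ∈ D.alg (X ⊗ X) (D.dim X), (∀ a, D.act z (D.act z a) = D.act z a) →
    D.NumTriv z → ∀ a, D.act z a = 0

/-- composition of correspondences -/
def comp {X : V} (z y : D.H (X ⊗ X)) : D.H (X ⊗ X) :=
  D.pf (X := X) (Y := X ⊗ X)
    (D.pb (lift (snd X (X ⊗ X) ≫ fst X X) (fst X (X ⊗ X))) z *
      D.pb (lift (fst X (X ⊗ X)) (snd X (X ⊗ X) ≫ snd X X)) y)

/-- **Conservativity**: if the algebraic self-correspondence `z` of `X` has an inverse `y` modulo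
numerical equivalence, then it is bijective on `H(X)`. -/
def Conservative : Prop :=
  ∀ (X : V), ∀ z ∈ D.alg (X ⊗ X) (D.dim X), ∀ y ∈ D.alg (X ⊗ X) (D.dim X),
    D.NumTriv (D.comp z y - D.diag X) → Function.Bijective (D.act z)

/-- The operator `b ↦ (∫ v b) v` of `H(Y)`, on the first factor of `Y × W`. -/
def onFirst {Y W : V} (v : D.H Y) (γ : D.H (Y ⊗ W)) : D.H (Y ⊗ W) :=
  D.cross v (D.pf (D.pb (fst Y W) v * γ))

/-- The operator `b ↦ (∫ v b) v` of `H(Y)`, on the factor `j` of `Y^(n + 1)`. -/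
def onFactor {Y : V} (v : D.H Y) {n : ℕ} (j : Fin (n + 1)) (γ : D.H (pow Y (n + 1))) :
    D.H (pow Y (n + 1)) :=
  D.pb (perm Y (Equiv.swap 0 j)) (D.onFirst v (D.pb (perm Y (Equiv.swap 0 j)) γ))

/-- the class `(f, g)^* δ` of the locus `f = g` on `W`, for `f, g : W → Y` -/
def locus {W Y : V} (f g : W ⟶ Y) : D.H W := D.pb (lift f g) (D.diag Y)

/-- The vanishing cohomology of `i : Y → X`: the classes in the middle degree orthogonal to the
restrictions of the classes of `X`. -/
def vanishing {X Y : V} (i : Y ⟶ X) : Submodule K (D.H Y) where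
  carrier := {y | y ∈ D.deg Y (D.dim Y) ∧ ∀ a : D.H X, D.int (y * D.pb i a) = 0}
  add_mem' := by
    rintro a b ⟨h1, h2⟩ ⟨h3, h4⟩
    refine ⟨add_mem h1 h3, fun y => ?_⟩
    have h5 : D.int ((a + b) * D.pb i y) = D.int (a * D.pb i y) + D.int (b * D.pb i y) := by
      unfold int
      rw [add_mul, map_add]
    rw [h5, h2, h4, add_zero]
  zero_mem' := by
    refine ⟨zero_mem _, fun a => ?_⟩
    unfold int
    rw [zero_mul, map_zero]
  smul_mem' := by
    rintro s a ⟨h1, h2⟩
    refine ⟨Submodule.smul_mem _ _ h1, fun y => ?_⟩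
    have h3 : D.int ((s • a) * D.pb i y) = s * D.int (a * D.pb i y) := by
      unfold int
      rw [smul_mul_assoc, map_smul, smul_eq_mul]
    rw [h3, h2, mul_zero]

/-- `v` is a vanishing cycle of the hypersurface section `i : Y → X`, `dim Y` odd: a nonzero
vanishing class such that (Picard-Lefschetz) the infinitesimal transvection `b ↦ (∫ v b) v`,
acting on `H(Y^n) = H(Y) ⊗ ⋯ ⊗ H(Y)`, kills the algebraic classes, for every `n`. -/
structure VanishingCycle {X Y : V} (i : Y ⟶ X) (v : D.H Y) : Prop where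
  mem : v ∈ D.vanishing i
  ne : v ≠ 0
  picard_lefschetz : ∀ n k : ℕ, ∀ γ ∈ D.alg (pow Y (n + 1)) k,
    ∑ j : Fin (n + 1), D.onFactor v j γ = 0

/-- The restriction to `Y^4` of a class on `X × Y^3`, by `i` on the factor `p`. -/
def res {X Y W : V} (i : Y ⟶ X) (p q r s : W ⟶ Y) (ρ : D.H (X ⊗ (Y ⊗ (Y ⊗ Y)))) : D.H W :=
  D.pb (lift (p ≫ i) (lift q (lift r s))) ρ

/-- The classes on `Y^4 = (Y × Y) × (Y × Y)`, with projections `p₁, …, p₄` to `Y`, of the loci
`p₁ = p₂, p₃ = p₄`, `p₁ = p₃, p₂ = p₄` and `p₁ = p₄, p₂ = p₃`, and the classes restricted from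
`X × Y^3`, in each of the four factors, of algebraic classes of codimension `2 dim Y`. -/
def tautological {X Y : V} (i : Y ⟶ X) : Set (D.H ((Y ⊗ Y) ⊗ (Y ⊗ Y))) :=
  let p₁ : (Y ⊗ Y) ⊗ (Y ⊗ Y) ⟶ Y := fst (Y ⊗ Y) (Y ⊗ Y) ≫ fst Y Y
  let p₂ : (Y ⊗ Y) ⊗ (Y ⊗ Y) ⟶ Y := fst (Y ⊗ Y) (Y ⊗ Y) ≫ snd Y Y
  let p₃ : (Y ⊗ Y) ⊗ (Y ⊗ Y) ⟶ Y := snd (Y ⊗ Y) (Y ⊗ Y) ≫ fst Y Y
  let p₄ : (Y ⊗ Y) ⊗ (Y ⊗ Y) ⟶ Y := snd (Y ⊗ Y) (Y ⊗ Y) ≫ snd Y Y
  {z | z = D.locus p₁ p₂ * D.locus p₃ p₄ ∨ z = D.locus p₁ p₃ * D.locus p₂ p₄ ∨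
    z = D.locus p₁ p₄ * D.locus p₂ p₃ ∨
    ∃ ρ ∈ D.alg (X ⊗ (Y ⊗ (Y ⊗ Y))) (2 * D.dim Y),
      z = D.res i p₁ p₂ p₃ p₄ ρ ∨ z = D.res i p₂ p₁ p₃ p₄ ρ ∨
      z = D.res i p₃ p₁ p₂ p₄ ρ ∨ z = D.res i p₄ p₁ p₂ p₃ ρ}

end WeilCoh

namespace Polarization

variable {V : Type u} [Category.{v} V] [CartesianMonoidalCategory V] {K : Type x} [Field K]
variable {D : WeilCoh.{u, v, w, x} V K} (G : Polarization.{u, v, w, x, b} D)

/-- **Very general hypersurface sections of large degree.**  The properties of (the embedding `i`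
of) a very general member `Y` of the linear system of a large power of `M` on `X`, `dim X` even:
degree; Picard-Lefschetz formula; every algebraic class of codimension `dim Y` on `Y × Y` is the
sum of the restriction of an algebraic class of `X × X` and a multiple of the diagonal; every
algebraic class of codimension `2 dim Y` on `Y^4` is a combination of the three products of two
disjoint diagonals and of classes restricted from `X` in one factor (spreading of cycles over the
family of the sections through two, resp. four, points); and the vanishing cohomology is at least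
as large as the sum of the `H^j(Y)`, `j ≠ dim Y` (Lefschetz: the latter do not depend on the
degree). -/
structure GenericSection {X Y : V} (M : G.Bund X) (i : Y ⟶ X) : Prop where
  dim : D.dim Y + 1 = D.dim X
  int : ∃ r : ℚ, r ≠ 0 ∧ ∀ a : D.H X, D.int (D.pb i a) = (r : K) * D.int (a * G.c M)
  cycle : ∃ v : D.H Y, D.VanishingCycle i v
  two : ∀ z ∈ D.alg (Y ⊗ Y) (D.dim Y), ∃ g ∈ D.alg (X ⊗ X) (D.dim Y), ∃ s : K,
    z = D.pb (square i) g + s • D.diag Y
  four : ∀ z ∈ D.alg ((Y ⊗ Y) ⊗ (Y ⊗ Y)) (2 * D.dim Y),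
    z ∈ Submodule.span K (D.tautological i)
  large : Module.finrank K (D.H Y) ≤
    Module.finrank K (D.deg Y (D.dim Y)) + Module.finrank K (D.vanishing i)

/-- Every `X` of even dimension at least two has very general hypersurface sections of large
degree. -/
def HasGenericSections : Prop :=
  ∀ (X : V) (M : G.Bund X) (m : ℕ), 1 ≤ m → D.dim X = 2 * m →
    ∃ (Y : V) (i : Y ⟶ X), G.GenericSection M i

end Polarization

end Pool.Std
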