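import Mathlib

/-!
Lifting the idempotent which represents a character of a finite-dimensional algebra with a
trace form.
-/

namespace Pool.NP

universe x

variable {K : Type x} [Field K]

theorem exists_idem_alg {A : Type*} [Ring A] [Algebra K A] [FiniteDimensional K A] [CharZero K]
    (σ : A →ₗ[K] K) (hσ : ∀ a b, σ (a * b) = σ (b * a)) (st : A →ₗ[K] A)
    (hst : ∀ a b, st (a * b) = st b * st a) (hst2 : ∀ a, st (st a) = a)
    (hσst : ∀ a, σ (st a) = σ a) (χ : A →ₐ[K] K) (hχ : ∀ a, χ (st a) = χ a)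
    (hnil : ∀ a, (∀ b, σ (a * b) = 0) → IsNilpotent a) (hσnil : ∀ a, IsNilpotent a → σ a = 0) :
    ∃ e : A, e * e = e ∧ st e = e ∧ χ e = 1 ∧ σ e ≠ 0 ∧ ∀ a, σ (e * a) = σ e * χ a := by
  -- the form
  let β : A →ₗ[K] Module.Dual K A :=
    { toFun := fun a => σ ∘ₗ LinearMap.mulLeft K a
      map_add' := by
        intro a b
        apply LinearMap.ext
        intro d
        change σ ((a + b) * d) = σ (a * d) + σ (b * d)
        rw [add_mul, map_add]
      map_smul' := by
        intro r a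
        apply LinearMap.ext
        intro d
        change σ ((r • a) * d) = r • σ (a * d)
        rw [smul_mul_assoc, map_smul] }
  have hβ : ∀ a b, β a b = σ (a * b) := fun a b => rfl
  -- the radical
  let N : Submodule K A := LinearMap.ker β
  have hN : ∀ a, a ∈ N ↔ ∀ b, σ (a * b) = 0 := by
    intro a
    rw [LinearMap.mem_ker]
    constructor
    · intro h b
      rw [← hβ, h]
      rfl
    · intro h
      apply LinearMap.ext
      intro b
      exact h b
  have hNr : ∀ a b, a ∈ N → a * b ∈ N := by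
    intro a b ha
    rw [hN] at ha ⊢
    intro d
    rw [mul_assoc]
    exact ha _
  have hNl : ∀ a b, b ∈ N → a * b ∈ N := by
    intro a b hb
    rw [hN] at hb ⊢
    intro d
    rw [mul_assoc, hσ, mul_assoc]
    exact hb _
  have hχN : ∀ a ∈ N, χ a = 0 := by
    intro a ha
    exact ((hnil a ((hN a).mp ha)).map χ).eq_zero
  -- the representing element
  have hmem : χ.toLinearMap ∈ LinearMap.range β := by
    have h1 : (LinearMap.range β).dualCoannihilator.dualAnnihilator = LinearMap.range β :=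
      Subspace.dualCoannihilator_dualAnnihilator_eq
    rw [← h1, Submodule.mem_dualAnnihilator]
    intro y hy
    rw [Submodule.mem_dualCoannihilator] at hy
    apply hχN
    rw [hN]
    intro b
    rw [hσ]
    exact hy (β b) ⟨b, rfl⟩
  obtain ⟨ε₀, hε₀⟩ := hmem
  have hε₀' : ∀ a, σ (ε₀ * a) = χ a := fun a => LinearMap.congr_fun hε₀ a
  obtain ⟨ε, hε⟩ : ∃ ε, ε = (2⁻¹ : K) • (ε₀ + st ε₀) := ⟨_, rfl⟩
  have h2 : (2 : K) ≠ 0 := two_ne_zero
  have hstε : st ε = ε := by
    rw [hε, map_smul, map_add, hst2, add_comm]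
  have hεχ : ∀ a, σ (ε * a) = χ a := by
    intro a
    have h1 : σ (st ε₀ * a) = χ a := by
      have h3 : st ε₀ * a = st (st a * ε₀) := by rw [hst, hst2]
      rw [h3, hσst, hσ, hε₀', hχ]
    rw [hε, smul_mul_assoc, map_smul, add_mul, map_add, h1, hε₀', smul_eq_mul]
    field_simp
    ring
  have hεx : ∀ a, χ a = 0 → ε * a ∈ N := by
    intro a ha
    rw [hN]
    intro b
    rw [mul_assoc, hεχ, map_mul, ha, zero_mul]
  have hχε : χ ε ≠ 0 := by
    intro h
    have h1 : ε * ε ∈ N := hεx ε h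
    have h3 : IsNilpotent (ε * ε) := hnil _ ((hN _).mp h1)
    have h4 : IsNilpotent ε := by
      obtain ⟨n, hn⟩ := h3
      refine ⟨2 * n, ?_⟩
      rw [pow_mul, pow_two]
      exact hn
    have h5 := hεχ 1
    rw [mul_one, hσnil ε h4, map_one] at h5
    exact zero_ne_one h5
  obtain ⟨y, hy⟩ : ∃ y, y = (χ ε)⁻¹ • ε := ⟨_, rfl⟩
  have hsty : st y = y := by rw [hy, map_smul, hstε]
  have hχy : χ y = 1 := by rw [hy, map_smul, smul_eq_mul, inv_mul_cancel₀ hχε]
  have hyN : y * y - y ∈ N := by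
    have h1 : y * y - y = (χ ε)⁻¹ • (ε * (y - 1)) := by
      rw [← smul_mul_assoc, ← hy]
      noncomm_ring
    rw [h1]
    apply Submodule.smul_mem
    apply hεx
    rw [map_sub, hχy, map_one, sub_self]
  -- powers of `y` modulo `N`
  have hpow : ∀ n : ℕ, y ^ (n + 1) - y ∈ N := by
    intro n
    induction n with
    | zero => simp
    | succ n ih =>
      have h1 : y ^ (n + 1 + 1) - y = (y ^ (n + 1) - y) * y + (y * y - y) := by
        rw [pow_succ y (n + 1)]
        noncomm_ring
      rw [h1]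
      exact add_mem (hNr _ _ ih) hyN
  obtain ⟨n, hn⟩ := hnil _ ((hN _).mp hyN)
  have hn' : (y - y ^ 2) ^ (n + 1) = 0 := by
    have h1 : y - y ^ 2 = -(y * y - y) := by
      rw [pow_two]
      abel
    rw [h1, neg_pow, pow_succ (y * y - y), hn, zero_mul, mul_zero]
  obtain ⟨z, hz⟩ : ∃ z, z = 1 - y ^ (n + 1) := ⟨_, rfl⟩
  obtain ⟨e, he⟩ : ∃ e, e = 1 - (1 - y ^ (n + 1)) ^ (n + 1) := ⟨_, rfl⟩
  have hidem : e * e = e := by
    have := isIdempotentElem_one_sub_one_sub_pow_pow y (n + 1) hn'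
    rw [he]
    exact this
  have hzN : z - (1 - y) ∈ N := by
    have h1 : z - (1 - y) = -(y ^ (n + 1) - y) := by rw [hz]; abel
    rw [h1]
    exact neg_mem (hpow n)
  have hzpow : ∀ k : ℕ, z ^ (k + 1) - (1 - y) ∈ N := by
    intro k
    induction k with
    | zero => simpa using hzN
    | succ k ih =>
      have h1 : z ^ (k + 1 + 1) - (1 - y) =
          (z ^ (k + 1) - (1 - y)) * z + (1 - y) * (z - (1 - y)) + (y * y - y) := by
        rw [pow_succ z (k + 1)]
        noncomm_ring
      rw [h1]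
      exact add_mem (add_mem (hNr _ _ ih) (hNl _ _ hzN)) hyN
  have heN : e - y ∈ N := by
    have h1 : e - y = -(z ^ (n + 1) - (1 - y)) := by rw [he, hz]; abel
    rw [h1]
    exact neg_mem (hzpow n)
  -- `st` fixes `1` and is compatible with powers
  have hst1 : st 1 = 1 := by
    have h1 := hst (st 1) 1
    rw [mul_one, hst2, mul_one] at h1
    exact h1.symm
  have hstpow : ∀ (a : A) (k : ℕ), st a = a → st (a ^ k) = a ^ k := by
    intro a k ha
    induction k with
    | zero => rw [pow_zero, hst1]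
    | succ k ih => rw [pow_succ, hst, ih, ha, ← pow_succ', pow_succ]
  have hste : st e = e := by
    have h1 : st (1 - y ^ (n + 1)) = 1 - y ^ (n + 1) := by
      rw [map_sub, hst1, hstpow y _ hsty]
    rw [he, map_sub, hst1, hstpow _ _ h1]
  have hχe : χ e = 1 := by
    have h1 := hχN _ heN
    rw [map_sub, hχy, sub_eq_zero] at h1
    exact h1
  have hσe : ∀ a, σ (e * a) = (χ ε)⁻¹ * χ a := by
    intro a
    have h1 := (hN _).mp heN a
    rw [sub_mul, map_sub, sub_eq_zero] at h1
    rw [h1, hy, smul_mul_assoc, map_smul, hεχ, smul_eq_mul]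
  have hσe1 : σ e = (χ ε)⁻¹ := by
    have h1 := hσe 1
    rwa [mul_one, map_one, mul_one] at h1
  refine ⟨e, hidem, hste, hχe, ?_, fun a => ?_⟩
  · rw [hσe1]
    exact inv_ne_zero hχε
  · rw [hσe, hσe1]

end Pool.NP
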