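import Pool.Agent.Work.MP_a60482_np.Defs

/-!
The full contraction of a symmetric algebraic class vanishes on enough factors.
-/

open CategoryTheory MonoidalCategory CartesianMonoidalCategory

universe u v w x b

namespace Pool.NP

open Pool.KC Pool.Std

variable {V : Type u} [Category.{v} V] [CartesianMonoidalCategory V] {K : Type x} [Field K]
variable {T : WeilTheory.{u, v, w, x} V K} {X : V} {c : T.H X}

/-- the trace on the terminal object is multiplicative -/
theorem tr_unit_mul (a b : T.H (𝟙_ V)) : T.tr (𝟙_ V) (a * b) = T.tr _ a * T.tr _ b := by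
  have h1 := T.tr_prod (X := 𝟙_ V) (Y := 𝟙_ V) a b
  have h2 : snd (𝟙_ V) (𝟙_ V) = fst (𝟙_ V) (𝟙_ V) := toUnit_unique _ _
  let f : (𝟙_ V) ⊗ (𝟙_ V) ≅ (𝟙_ V) :=
    { hom := fst (𝟙_ V) (𝟙_ V)
      inv := lift (𝟙 _) (𝟙 _)
      hom_inv_id := CartesianMonoidalCategory.hom_ext _ _ (toUnit_unique _ _) (toUnit_unique _ _)
      inv_hom_id := toUnit_unique _ _ }
  rw [h2, ← map_mul] at h1
  have h3 := T.tr_iso f (a * b)
  rw [← h1, ← h3]

theorem full_eq_zero_aux [CharZero K] {S : Gen T c} (E : Idem S) (hw : WardRel E)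
    (hc : CtrRel E) : ∀ (m : ℕ) (γ : T.H (pow S.Y (2 * m))), IsSym E (2 * m) γ →
      T.tr _ (γ * γ) = 0 → full E (2 * m) γ = 0 := by
  intro m
  induction m with
  | zero =>
    intro γ _ h
    change T.tr (𝟙_ V) γ = 0
    have h1 : T.tr (𝟙_ V) γ * T.tr (𝟙_ V) γ = 0 := by
      rw [← tr_unit_mul]
      exact h
    exact mul_self_eq_zero.mp h1
  | succ m ih =>
    intro γ hγ h
    change full E (2 * m) (ctr E (pow S.Y (2 * m)) γ) = 0
    refine ih _ (hc (2 * m) γ hγ) ?_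
    have h1 := hw (2 * m) ⟨m, by ring⟩ γ hγ
    have h2 : T.tr (pow S.Y (2 * m + 2)) (γ * γ) = 0 := h
    rw [h2, mul_zero] at h1
    have h3 : (((2 * m : ℕ) : K) + 1) ≠ 0 := by
      exact_mod_cast Nat.succ_ne_zero (2 * m)
    exact (mul_eq_zero.mp h1.symm).resolve_left h3

theorem full_eq_zero [CharZero K] {S : Gen T c} (E : Idem S) (hw : WardRel E) (hc : CtrRel E)
    {g : ℕ} (hg : E.t = -(2 * (g : K))) (γ : T.H (pow S.Y (2 * g + 2)))
    (hγ : IsSym E (2 * g + 2) γ) : full E (2 * g + 2) γ = 0 := by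
  change full E (2 * g) (ctr E (pow S.Y (2 * g)) γ) = 0
  refine full_eq_zero_aux E hw hc g _ (hc (2 * g) γ hγ) ?_
  have h1 := hw (2 * g) ⟨g, by ring⟩ γ hγ
  have h2 : E.t + ((2 * g : ℕ) : K) = 0 := by
    rw [hg]
    push_cast
    ring
  rw [h2, zero_mul] at h1
  have h3 : (((2 * g : ℕ) : K) + 1) ≠ 0 := by
    exact_mod_cast Nat.succ_ne_zero (2 * g)
  exact (mul_eq_zero.mp h1.symm).resolve_left h3

end Pool.NP
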