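import Pool.Agent.Work.StdConj01.Main
import Pool.Agent.Work.MP_a60482_np.Pw

/-!
Nilpotence of numerically trivial correspondences and the standard conjectures: definitions.
-/

open CategoryTheory MonoidalCategory CartesianMonoidalCategory

universe u v w x b

namespace Pool.NP

open Pool.KC Pool.Std

section Pow

variable {V : Type u} [Category.{v} V] [CartesianMonoidalCategory V]

/-- `Y^a × Y^b → Y^(b + a)` -/
def glue (Y : V) (b : ℕ) : (a : ℕ) → (pow Y a ⊗ pow Y b ⟶ pow Y (b + a))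
  | 0 => snd (pow Y 0) (pow Y b)
  | a + 1 => lift (fst (Y ⊗ pow Y a) (pow Y b) ≫ fst Y (pow Y a))
      (lift (fst (Y ⊗ pow Y a) (pow Y b) ≫ snd Y (pow Y a)) (snd (Y ⊗ pow Y a) (pow Y b)) ≫
        glue Y b a)

end Pow

variable {V : Type u} [Category.{v} V] [CartesianMonoidalCategory V] {K : Type x} [Field K]

/-- numerically trivial self-correspondences are nilpotent -/
def Nil (T : WeilTheory.{u, v, w, x} V K) : Prop :=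
  ∀ Z : V, ∀ z ∈ T.C (Z ⊗ Z) (T.dim Z), (∀ y ∈ T.C (Z ⊗ Z) (T.dim Z), T.tr (Z ⊗ Z) (z * y) = 0) →
    IsNilpotent (T.act z : Module.End K (T.H Z))

variable {T : WeilTheory.{u, v, w, x} V K}

/-- contraction of the first factor with `a` -/
noncomputable def iota (T : WeilTheory.{u, v, w, x} V K) {Y : V} (W : V) (a : T.H Y) :
    T.H (Y ⊗ W) →ₗ[K] T.H W :=
  T.push Y W ∘ₗ LinearMap.mulLeft K (T.pull (fst Y W) a)

/-- the operator `b ↦ (∫ v b) v` on the first factor -/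
noncomputable def tau (T : WeilTheory.{u, v, w, x} V K) {Y : V} (W : V) (v : T.H Y) (γ : T.H (Y ⊗ W)) :
    T.H (Y ⊗ W) :=
  T.pull (fst Y W) v * T.pull (snd Y W) (iota T W v γ)

/-- the four projections of `(Y × Y) × (Y × Y)` -/
abbrev q1 (Y : V) : (Y ⊗ Y) ⊗ (Y ⊗ Y) ⟶ Y := fst (Y ⊗ Y) (Y ⊗ Y) ≫ fst Y Y
abbrev q2 (Y : V) : (Y ⊗ Y) ⊗ (Y ⊗ Y) ⟶ Y := fst (Y ⊗ Y) (Y ⊗ Y) ≫ snd Y Y
abbrev q3 (Y : V) : (Y ⊗ Y) ⊗ (Y ⊗ Y) ⟶ Y := snd (Y ⊗ Y) (Y ⊗ Y) ≫ fst Y Y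
abbrev q4 (Y : V) : (Y ⊗ Y) ⊗ (Y ⊗ Y) ⟶ Y := snd (Y ⊗ Y) (Y ⊗ Y) ≫ snd Y Y

/-- the class `(f, g)^* z` -/
noncomputable def at2 (T : WeilTheory.{u, v, w, x} V K) {W Y : V} (z : T.H (Y ⊗ Y)) (f g : W ⟶ Y) :
    T.H W := T.pull (lift f g) z

/-- the morphism `(p ≫ i, q, r, s)` -/
def rmap {W X Y : V} (i : Y ⟶ X) (p q r s : W ⟶ Y) : W ⟶ X ⊗ (Y ⊗ (Y ⊗ Y)) :=
  lift (p ≫ i) (lift q (lift r s))

/-- A very general smooth section `Y` of `X`, of odd dimension and large degree. -/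
structure Gen (T : WeilTheory.{u, v, w, x} V K) {X : V} (c : T.H X) where
  Y : V
  i : Y ⟶ X
  r : K
  r_ne : r ≠ 0
  dim : T.dim Y + 1 = T.dim X
  odd : Odd (T.dim Y)
  tr : ∀ a, T.tr Y (T.pull i a) = r * T.tr X (a * c)
  v : T.H Y
  v_mem : v ∈ T.deg Y (T.dim Y)
  v_ne : v ≠ 0
  v_orth : ∀ a, T.tr Y (v * T.pull i a) = 0
  /-- the Picard-Lefschetz formula -/
  pl : ∀ n k : ℕ, ∀ γ ∈ T.C (pow Y (n + 1)) k,
    ∑ j : Fin (n + 1), T.pull (perm Y (Equiv.swap 0 j))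
      (tau T (pow Y n) v (T.pull (perm Y (Equiv.swap 0 j)) γ)) = 0
  /-- classes on `Y × Y` -/
  two : ∀ z ∈ T.C (Y ⊗ Y) (T.dim Y), ∃ g ∈ T.C (X ⊗ X) (T.dim Y), ∃ s : K,
    z = T.pull (lift (fst Y Y ≫ i) (snd Y Y ≫ i)) g + s • T.diag Y
  /-- classes on `Y × Y × Y × Y` -/
  four : ∀ z ∈ T.C ((Y ⊗ Y) ⊗ (Y ⊗ Y)) (2 * T.dim Y), ∃ s₁ s₂ s₃ : K,
    ∃ ρ₁ ∈ T.C (X ⊗ (Y ⊗ (Y ⊗ Y))) (2 * T.dim Y), ∃ ρ₂ ∈ T.C (X ⊗ (Y ⊗ (Y ⊗ Y))) (2 * T.dim Y),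
    ∃ ρ₃ ∈ T.C (X ⊗ (Y ⊗ (Y ⊗ Y))) (2 * T.dim Y), ∃ ρ₄ ∈ T.C (X ⊗ (Y ⊗ (Y ⊗ Y))) (2 * T.dim Y),
    z = s₁ • (at2 T (T.diag Y) (q1 Y) (q2 Y) * at2 T (T.diag Y) (q3 Y) (q4 Y)) +
      s₂ • (at2 T (T.diag Y) (q1 Y) (q3 Y) * at2 T (T.diag Y) (q2 Y) (q4 Y)) +
      s₃ • (at2 T (T.diag Y) (q1 Y) (q4 Y) * at2 T (T.diag Y) (q2 Y) (q3 Y)) +
      (T.pull (rmap i (q1 Y) (q2 Y) (q3 Y) (q4 Y)) ρ₁ +
        T.pull (rmap i (q2 Y) (q1 Y) (q3 Y) (q4 Y)) ρ₂ +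
        T.pull (rmap i (q3 Y) (q1 Y) (q2 Y) (q4 Y)) ρ₃ +
        T.pull (rmap i (q4 Y) (q1 Y) (q2 Y) (q3 Y)) ρ₄)
  /-- large degree: the vanishing cohomology is large -/
  big : ∀ W : Submodule K (T.H Y), (∀ y, y ∈ W ↔ y ∈ T.deg Y (T.dim Y) ∧
      ∀ a, T.tr Y (y * T.pull i a) = 0) →
    Module.finrank K (T.H Y) ≤ Module.finrank K (T.deg Y (T.dim Y)) + Module.finrank K W

namespace Gen

variable {X : V} {c : T.H X} (S : Gen T c)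

/-- the vanishing cohomology -/
def van : Submodule K (T.H S.Y) where
  carrier := {y | y ∈ T.deg S.Y (T.dim S.Y) ∧ ∀ a, T.tr S.Y (y * T.pull S.i a) = 0}
  add_mem' := by
    rintro a b ⟨h1, h2⟩ ⟨h3, h4⟩
    exact ⟨add_mem h1 h3, fun y => by rw [add_mul, map_add, h2, h4, add_zero]⟩
  zero_mem' := ⟨zero_mem _, fun a => by rw [zero_mul, map_zero]⟩
  smul_mem' := by
    rintro s a ⟨h1, h2⟩
    exact ⟨Submodule.smul_mem _ _ h1, fun y => by rw [smul_mul_assoc, map_smul, h2, smul_zero]⟩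

theorem mem_van {y : T.H S.Y} : y ∈ S.van ↔ y ∈ T.deg S.Y (T.dim S.Y) ∧
    ∀ a, T.tr S.Y (y * T.pull S.i a) = 0 := Iff.rfl

theorem v_van : S.v ∈ S.van := ⟨S.v_mem, S.v_orth⟩

end Gen

/-- the algebraic idempotent `e` which represents the character of the algebraic
self-correspondences of `Y` on the vanishing cohomology -/
structure Idem {X : V} {c : T.H X} (S : Gen T c) where
  e : T.H (S.Y ⊗ S.Y)
  mem : e ∈ T.C (S.Y ⊗ S.Y) (T.dim S.Y)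
  idem : ∀ a, T.act e (T.act e a) = T.act e a
  symm : T.pull (lift (snd S.Y S.Y) (fst S.Y S.Y)) e = e
  van : ∀ y ∈ S.van, T.act e y = y
  t : K
  t_ne : t ≠ 0
  tr : ∀ z ∈ T.C (S.Y ⊗ S.Y) (T.dim S.Y), ∀ s : K, (∀ y ∈ S.van, T.act z y = s • y) →
    T.tr (S.Y ⊗ S.Y) (e * z) = t * s

section

variable {X : V} {c : T.H X} {S : Gen T c} (E : Idem S)

/-- the four slot relation -/
def FourRel : Prop :=
  ∀ κ ∈ T.C ((S.Y ⊗ S.Y) ⊗ (S.Y ⊗ S.Y)) (2 * T.dim S.Y), ∀ y ∈ S.van,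
    E.t * (E.t - 1) * T.tr (S.Y ⊗ S.Y)
      (T.act κ (T.pull (fst S.Y S.Y) y * T.pull (snd S.Y S.Y) S.v) *
        (T.pull (fst S.Y S.Y) y * T.pull (snd S.Y S.Y) S.v)) =
    T.tr S.Y (S.v * y) ^ 2 * (T.tr (S.Y ⊗ S.Y) (T.act κ E.e * E.e) -
      T.tr _ (κ * (at2 T E.e (q1 S.Y) (q4 S.Y) * at2 T E.e (q2 S.Y) (q3 S.Y))))

/-- the class of the operator `e` on every factor of `Y^n` -/
noncomputable def PiC : (n : ℕ) → T.H (pow S.Y n ⊗ pow S.Y n)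
  | 0 => T.diag (𝟙_ V)
  | n + 1 => bx T E.e (PiC n)

/-- the operator `e` on every factor of `Y^n` -/
noncomputable def Pi (n : ℕ) : T.H (pow S.Y n) →ₗ[K] T.H (pow S.Y n) := T.act (PiC E n)

/-- symmetric algebraic classes on `Y^n`, with `e` acting as the identity on every factor -/
structure IsSym (n : ℕ) (γ : T.H (pow S.Y n)) : Prop where
  mem : ∃ k, 2 * k = n * T.dim S.Y ∧ γ ∈ T.C (pow S.Y n) k
  symm : ∀ σ : Equiv.Perm (Fin n), T.pull (perm S.Y σ) γ = γ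
  proj : Pi E n γ = γ

/-- contraction of the first two factors with `e` -/
noncomputable def ctr (W : V) : T.H (S.Y ⊗ (S.Y ⊗ W)) →ₗ[K] T.H W :=
  T.push S.Y W ∘ₗ T.push S.Y (S.Y ⊗ W) ∘ₗ
    LinearMap.mulLeft K (T.pull (lift (fst S.Y (S.Y ⊗ W)) (snd S.Y (S.Y ⊗ W) ≫ fst S.Y W)) E.e)

/-- the Ward identity -/
def WardRel : Prop :=
  ∀ n : ℕ, Even n → ∀ γ : T.H (pow S.Y (n + 2)), IsSym E (n + 2) γ →
    (E.t + n) * T.tr _ (γ * γ) = (n + 1) * T.tr _ (ctr E (pow S.Y n) γ * ctr E (pow S.Y n) γ)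

/-- the contraction of a symmetric class is symmetric -/
def CtrRel : Prop :=
  ∀ (n : ℕ) (γ : T.H (pow S.Y (n + 2))), IsSym E (n + 2) γ → IsSym E n (ctr E (pow S.Y n) γ)

end

/-- the class `e × x` on `Y × Y × W` -/
noncomputable def ebox {X : V} {c : T.H X} {S : Gen T c} (E : Idem S) (W : V) :
    T.H W →ₗ[K] T.H (S.Y ⊗ (S.Y ⊗ W)) :=
  LinearMap.mulLeft K (T.pull (lift (fst S.Y (S.Y ⊗ W)) (snd S.Y (S.Y ⊗ W) ≫ fst S.Y W)) E.e) ∘ₗ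
    (T.pull (snd S.Y (S.Y ⊗ W) ≫ snd S.Y W)).toLinearMap

/-- `e × e × ⋯ × e` on `Y^n`, `n` even -/
noncomputable def stdM {X : V} {c : T.H X} {S : Gen T c} (E : Idem S) :
    (n : ℕ) → T.H (pow S.Y n)
  | 0 => 1
  | 1 => 0
  | n + 2 => ebox E (pow S.Y n) (stdM E n)

/-- the symmetrization of `e × e × ⋯ × e` -/
noncomputable def symM {X : V} {c : T.H X} {S : Gen T c} (E : Idem S) (n : ℕ) :
    T.H (pow S.Y n) :=
  ∑ σ : Equiv.Perm (Fin n), T.pull (perm S.Y σ) (stdM E n)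

/-- the permutation of `0, 1, …, n` which fixes `0` -/
def up {n : ℕ} (σ : Equiv.Perm (Fin n)) : Equiv.Perm (Fin (n + 1)) :=
  Equiv.Perm.decomposeFin.symm (0, σ)

/-- full contraction -/
noncomputable def full {X : V} {c : T.H X} {S : Gen T c} (E : Idem S) :
    (n : ℕ) → T.H (pow S.Y n) →ₗ[K] K
  | 0 => T.tr (𝟙_ V)
  | 1 => 0
  | n + 2 => full E n ∘ₗ ctr E (pow S.Y n)

/-- `z × ⋯ × z` -/
noncomputable def tens (T : WeilTheory.{u, v, w, x} V K) {Y : V} (z : T.H Y) : (n : ℕ) → T.H (pow Y n)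
  | 0 => 1
  | n + 1 => T.pull (fst Y (pow Y n)) z * T.pull (snd Y (pow Y n)) (tens T z n)

/-- insertion of `z` in all positions -/
noncomputable def ins (T : WeilTheory.{u, v, w, x} V K) {Y : V} (z : T.H Y) (n : ℕ) (y : T.H (pow Y n)) :
    T.H (pow Y (n + 1)) :=
  ∑ a : Fin (n + 1), T.pull (perm Y (Equiv.swap 0 a))
    (T.pull (fst Y (pow Y n)) z * T.pull (snd Y (pow Y n)) y)

/-- contraction of the first `a` factors with `z` -/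
noncomputable def iotas (T : WeilTheory.{u, v, w, x} V K) {Y : V} (z : T.H Y) (b : ℕ) :
    (a : ℕ) → T.H (pow Y (b + a)) →ₗ[K] T.H (pow Y b)
  | 0 => LinearMap.id
  | a + 1 => iotas T z b a ∘ₗ iota T (pow Y (b + a)) z

/-- the operator `c^(-1)` in degree `dim X` is algebraic -/
def Inv (T : WeilTheory.{u, v, w, x} V K) {X : V} (c : T.H X) : Prop :=
  ∃ g ∈ T.C (X ⊗ X) (T.dim X - 1), ∀ a ∈ T.deg X (T.dim X - 2), T.act g (c * a) = a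

end Pool.NP
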