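import Pool.Agent.Work.StdConj01.Conv
import Pool.Agent.Work.MP_a60482_np.Api
import Pool.Agent.Work.MP_a60482_np.Defs

/-!
From the axioms of `Api` to the internal form.
-/

open CategoryTheory MonoidalCategory CartesianMonoidalCategory
open scoped TensorProduct

universe u v w x b

namespace Pool.Std

open Pool.KC Pool.NP

variable {V : Type u} [Category.{v} V] [CartesianMonoidalCategory V] {K : Type x} [Field K]

namespace WeilCoh

variable {D : WeilCoh.{u, v, w, x} V K}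

theorem mem_C_iff (h : D.IsWeil) (hK : D.CoefficientsIn K) {X : V} {i : ℕ} {a : D.H X} :
    a ∈ (toWeil h).C X i ↔ a ∈ D.alg X i := by
  constructor
  · intro ha
    have ha' : a ∈ Submodule.span K (D.alg X i : Set (D.H X)) := ha
    induction ha' using Submodule.span_induction with
    | mem x hx => exact hx
    | zero => exact zero_mem _
    | add x y hx hy h1 h2 => exact add_mem (h1 hx) (h2 hy)
    | smul s x hx h1 => exact hK.smul X i s x (h1 hx)
  · exact fun ha => Submodule.subset_span ha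

theorem onFirst_eq (h : D.IsWeil) {Y W : V} (v : D.H Y) (γ : D.H (Y ⊗ W)) :
    D.onFirst v γ = tau (toWeil h) W v γ := by
  have h1 : iota (toWeil h) W v γ = D.pf (D.pb (fst Y W) v * γ) := push_eq h _
  unfold tau
  rw [h1]
  rfl

theorem onFactor_eq (h : D.IsWeil) {Y : V} (v : D.H Y) {n : ℕ} (j : Fin (n + 1))
    (γ : D.H (pow Y (n + 1))) :
    D.onFactor v j γ = (toWeil h).pull (perm Y (Equiv.swap 0 j))
      (tau (toWeil h) (pow Y n) v ((toWeil h).pull (perm Y (Equiv.swap 0 j)) γ)) := by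
  rw [← onFirst_eq]
  rfl

end WeilCoh

namespace Polarization

variable {D : WeilCoh.{u, v, w, x} V K} {G : Polarization.{u, v, w, x, b} D} [CharZero K]

omit [CharZero K] in
theorem GenericSection.four' (h : D.IsWeil) (hK : D.CoefficientsIn K) {X Y : V}
    {M : G.Bund X} {i : Y ⟶ X} (hV : G.GenericSection M i) :
    ∀ z ∈ (WeilCoh.toWeil h).C ((Y ⊗ Y) ⊗ (Y ⊗ Y)) (2 * (WeilCoh.toWeil h).dim Y),
    ∃ s₁ s₂ s₃ : K,
    ∃ ρ₁ ∈ (WeilCoh.toWeil h).C (X ⊗ (Y ⊗ (Y ⊗ Y))) (2 * (WeilCoh.toWeil h).dim Y),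
    ∃ ρ₂ ∈ (WeilCoh.toWeil h).C (X ⊗ (Y ⊗ (Y ⊗ Y))) (2 * (WeilCoh.toWeil h).dim Y),
    ∃ ρ₃ ∈ (WeilCoh.toWeil h).C (X ⊗ (Y ⊗ (Y ⊗ Y))) (2 * (WeilCoh.toWeil h).dim Y),
    ∃ ρ₄ ∈ (WeilCoh.toWeil h).C (X ⊗ (Y ⊗ (Y ⊗ Y))) (2 * (WeilCoh.toWeil h).dim Y),
    z = s₁ • (at2 (WeilCoh.toWeil h) ((WeilCoh.toWeil h).diag Y) (q1 Y) (q2 Y) *
          at2 (WeilCoh.toWeil h) ((WeilCoh.toWeil h).diag Y) (q3 Y) (q4 Y)) +
      s₂ • (at2 (WeilCoh.toWeil h) ((WeilCoh.toWeil h).diag Y) (q1 Y) (q3 Y) *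
          at2 (WeilCoh.toWeil h) ((WeilCoh.toWeil h).diag Y) (q2 Y) (q4 Y)) +
      s₃ • (at2 (WeilCoh.toWeil h) ((WeilCoh.toWeil h).diag Y) (q1 Y) (q4 Y) *
          at2 (WeilCoh.toWeil h) ((WeilCoh.toWeil h).diag Y) (q2 Y) (q3 Y)) +
      ((WeilCoh.toWeil h).pull (rmap i (q1 Y) (q2 Y) (q3 Y) (q4 Y)) ρ₁ +
        (WeilCoh.toWeil h).pull (rmap i (q2 Y) (q1 Y) (q3 Y) (q4 Y)) ρ₂ +
        (WeilCoh.toWeil h).pull (rmap i (q3 Y) (q1 Y) (q2 Y) (q4 Y)) ρ₃ +
        (WeilCoh.toWeil h).pull (rmap i (q4 Y) (q1 Y) (q2 Y) (q3 Y)) ρ₄) := by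
  intro z hz
  have h1 := hV.four z ((WeilCoh.mem_C_iff h hK).mp hz)
  set T := WeilCoh.toWeil h with hT
  clear hz
  induction h1 using Submodule.span_induction with
  | mem x hx =>
    rcases hx with rfl | rfl | rfl | ⟨ρ, hρ, hx⟩
    · refine ⟨1, 0, 0, 0, zero_mem _, 0, zero_mem _, 0, zero_mem _, 0, zero_mem _, ?_⟩
      simp only [one_smul, zero_smul, add_zero, map_zero]
      rfl
    · refine ⟨0, 1, 0, 0, zero_mem _, 0, zero_mem _, 0, zero_mem _, 0, zero_mem _, ?_⟩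
      simp only [one_smul, zero_smul, add_zero, map_zero, zero_add]
      rfl
    · refine ⟨0, 0, 1, 0, zero_mem _, 0, zero_mem _, 0, zero_mem _, 0, zero_mem _, ?_⟩
      simp only [one_smul, zero_smul, add_zero, map_zero, zero_add]
      rfl
    · have hρ' : ρ ∈ T.C (X ⊗ (Y ⊗ (Y ⊗ Y))) (2 * T.dim Y) := Submodule.subset_span hρ
      rcases hx with rfl | rfl | rfl | rfl
      · refine ⟨0, 0, 0, ρ, hρ', 0, zero_mem _, 0, zero_mem _, 0, zero_mem _, ?_⟩
        simp only [zero_smul, add_zero, map_zero, zero_add]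
        rfl
      · refine ⟨0, 0, 0, 0, zero_mem _, ρ, hρ', 0, zero_mem _, 0, zero_mem _, ?_⟩
        simp only [zero_smul, add_zero, map_zero, zero_add]
        rfl
      · refine ⟨0, 0, 0, 0, zero_mem _, 0, zero_mem _, ρ, hρ', 0, zero_mem _, ?_⟩
        simp only [zero_smul, add_zero, map_zero, zero_add]
        rfl
      · refine ⟨0, 0, 0, 0, zero_mem _, 0, zero_mem _, 0, zero_mem _, ρ, hρ', ?_⟩
        simp only [zero_smul, add_zero, map_zero, zero_add]
        rfl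
  | zero =>
    refine ⟨0, 0, 0, 0, zero_mem _, 0, zero_mem _, 0, zero_mem _, 0, zero_mem _, ?_⟩
    simp only [zero_smul, add_zero, map_zero]
  | add x y _ _ hx hy =>
    obtain ⟨a1, a2, a3, r1, hr1, r2, hr2, r3, hr3, r4, hr4, hx⟩ := hx
    obtain ⟨b1, b2, b3, t1, ht1, t2, ht2, t3, ht3, t4, ht4, hy⟩ := hy
    refine ⟨a1 + b1, a2 + b2, a3 + b3, r1 + t1, add_mem hr1 ht1, r2 + t2, add_mem hr2 ht2,
      r3 + t3, add_mem hr3 ht3, r4 + t4, add_mem hr4 ht4, ?_⟩
    refine (congrArg₂ (· + ·) hx hy).trans ?_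
    simp only [add_smul, map_add]
    abel
  | smul s x _ hx =>
    obtain ⟨a1, a2, a3, r1, hr1, r2, hr2, r3, hr3, r4, hr4, hx⟩ := hx
    refine ⟨s * a1, s * a2, s * a3, s • r1, Submodule.smul_mem _ _ hr1, s • r2,
      Submodule.smul_mem _ _ hr2, s • r3, Submodule.smul_mem _ _ hr3, s • r4,
      Submodule.smul_mem _ _ hr4, ?_⟩
    refine (congrArg (s • ·) hx).trans ?_
    simp only [smul_add, smul_smul, map_smul]

/-- the internal form of a very general section -/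
noncomputable def GenericSection.toGen (h : D.IsWeil) (hK : D.CoefficientsIn K) {X Y : V}
    {M : G.Bund X} {i : Y ⟶ X} (hV : G.GenericSection M i) {m : ℕ} (hX : D.dim X = 2 * m) :
    Gen (WeilCoh.toWeil h) (X := X) (G.c M) where
  Y := Y
  i := i
  r := (hV.int.choose : K)
  r_ne := by
    rw [Ne, Rat.cast_eq_zero]
    exact hV.int.choose_spec.1
  dim := hV.dim
  odd := by
    change Odd (D.dim Y)
    have h1 := hV.dim
    rw [hX] at h1
    exact ⟨m - 1, by omega⟩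
  tr := hV.int.choose_spec.2
  v := hV.cycle.choose
  v_mem := hV.cycle.choose_spec.mem.1
  v_ne := hV.cycle.choose_spec.ne
  v_orth := hV.cycle.choose_spec.mem.2
  pl := by
    intro n k γ hγ
    have h1 := hV.cycle.choose_spec.picard_lefschetz n k γ ((WeilCoh.mem_C_iff h hK).mp hγ)
    rw [← h1]
    refine Finset.sum_congr rfl fun j _ => ?_
    exact (WeilCoh.onFactor_eq h _ j γ).symm
  two := by
    intro z hz
    obtain ⟨g, hg, s, hs⟩ := hV.two z ((WeilCoh.mem_C_iff h hK).mp hz)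
    exact ⟨g, Submodule.subset_span hg, s, hs⟩
  four := hV.four' h hK
  big := by
    intro W hW
    have h1 : W = D.vanishing i := by
      ext y
      exact hW y
    rw [h1]
    exact hV.large

end Polarization

end Pool.Std
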