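import Pool.Agent.Work.MP_a60482_np.Defs
import Pool.Agent.Work.StdConj01.Split

/-!
Contraction of two factors.
-/

open CategoryTheory MonoidalCategory CartesianMonoidalCategory

universe u v w x b

namespace Pool.NP

open Pool.KC Pool.Std

variable {V : Type u} [Category.{v} V] [CartesianMonoidalCategory V] {K : Type x} [Field K]
variable {T : WeilTheory.{u, v, w, x} V K} {X : V} {c : T.H X}

/-- base change for the push-forward -/
theorem push_base {P W W' : V} (f : W' ⟶ W) (z : T.H (P ⊗ W)) :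
    T.push P W' (T.pull (lift (fst P W') (snd P W' ≫ f)) z) = T.pull f (T.push P W z) := by
  refine T.kind (P := fun z => T.push P W' (T.pull (lift (fst P W') (snd P W' ≫ f)) z) =
    T.pull f (T.push P W z)) (by simp) ?_ ?_ z
  · intro a b
    rw [map_mul, T.pull_comp', T.pull_comp', lift_fst, lift_snd, ← T.pull_comp', T.push_pure,
      T.push_pure, map_smul]
  · intro a b h1 h2
    simp only [map_add, h1, h2]

/-- the morphism to the first two factors -/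
abbrev fs (Y W : V) : Y ⊗ (Y ⊗ W) ⟶ Y ⊗ Y := lift (fst Y (Y ⊗ W)) (snd Y (Y ⊗ W) ≫ fst Y W)

theorem ctr_apply {S : Gen T c} (E : Idem S) (W : V) (z : T.H (S.Y ⊗ (S.Y ⊗ W))) :
    ctr E W z = T.push S.Y W (T.push S.Y (S.Y ⊗ W) (T.pull (fs S.Y W) E.e * z)) := rfl

theorem ebox_apply {S : Gen T c} (E : Idem S) (W : V) (y : T.H W) :
    ebox E W y = T.pull (fs S.Y W) E.e * T.pull (snd S.Y (S.Y ⊗ W) ≫ snd S.Y W) y := rfl

theorem Idem.deg {S : Gen T c} (E : Idem S) : E.e ∈ T.deg (S.Y ⊗ S.Y) (2 * T.dim S.Y) :=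
  T.C_deg _ _ E.mem

theorem tr_ebox {S : Gen T c} (E : Idem S) (W : V) (y : T.H W) (z : T.H (S.Y ⊗ (S.Y ⊗ W))) :
    T.tr _ (ebox E W y * z) = T.tr _ (y * ctr E W z) := by
  rw [ctr_apply, ebox_apply, ← T.push_snd_mul, T.tr_push, ← T.push_snd_mul, T.tr_push,
    T.pull_comp', ← mul_assoc,
    T.even_comm (T.pull_deg (fs S.Y W) E.deg) (T.pull (snd S.Y (S.Y ⊗ W) ≫ snd S.Y W) y)]

/-- the contraction of a pure class -/
theorem ctr_pure {S : Gen T c} (E : Idem S) (W : V) (a b : T.H S.Y) (y : T.H W) :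
    ctr E W (T.pull (fst S.Y (S.Y ⊗ W)) a * T.pull (snd S.Y (S.Y ⊗ W))
      (T.pull (fst S.Y W) b * T.pull (snd S.Y W) y)) = T.tr S.Y (T.act E.e a * b) • y := by
  rw [ctr_apply, ← mul_assoc, T.even_comm (T.pull_deg (fs S.Y W) E.deg), T.push_mul_snd]
  have h1 : T.push S.Y (S.Y ⊗ W) (T.pull (fst S.Y (S.Y ⊗ W)) a * T.pull (fs S.Y W) E.e) =
      T.pull (fst S.Y W) (T.act E.e a) := by
    rw [T.act_apply, ← push_base]
    congr 1
    rw [map_mul, T.pull_comp', lift_fst]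
  rw [h1, ← mul_assoc, ← map_mul, T.push_pure]

theorem ctr_mem {S : Gen T c} (E : Idem S) (W : V) {k l : ℕ} (hk : k = T.dim S.Y + l)
    {z : T.H (S.Y ⊗ (S.Y ⊗ W))} (hz : z ∈ T.C _ k) : ctr E W z ∈ T.C W l := by
  rw [ctr_apply]
  refine T.C_push ?_
  rw [← hk]
  exact T.C_push (T.C_mul (T.C_pull _ E.mem) hz)

theorem ctr_perm {S : Gen T c} (E : Idem S) {W W' : V} (f : W' ⟶ W) (z : T.H (S.Y ⊗ (S.Y ⊗ W))) :
    ctr E W' (T.pull (lift (fst S.Y (S.Y ⊗ W')) (snd S.Y (S.Y ⊗ W') ≫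
      lift (fst S.Y W') (snd S.Y W' ≫ f))) z) = T.pull f (ctr E W z) := by
  have h1 : lift (fst S.Y (S.Y ⊗ W')) (snd S.Y (S.Y ⊗ W') ≫
      lift (fst S.Y W') (snd S.Y W' ≫ f)) ≫ fs S.Y W = fs S.Y W' := by
    ext <;> simp
  rw [ctr_apply, ctr_apply, ← push_base, ← push_base,
    map_mul (T.pull (lift (fst S.Y (S.Y ⊗ W')) (snd S.Y (S.Y ⊗ W') ≫
      lift (fst S.Y W') (snd S.Y W' ≫ f)))), T.pull_comp', h1]

theorem Idem.tr_act_act {S : Gen T c} (E : Idem S) (a b : T.H S.Y) :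
    T.tr S.Y (T.act E.e a * T.act E.e b) = T.tr S.Y (T.act E.e a * b) := by
  refine T.hind (P := fun b => T.tr S.Y (T.act E.e a * T.act E.e b) =
    T.tr S.Y (T.act E.e a * b)) (by simp) ?_ ?_ b
  · intro j b hb
    refine T.hind (P := fun a => T.tr S.Y (T.act E.e a * T.act E.e b) =
      T.tr S.Y (T.act E.e a * b)) (by simp) ?_ ?_ a
    · intro i a ha
      have h1 : T.act E.e a ∈ T.deg S.Y i := T.act_deg E.deg (by omega) ha
      have h2 : T.act E.e b ∈ T.deg S.Y j := T.act_deg E.deg (by omega) hb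
      have h3 := tr_act_swap E.deg h1 hb
      have h4 : T.pull (Cohomology.swap S.Y) E.e = E.e := E.symm
      rw [h4, E.idem a] at h3
      have h5 := T.comm h1 h2
      rw [T.neg_pow_smul] at h5
      rw [h5, map_smul, smul_eq_mul, h3]
    · intro a a' h1 h2
      simp only [map_add, add_mul, h1, h2]
  · intro b b' h1 h2
    simp only [map_add, mul_add, h1, h2]

/-- the contraction commutes with the projections -/
theorem ctr_map {S : Gen T c} (E : Idem S) {W : V} (P : T.H W →ₗ[K] T.H W)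
    (Q : T.H (S.Y ⊗ (S.Y ⊗ W)) →ₗ[K] T.H (S.Y ⊗ (S.Y ⊗ W)))
    (hQ : ∀ (a b : T.H S.Y) (y : T.H W),
      Q (T.pull (fst S.Y (S.Y ⊗ W)) a * T.pull (snd S.Y (S.Y ⊗ W))
        (T.pull (fst S.Y W) b * T.pull (snd S.Y W) y)) =
      T.pull (fst S.Y (S.Y ⊗ W)) (T.act E.e a) * T.pull (snd S.Y (S.Y ⊗ W))
        (T.pull (fst S.Y W) (T.act E.e b) * T.pull (snd S.Y W) (P y)))
    (z : T.H (S.Y ⊗ (S.Y ⊗ W))) : ctr E W (Q z) = P (ctr E W z) := by
  refine T.kind (P := fun z => ctr E W (Q z) = P (ctr E W z)) (by simp only [map_zero]) ?_ ?_ z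
  · intro a u
    refine T.kind (P := fun u => ctr E W (Q
      (T.pull (fst S.Y (S.Y ⊗ W)) a * T.pull (snd S.Y (S.Y ⊗ W)) u)) =
      P (ctr E W (T.pull (fst S.Y (S.Y ⊗ W)) a * T.pull (snd S.Y (S.Y ⊗ W)) u)))
      (by simp only [map_zero, mul_zero]) ?_ ?_ u
    · intro b w
      rw [hQ, ctr_pure, ctr_pure, E.idem, E.tr_act_act, map_smul]
    · intro u u' h1 h2
      simp only [map_add, mul_add, h1, h2]
  · intro y y' h1 h2
    simp only [map_add, h1, h2]

end Pool.NP
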