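import Pool.Agent.Work.MP_a60482_np.Pow
import Pool.Agent.Work.StdConj01.Split

/-!
Block PROJ: the projector `e × ⋯ × e` on `Y^n`.
-/

open CategoryTheory MonoidalCategory CartesianMonoidalCategory

universe u v w x b

namespace Pool.NP

open Pool.KC Pool.Std

variable {V : Type u} [Category.{v} V] [CartesianMonoidalCategory V] {K : Type x} [Field K]
variable {T : WeilTheory.{u, v, w, x} V K} {X : V} {c : T.H X}

theorem PiC_mem {S : Gen T c} (E : Idem S) (n : ℕ) :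
    PiC E n ∈ T.C (pow S.Y n ⊗ pow S.Y n) (T.dim (pow S.Y n)) := by
  induction n with
  | zero => exact T.C_diag (𝟙_ V)
  | succ n ih =>
    have h1 := T.C_mul (T.C_pull (lift (fst (S.Y ⊗ pow S.Y n) (S.Y ⊗ pow S.Y n) ≫ fst S.Y (pow S.Y n))
      (snd (S.Y ⊗ pow S.Y n) (S.Y ⊗ pow S.Y n) ≫ fst S.Y (pow S.Y n))) E.mem)
      (T.C_pull (lift (fst (S.Y ⊗ pow S.Y n) (S.Y ⊗ pow S.Y n) ≫ snd S.Y (pow S.Y n))
      (snd (S.Y ⊗ pow S.Y n) (S.Y ⊗ pow S.Y n) ≫ snd S.Y (pow S.Y n))) ih)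
    exact T.C_of_eq h1 (T.dim_prod _ _).symm

theorem Pi_zero {S : Gen T c} (E : Idem S) (y : T.H (pow S.Y 0)) : Pi E 0 y = y := by
  have h1 : Pi E 0 = T.act (T.diag (𝟙_ V)) := rfl
  rw [h1, T.act_diag]
  rfl

/-- `(e × P) (a × y) = e a × P y` -/
theorem pj_cross {S : Gen T c} (E : Idem S) {W : V} (P : T.H (W ⊗ W)) (a : T.H S.Y) (y : T.H W) :
    T.act (bx T E.e P) (T.pull (fst S.Y W) a * T.pull (snd S.Y W) y) =
      T.pull (fst S.Y W) (T.act E.e a) * T.pull (snd S.Y W) (T.act P y) := by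
  refine T.hind (P := fun a => T.act (bx T E.e P) (T.pull (fst S.Y W) a * T.pull (snd S.Y W) y) =
      T.pull (fst S.Y W) (T.act E.e a) * T.pull (snd S.Y W) (T.act P y)) (by simp) ?_ ?_ a
  · intro i a ha
    refine T.hind (P := fun y => T.act (bx T E.e P)
      (T.pull (fst S.Y W) a * T.pull (snd S.Y W) y) =
      T.pull (fst S.Y W) (T.act E.e a) * T.pull (snd S.Y W) (T.act P y)) (by simp) ?_ ?_ y
    · intro j y hy
      exact act_bx (T.C_deg _ _ E.mem) P ha hy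
    · intro y y' h1 h2
      simp only [map_add, mul_add, h1, h2]
  · intro a a' h1 h2
    simp only [map_add, add_mul, h1, h2]

theorem Pi_cross {S : Gen T c} (E : Idem S) (n : ℕ) (a : T.H S.Y) (y : T.H (pow S.Y n)) :
    Pi E (n + 1) (T.pull (fst S.Y (pow S.Y n)) a * T.pull (snd S.Y (pow S.Y n)) y) =
      T.pull (fst S.Y (pow S.Y n)) (T.act E.e a) * T.pull (snd S.Y (pow S.Y n)) (Pi E n y) :=
  pj_cross E (PiC E n) a y

theorem Pi_mem {S : Gen T c} (E : Idem S) {n k : ℕ} {y : T.H (pow S.Y n)}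
    (hy : y ∈ T.C (pow S.Y n) k) : Pi E n y ∈ T.C (pow S.Y n) k :=
  T.act_mem (PiC_mem E n) hy (by omega)

theorem Pi_deg {S : Gen T c} (E : Idem S) {n k : ℕ} {y : T.H (pow S.Y n)}
    (hy : y ∈ T.deg (pow S.Y n) k) : Pi E n y ∈ T.deg (pow S.Y n) k :=
  T.act_deg (T.C_deg _ _ (PiC_mem E n)) (by omega) hy

theorem e_deg {S : Gen T c} (E : Idem S) {k : ℕ} {a : T.H S.Y} (ha : a ∈ T.deg S.Y k) :
    T.act E.e a ∈ T.deg S.Y k := T.act_deg (T.C_deg _ _ E.mem) (by omega) ha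

theorem Pi_Pi {S : Gen T c} (E : Idem S) (n : ℕ) (y : T.H (pow S.Y n)) :
    Pi E n (Pi E n y) = Pi E n y := by
  induction n with
  | zero => rw [Pi_zero, Pi_zero]
  | succ n ih =>
    refine T.kind (X := S.Y) (Y := pow S.Y n)
      (P := fun y => Pi E (n + 1) (Pi E (n + 1) y) = Pi E (n + 1) y) ?_ ?_ ?_ y
    · exact (congrArg _ (map_zero (Pi E (n + 1)))).trans rfl
    · intro a y
      rw [Pi_cross, Pi_cross, E.idem, ih]
    · intro y y' h1 h2
      have h3 : Pi E (n + 1) (y + y') = Pi E (n + 1) y + Pi E (n + 1) y' := map_add _ _ _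
      rw [h3]
      exact (map_add _ _ _).trans (congrArg₂ _ h1 h2)

theorem pj_tr_act_act {S : Gen T c} (E : Idem S) (a b : T.H S.Y) :
    T.tr S.Y (T.act E.e a * T.act E.e b) = T.tr S.Y (T.act E.e a * b) := by
  refine T.hind (P := fun b => T.tr S.Y (T.act E.e a * T.act E.e b) =
    T.tr S.Y (T.act E.e a * b)) (by simp) ?_ ?_ b
  · intro j b hb
    refine T.hind (P := fun a => T.tr S.Y (T.act E.e a * T.act E.e b) =
      T.tr S.Y (T.act E.e a * b)) (by simp) ?_ ?_ a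
    · intro i a ha
      have h1 := e_deg E ha
      have h2 := e_deg E hb
      have h3 := tr_act_swap (T.C_deg _ _ E.mem) h1 hb
      have h4 : T.pull (Cohomology.swap S.Y) E.e = E.e := E.symm
      rw [h4, E.idem a] at h3
      have h5 := T.comm h1 h2
      rw [T.neg_pow_smul] at h5
      rw [h5, map_smul, smul_eq_mul, h3]
    · intro a a' h1 h2
      simp only [map_add, add_mul, h1, h2]
  · intro b b' h1 h2
    simp only [map_add, mul_add, h1, h2]

/-- `e` is self-adjoint -/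
theorem e_adj {S : Gen T c} (E : Idem S) (a b : T.H S.Y) :
    T.tr S.Y (T.act E.e a * b) = T.tr S.Y (a * T.act E.e b) := by
  refine T.hind (P := fun b => T.tr S.Y (T.act E.e a * b) = T.tr S.Y (a * T.act E.e b))
    (by simp) ?_ ?_ b
  · intro j b hb
    refine T.hind (P := fun a => T.tr S.Y (T.act E.e a * b) = T.tr S.Y (a * T.act E.e b))
      (by simp) ?_ ?_ a
    · intro i a ha
      have h1 := T.comm (e_deg E ha) (e_deg E hb)
      have h2 := T.comm ha (e_deg E hb)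
      rw [T.neg_pow_smul] at h1 h2
      rw [← pj_tr_act_act, h1, h2, map_smul, map_smul, pj_tr_act_act]
    · intro a a' h1 h2
      simp only [map_add, add_mul, h1, h2]
  · intro b b' h1 h2
    simp only [map_add, mul_add, h1, h2]

theorem pj_tr {W : V} {Y : V} {P : T.H W →ₗ[K] T.H W} {f : T.H Y →ₗ[K] T.H Y}
    (hPd : ∀ i, ∀ y ∈ T.deg W i, P y ∈ T.deg W i) (hfd : ∀ i, ∀ y ∈ T.deg Y i, f y ∈ T.deg Y i)
    (hP : ∀ y z, T.tr W (P y * z) = T.tr W (y * P z))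
    (hf : ∀ y z, T.tr Y (f y * z) = T.tr Y (y * f z))
    (Q : T.H (Y ⊗ W) →ₗ[K] T.H (Y ⊗ W))
    (hQ : ∀ a y, Q (T.pull (fst Y W) a * T.pull (snd Y W) y) =
      T.pull (fst Y W) (f a) * T.pull (snd Y W) (P y)) (y z : T.H (Y ⊗ W)) :
    T.tr _ (Q y * z) = T.tr _ (y * Q z) := by
  have key : ∀ {i j k l : ℕ} {a a' : T.H Y} {b b' : T.H W}, b ∈ T.deg W j →
      a' ∈ T.deg Y k → T.tr _ (T.pull (fst Y W) a * T.pull (snd Y W) b *
      (T.pull (fst Y W) a' * T.pull (snd Y W) b')) =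
      (-1 : K) ^ (j * k) * (T.tr Y (a * a') * T.tr W (b * b')) := by
    intro i j k l a a' b b' hb ha'
    have h1 := T.comm (T.pull_deg (snd Y W) hb) (T.pull_deg (fst Y W) ha')
    rw [T.neg_pow_smul] at h1
    rw [mul_assoc, ← mul_assoc (T.pull (snd Y W) b), h1, smul_mul_assoc, mul_smul_comm,
      map_smul, mul_assoc, ← mul_assoc (T.pull (fst Y W) a), ← map_mul, ← map_mul, T.tr_prod,
      smul_eq_mul]
  refine T.kind' (P := fun y => T.tr _ (Q y * z) = T.tr _ (y * Q z)) (by simp) ?_ ?_ y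
  · intro i j a b ha hb
    refine T.kind' (P := fun z => T.tr _ (Q (T.pull (fst Y W) a * T.pull (snd Y W) b) * z) =
      T.tr _ (T.pull (fst Y W) a * T.pull (snd Y W) b * Q z)) (by simp) ?_ ?_ z
    · intro k l a' b' ha' hb'
      rw [hQ, hQ, key (i := i) (l := l) (hPd _ _ hb) ha', key (i := i) (l := l) hb (hfd _ _ ha'),
        hP, hf]
    · intro z z' h1 h2
      simp only [map_add, mul_add, h1, h2]
  · intro y y' h1 h2
    simp only [map_add, add_mul, h1, h2]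

theorem tr_Pi {S : Gen T c} (E : Idem S) (n : ℕ) (y z : T.H (pow S.Y n)) :
    T.tr _ (Pi E n y * z) = T.tr _ (y * Pi E n z) := by
  induction n with
  | zero => rw [Pi_zero, Pi_zero]
  | succ n ih =>
    exact pj_tr (Y := S.Y) (W := pow S.Y n) (P := Pi E n) (f := T.act E.e)
      (fun i y hy => Pi_deg E hy) (fun i y hy => e_deg E hy) ih (e_adj E) (Pi E (n + 1))
      (Pi_cross E n) y z

theorem pj_up {W Y : V} {P : T.H W →ₗ[K] T.H W} {f : T.H Y →ₗ[K] T.H Y} (g : W ⟶ W)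
    (hP : ∀ y, P (T.pull g y) = T.pull g (P y))
    (Q : T.H (Y ⊗ W) →ₗ[K] T.H (Y ⊗ W))
    (hQ : ∀ a y, Q (T.pull (fst Y W) a * T.pull (snd Y W) y) =
      T.pull (fst Y W) (f a) * T.pull (snd Y W) (P y)) (y : T.H (Y ⊗ W)) :
    Q (T.pull (lift (fst Y W) (snd Y W ≫ g)) y) =
      T.pull (lift (fst Y W) (snd Y W ≫ g)) (Q y) := by
  have key : ∀ (a : T.H Y) (y : T.H W), T.pull (lift (fst Y W) (snd Y W ≫ g))
      (T.pull (fst Y W) a * T.pull (snd Y W) y) =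
      T.pull (fst Y W) a * T.pull (snd Y W) (T.pull g y) := by
    intro a y
    simp only [map_mul, T.pull_comp', lift_fst, lift_snd]
  refine T.kind (P := fun y => Q (T.pull (lift (fst Y W) (snd Y W ≫ g)) y) =
      T.pull (lift (fst Y W) (snd Y W ≫ g)) (Q y)) (by simp) ?_ ?_ y
  · intro a y
    rw [key, hQ, hQ, key, hP]
  · intro y y' h1 h2
    simp only [map_add, h1, h2]

theorem pj_swap {W Y : V} {P : T.H W →ₗ[K] T.H W} {f : T.H Y →ₗ[K] T.H Y}
    (hfd : ∀ i, ∀ y ∈ T.deg Y i, f y ∈ T.deg Y i)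
    (Q : T.H (Y ⊗ (Y ⊗ W)) →ₗ[K] T.H (Y ⊗ (Y ⊗ W)))
    (hQ : ∀ a b y, Q (T.pull (fst Y (Y ⊗ W)) a * T.pull (snd Y (Y ⊗ W))
        (T.pull (fst Y W) b * T.pull (snd Y W) y)) =
      T.pull (fst Y (Y ⊗ W)) (f a) * T.pull (snd Y (Y ⊗ W))
        (T.pull (fst Y W) (f b) * T.pull (snd Y W) (P y))) (y : T.H (Y ⊗ (Y ⊗ W))) :
    Q (T.pull (lift (snd Y (Y ⊗ W) ≫ fst Y W)
        (lift (fst Y (Y ⊗ W)) (snd Y (Y ⊗ W) ≫ snd Y W))) y) =
      T.pull (lift (snd Y (Y ⊗ W) ≫ fst Y W)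
        (lift (fst Y (Y ⊗ W)) (snd Y (Y ⊗ W) ≫ snd Y W))) (Q y) := by
  set g := lift (snd Y (Y ⊗ W) ≫ fst Y W)
        (lift (fst Y (Y ⊗ W)) (snd Y (Y ⊗ W) ≫ snd Y W)) with hg
  have key : ∀ {i j : ℕ} {a b : T.H Y} (y : T.H W), a ∈ T.deg Y i → b ∈ T.deg Y j →
      T.pull g (T.pull (fst Y (Y ⊗ W)) a * T.pull (snd Y (Y ⊗ W))
        (T.pull (fst Y W) b * T.pull (snd Y W) y)) =
      (-1 : K) ^ (i * j) • (T.pull (fst Y (Y ⊗ W)) b * T.pull (snd Y (Y ⊗ W))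
        (T.pull (fst Y W) a * T.pull (snd Y W) y)) := by
    intro i j a b y ha hb
    have h1 := T.comm (T.pull_deg (snd Y (Y ⊗ W) ≫ fst Y W) ha) (T.pull_deg (fst Y (Y ⊗ W)) hb)
    rw [T.neg_pow_smul] at h1
    simp only [hg, map_mul, T.pull_comp', lift_fst, lift_snd, lift_snd_assoc]
    rw [← mul_assoc, h1, smul_mul_assoc, mul_assoc]
  refine T.kind' (P := fun y => Q (T.pull g y) = T.pull g (Q y)) (by simp) ?_ ?_ y
  · intro i _ a u ha _
    refine T.kind' (P := fun u => Q (T.pull g (T.pull (fst Y (Y ⊗ W)) a *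
      T.pull (snd Y (Y ⊗ W)) u)) = T.pull g (Q (T.pull (fst Y (Y ⊗ W)) a *
      T.pull (snd Y (Y ⊗ W)) u))) (by simp) ?_ ?_ u
    · intro j _ b y hb _
      rw [key y ha hb, map_smul, hQ, hQ, key (P y) (hfd _ _ ha) (hfd _ _ hb)]
    · intro u u' h1 h2
      simp only [map_add, mul_add, h1, h2]
  · intro y y' h1 h2
    simp only [map_add, h1, h2]

theorem Pi_cross2 {S : Gen T c} (E : Idem S) (n : ℕ) (a b : T.H S.Y) (y : T.H (pow S.Y n)) :
    Pi E (n + 2) (T.pull (fst S.Y (S.Y ⊗ pow S.Y n)) a * T.pull (snd S.Y (S.Y ⊗ pow S.Y n))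
        (T.pull (fst S.Y (pow S.Y n)) b * T.pull (snd S.Y (pow S.Y n)) y)) =
      T.pull (fst S.Y (S.Y ⊗ pow S.Y n)) (T.act E.e a) * T.pull (snd S.Y (S.Y ⊗ pow S.Y n))
        (T.pull (fst S.Y (pow S.Y n)) (T.act E.e b) *
          T.pull (snd S.Y (pow S.Y n)) (Pi E n y)) := by
  refine (Pi_cross E (n + 1) a _).trans ?_
  exact congrArg (fun z => T.pull (fst S.Y (S.Y ⊗ pow S.Y n)) (T.act E.e a) *
    T.pull (snd S.Y (S.Y ⊗ pow S.Y n)) z) (Pi_cross E n b y)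

theorem Pi_perm {S : Gen T c} (E : Idem S) (n : ℕ) (σ : Equiv.Perm (Fin n))
    (y : T.H (pow S.Y n)) : Pi E n (T.pull (perm S.Y σ) y) = T.pull (perm S.Y σ) (Pi E n y) := by
  refine perm_induction (P := fun n σ => ∀ y : T.H (pow S.Y n),
    Pi E n (T.pull (perm S.Y σ) y) = T.pull (perm S.Y σ) (Pi E n y)) ?_ ?_ ?_ ?_ n σ y
  · intro n y
    rw [perm_one, T.pull_id, T.pull_id]
  · intro n σ τ h1 h2 y
    rw [pull_perm_mul, pull_perm_mul, h1, h2]
  · intro n σ h y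
    rw [perm_up]
    exact pj_up (Y := S.Y) (W := pow S.Y n) (P := Pi E n) (f := T.act E.e) (perm S.Y σ) h
      (Pi E (n + 1)) (Pi_cross E n) y
  · intro n y
    rw [perm_swap]
    exact pj_swap (Y := S.Y) (W := pow S.Y n) (P := Pi E n) (f := T.act E.e)
      (fun i y hy => e_deg E hy) (Pi E (n + 2)) (Pi_cross2 E n) y

/-- `(e × e) e = e` -/
theorem act_bx_e {S : Gen T c} (E : Idem S) : T.act (bx T E.e E.e) E.e = E.e := by
  have h1 : ∀ (z : T.H (S.Y ⊗ S.Y)) (a : T.H S.Y), T.act (T.act (bx T E.e E.e) z) a =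
      T.act E.e (T.act z (T.act E.e a)) := by
    intro z a
    refine T.kind (P := fun z => T.act (T.act (bx T E.e E.e) z) a =
      T.act E.e (T.act z (T.act E.e a))) (by simp [T.act_zero]) ?_ ?_ z
    · intro p q
      rw [pj_cross, T.act_pure, T.act_pure, map_smul, e_adj]
    · intro z z' h1 h2
      rw [map_add, T.act_add, T.act_add, LinearMap.add_apply, LinearMap.add_apply, h1, h2,
        map_add]
  apply T.act_injective
  apply LinearMap.ext
  intro a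
  rw [h1, E.idem, E.idem]

theorem Pi_ebox {S : Gen T c} (E : Idem S) (n : ℕ) (y : T.H (pow S.Y n)) :
    Pi E (n + 2) (ebox E (pow S.Y n) y) = ebox E (pow S.Y n) (Pi E n y) := by
  set l : S.Y ⊗ (S.Y ⊗ pow S.Y n) ⟶ S.Y ⊗ S.Y := lift (fst S.Y (S.Y ⊗ pow S.Y n))
    (snd S.Y (S.Y ⊗ pow S.Y n) ≫ fst S.Y (pow S.Y n)) with hl
  set r : S.Y ⊗ (S.Y ⊗ pow S.Y n) ⟶ pow S.Y n :=
    snd S.Y (S.Y ⊗ pow S.Y n) ≫ snd S.Y (pow S.Y n) with hr
  have key : ∀ (a b : T.H S.Y) (y : T.H (pow S.Y n)), T.pull l (T.pull (fst S.Y S.Y) a *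
      T.pull (snd S.Y S.Y) b) * T.pull r y = T.pull (fst S.Y (S.Y ⊗ pow S.Y n)) a *
        T.pull (snd S.Y (S.Y ⊗ pow S.Y n)) (T.pull (fst S.Y (pow S.Y n)) b *
          T.pull (snd S.Y (pow S.Y n)) y) := by
    intro a b y
    simp only [hl, hr, map_mul, T.pull_comp', lift_fst, lift_snd, mul_assoc]
  have h1 : ∀ z : T.H (S.Y ⊗ S.Y), Pi E (n + 2) (T.pull l z * T.pull r y) =
      T.pull l (T.act (bx T E.e E.e) z) * T.pull r (Pi E n y) := by
    intro z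
    refine T.kind (P := fun z => Pi E (n + 2) (T.pull l z * T.pull r y) =
      T.pull l (T.act (bx T E.e E.e) z) * T.pull r (Pi E n y)) ?_ ?_ ?_ z
    · rw [map_zero, map_zero, map_zero, zero_mul, zero_mul]
      exact map_zero _
    · intro a b
      rw [key, pj_cross, key]
      exact Pi_cross2 E n a b y
    · intro z z' h1 h2
      rw [map_add, map_add, map_add, add_mul, add_mul, ← h1, ← h2]
      exact map_add _ _ _
  have h2 := h1 E.e
  rw [act_bx_e] at h2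
  exact h2

theorem pj_act {W Y : V} {P : T.H W →ₗ[K] T.H W} {f : T.H Y →ₗ[K] T.H Y}
    (hf : ∀ y z, T.tr Y (f y * z) = T.tr Y (y * f z))
    (Q : T.H (Y ⊗ W) →ₗ[K] T.H (Y ⊗ W))
    (hQ : ∀ a y, Q (T.pull (fst Y W) a * T.pull (snd Y W) y) =
      T.pull (fst Y W) (f a) * T.pull (snd Y W) (P y)) (z : T.H (Y ⊗ W)) (a : T.H Y) :
    T.act (Q z) a = P (T.act z (f a)) := by
  refine T.kind (P := fun z => T.act (Q z) a = P (T.act z (f a))) (by simp [T.act_zero]) ?_ ?_ z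
  · intro p q
    rw [hQ, T.act_pure, T.act_pure, map_smul, hf]
  · intro z z' h1 h2
    rw [map_add, T.act_add, T.act_add, LinearMap.add_apply, LinearMap.add_apply, h1, h2, map_add]

/-- slot `0` -/
theorem act_of_Pi {S : Gen T c} (E : Idem S) {n : ℕ} {y : T.H (pow S.Y (n + 1))}
    (hy : Pi E (n + 1) y = y) (a : T.H S.Y) :
    T.act (X := S.Y) (Y := pow S.Y n) y (T.act E.e a) = T.act (X := S.Y) (Y := pow S.Y n) y a := by
  have h2 : ∀ a : T.H S.Y, T.act (X := S.Y) (Y := pow S.Y n) y a =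
      Pi E n (T.act (X := S.Y) (Y := pow S.Y n) y (T.act E.e a)) := by
    intro a
    rw [← pj_act (Y := S.Y) (W := pow S.Y n) (P := Pi E n) (f := T.act E.e) (e_adj E)
      (Pi E (n + 1)) (Pi_cross E n) y a]
    exact congrArg (fun z => T.act (X := S.Y) (Y := pow S.Y n) z a) hy.symm
  rw [h2 (T.act E.e a), E.idem, ← h2]

end Pool.NP
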