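import Pool.Agent.Work.MP_a60482_np.Ctr
import Pool.Agent.Work.MP_a60482_np.Proj

/-!
Block CTR, end: the contraction of a symmetric class is symmetric.
-/

open CategoryTheory MonoidalCategory CartesianMonoidalCategory

universe u v w x b

namespace Pool.NP

open Pool.KC Pool.Std

variable {V : Type u} [Category.{v} V] [CartesianMonoidalCategory V] {K : Type x} [Field K]
variable {T : WeilTheory.{u, v, w, x} V K} {X : V} {c : T.H X}

theorem ctrRel {S : Gen T c} (E : Idem S) : CtrRel E := by
  intro n γ hγ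
  obtain ⟨k, hk, hC⟩ := hγ.mem
  refine ⟨⟨k - T.dim S.Y, ?_, ?_⟩, ?_, ?_⟩
  · rw [add_mul] at hk
    omega
  · refine ctr_mem E (pow S.Y n) (k := k) ?_ hC
    rw [add_mul] at hk
    omega
  · intro σ
    have h1 := ctr_perm E (W := pow S.Y n) (W' := pow S.Y n) (perm S.Y σ) γ
    rw [← h1]
    have h2 := hγ.symm (up (up σ))
    rw [perm_up] at h2
    rw [← perm_up]
    exact congrArg (ctr E (pow S.Y n)) h2
  · have h1 := ctr_map E (W := pow S.Y n) (Pi E n) (Pi E (n + 2)) (Pi_cross2 E n) γ
    rw [← h1]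
    exact congrArg (ctr E (pow S.Y n)) hγ.proj

end Pool.NP
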