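import Pool.Agent.Work.MP_a60482_np.NumBase

/-!
Block END: from the strings of length at least two to all strings, if the numerically trivial
correspondences are nilpotent.
-/

open CategoryTheory MonoidalCategory CartesianMonoidalCategory

universe u v w x b

namespace Pool.Std

open Pool.KC Pool.SL

/-! ### Linear algebra -/

section Lin

open Polynomial

variable {K : Type*} [Field K] {H : Type*} [AddCommGroup H] [Module K H] [FiniteDimensional K H]

/-- a polynomial without constant term in a non-nilpotent endomorphism is a nonzero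
idempotent -/
theorem exists_idem {f : Module.End K H} (hf : ¬ IsNilpotent f) :
    ∃ p : K[X], IsIdempotentElem (aeval f (X * p)) ∧ aeval f (X * p) ≠ 0 := by
  have hP : minpoly K f ≠ 0 := minpoly.ne_zero (Algebra.IsIntegral.isIntegral f)
  obtain ⟨Q, hPQ, hQ⟩ := exists_eq_pow_rootMultiplicity_mul_and_not_dvd (minpoly K f) hP 0
  rw [map_zero, sub_zero] at hPQ hQ
  set k := rootMultiplicity 0 (minpoly K f) with hk
  have hcop : IsCoprime (X ^ (k + 1)) Q := by
    apply IsCoprime.pow_left
    exact (irreducible_X.coprime_iff_not_dvd).mpr hQ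
  obtain ⟨u, v, huv⟩ := hcop
  have hzero : aeval f (X ^ k * Q) = 0 := by rw [← hPQ, minpoly.aeval]
  have hX : X * (u * X ^ k) = u * X ^ (k + 1) := by ring
  refine ⟨u * X ^ k, ?_, ?_⟩
  · unfold IsIdempotentElem
    rw [hX, ← map_mul]
    have h1 : u * X ^ (k + 1) * (u * X ^ (k + 1)) = u * X ^ (k + 1) -
        u * v * X * (X ^ k * Q) := by
      have h2 : u * X ^ (k + 1) = 1 - v * Q := by rw [← huv]; ring
      calc u * X ^ (k + 1) * (u * X ^ (k + 1)) = u * X ^ (k + 1) * (1 - v * Q) := by rw [← h2]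
        _ = _ := by ring
    rw [h1, map_sub, map_mul _ (u * v * X), hzero, mul_zero, sub_zero]
  · rw [hX]
    intro h0
    apply hf
    refine ⟨k, ?_⟩
    have h2 : aeval f (X ^ k : K[X]) = aeval f (X ^ k * (u * X ^ (k + 1)) : K[X]) +
        aeval f (v * (X ^ k * Q) : K[X]) := by
      rw [← map_add]
      congr 1
      calc (X : K[X]) ^ k = X ^ k * (u * X ^ (k + 1) + v * Q) := by rw [huv, mul_one]
        _ = _ := by ring
    rw [map_mul, h0, mul_zero, zero_add, map_mul, hzero, mul_zero, map_pow, aeval_X] at h2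
    exact h2

/-- In a subspace of endomorphisms closed under products there is an idempotent `u` such that
the elements `w` with `u w = w u = 0` are nilpotent. -/
theorem exists_max_idem (E : Submodule K (Module.End K H)) (hE : ∀ f ∈ E, ∀ g ∈ E, f * g ∈ E) :
    ∃ u ∈ E, IsIdempotentElem u ∧ ∀ w ∈ E, u * w = 0 → w * u = 0 → IsNilpotent w := by
  classical
  have hpow : ∀ f ∈ E, ∀ p : K[X], aeval f (X * p) ∈ E := by
    intro f hf p
    induction p using Polynomial.induction_on' with
    | add p q hp hq => rw [mul_add, map_add]; exact add_mem hp hq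
    | monomial n c =>
      rw [X_mul_monomial, aeval_monomial, ← Algebra.smul_def]
      apply Submodule.smul_mem
      induction n with
      | zero => simpa using hf
      | succ n ih => rw [pow_succ]; exact hE _ ih _ hf
  -- an idempotent of maximal rank
  have hex : ∃ u ∈ E, IsIdempotentElem u ∧ ∀ u' ∈ E, IsIdempotentElem u' →
      Module.finrank K (LinearMap.range u') ≤ Module.finrank K (LinearMap.range u) := by
    have hb : ∃ m : ℕ, ∀ u ∈ E, IsIdempotentElem u →
        Module.finrank K (LinearMap.range u) ≤ m :=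
      ⟨Module.finrank K H, fun u _ _ => Submodule.finrank_le _⟩
    obtain ⟨u, ⟨hu, hi⟩, hm⟩ : ∃ u : Module.End K H, (u ∈ E ∧ IsIdempotentElem u) ∧
        ∀ u' : Module.End K H, u' ∈ E ∧ IsIdempotentElem u' →
          Module.finrank K (LinearMap.range u') ≤ Module.finrank K (LinearMap.range u) := by
      obtain ⟨m, hm⟩ := hb
      have h1 : ∃ k, ∃ u : Module.End K H, (u ∈ E ∧ IsIdempotentElem u) ∧
          m - Module.finrank K (LinearMap.range u) = k :=
        ⟨_, 0, ⟨zero_mem _, IsIdempotentElem.zero⟩, rfl⟩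
      obtain ⟨u, hu, huk⟩ := Nat.find_spec h1
      refine ⟨u, hu, fun u' hu' => ?_⟩
      have h2 := Nat.find_min' h1 ⟨u', hu', rfl⟩
      have h3 := hm u' hu'.1 hu'.2
      have h4 := hm u hu.1 hu.2
      omega
    exact ⟨u, hu, hi, fun u' h1 h2 => hm u' ⟨h1, h2⟩⟩
  obtain ⟨u, hu, hi, hm⟩ := hex
  refine ⟨u, hu, hi, ?_⟩
  intro w hw huw hwu
  by_contra hnil
  obtain ⟨p, hp, hp0⟩ := exists_idem hnil
  set t := aeval w (X * p) with ht
  have htE := hpow w hw p
  have h1 : u * t = 0 := by
    rw [ht, map_mul, aeval_X, ← mul_assoc, huw, zero_mul]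
  have h2 : t * u = 0 := by
    rw [ht, mul_comm, map_mul, aeval_X, mul_assoc, hwu, mul_zero]
  have h3 : IsIdempotentElem (u + t) := by
    unfold IsIdempotentElem at *
    rw [mul_add, add_mul, add_mul, hi, h1, h2, hp, add_zero, zero_add]
  have h4 := hm (u + t) (add_mem hu htE) h3
  -- the range of `u` is a proper subspace of the range of `u + t`
  have h5 : LinearMap.range u < LinearMap.range (u + t) := by
    rw [lt_iff_le_and_ne]
    constructor
    · rintro _ ⟨a, rfl⟩
      refine ⟨u a, ?_⟩
      rw [LinearMap.add_apply, ← Module.End.mul_apply, ← Module.End.mul_apply, hi.eq, h2,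
        LinearMap.zero_apply, add_zero]
    · intro he
      apply hp0
      apply LinearMap.ext
      intro a
      have h6 : t a ∈ LinearMap.range (u + t) := by
        refine ⟨t a, ?_⟩
        rw [LinearMap.add_apply, ← Module.End.mul_apply, ← Module.End.mul_apply, hp.eq, h1,
          LinearMap.zero_apply, zero_add]
      rw [← he] at h6
      obtain ⟨b, hb⟩ := h6
      have h7 : t (t a) = t a := by rw [← Module.End.mul_apply, hp.eq]
      rw [← h7, ← hb, ← Module.End.mul_apply, h2]
      rfl
  exact absurd (Submodule.finrank_lt_finrank_of_lt h5) (by omega)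

end Lin

variable {V : Type u} [Category.{v} V] [CartesianMonoidalCategory V] {K : Type x} [Field K]
variable {T : WeilTheory.{u, v, w, x} V K}

theorem nc1 {A : Type*} [Ring A] (e u g C : A) : (e - u) * (g * (C * (e - u))) =
    e * g * (C * e) - e * g * (C * u) - u * g * (C * e) + u * g * (C * u) := by
  noncomm_ring

theorem nc2 {A : Type*} [Ring A] (u w : A) : u * (w - w * u - u * w + u * w * u) =
    u * w - u * w * u - (u * u) * w + (u * u) * w * u := by
  noncomm_ring

theorem nc3 {A : Type*} [Ring A] (u w : A) : (w - w * u - u * w + u * w * u) * u =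
    w * u - w * (u * u) - u * w * u + u * w * (u * u) := by
  noncomm_ring

theorem cross_self_ne {X : V} {a : T.H X} (ha : a ≠ 0) :
    T.pull (fst X X) a * T.pull (snd X X) a ≠ 0 := by
  intro h
  apply ha
  by_contra h0
  obtain ⟨b, hb⟩ : ∃ b : T.H X, T.tr X (b * a) ≠ 0 := by
    by_contra hcon
    push Not at hcon
    exact h0 (T.nondeg hcon)
  have h1 := T.act_pure (X := X) (Y := X) a a b
  rw [h, T.act_zero, LinearMap.zero_apply] at h1
  exact (smul_ne_zero hb h0) h1.symm

variable [CharZero K] {R : Cyc T} {G : Pl.{u, v, w, x, b} R}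

omit [CharZero K] in
/-- **Block END.** -/
theorem lefB_of_high_nil
    (hK : ∀ (X : V) (i : ℕ) (s : K), ∀ a ∈ R.A X i, s • a ∈ R.A X i)
    (hnil : ∀ (Z : V), ∀ z ∈ R.A (Z ⊗ Z) (T.dim Z),
      (∀ y ∈ R.A (Z ⊗ Z) (T.dim Z), T.tr (Z ⊗ Z) (z * y) = 0) →
      IsNilpotent (T.act z : Module.End K (T.H Z)))
    {X : V} {M : G.Bund X} (hX : 1 ≤ T.dim X) (hl : HighLam M)
    (hinv : ∃ g ∈ R.A ((X ⊗ X) ⊗ (X ⊗ X)) (2 * T.dim X - 1),
      ∀ a ∈ T.deg (X ⊗ X) (2 * T.dim X - 2), T.act g (G.c (G.box M M) * a) = a) :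
    G.LefB M := by
  obtain ⟨l, hlop, hl⟩ := hl
  set n := T.dim X with hn
  have hm := Cyc.Op_mul (R := R) (G.c_mem M)
  have hid := Cyc.Op_id (R := R) X
  rw [← hn] at hm hid
  set C : Module.End K (T.H X) := LinearMap.mulLeft K (G.c M) with hC
  have hCa : ∀ a, C a = G.c M * a := fun _ => rfl
  set e : Module.End K (T.H X) := (1 - C * l) * (1 - l * C) with he
  have heop : e ∈ R.Op X X n := by
    have e1 : l * C ∈ R.Op X X n := Cyc.Op_comp hm hlop (by omega)
    have e2 : C * l ∈ R.Op X X n := Cyc.Op_comp hlop hm (by omega)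
    exact Cyc.Op_comp (sub_mem hid e1) (sub_mem hid e2) (by omega)
  have hea : ∀ a, e a = (a - l (G.c M * a)) - G.c M * l (a - l (G.c M * a)) := fun _ => rfl
  clear_value e
  -- values of `e`
  have hpow : ∀ (j : ℕ) (p : T.H X), G.c M * (G.c M ^ j * p) = G.c M ^ (j + 1) * p := by
    intro j p
    rw [← mul_assoc, ← pow_succ']
  have hhigh : ∀ (d : ℕ) (p : T.H X), G.Prim M d p → d + 2 ≤ n → ∀ j,
      e (G.c M ^ j * p) = 0 := by
    intro d p hp hd j
    rcases Nat.lt_or_ge n (d + j) with h4 | h4
    · rw [hp.pow_eq_zero h4, map_zero]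
    rw [hea, hpow]
    rcases Nat.lt_or_ge (d + j) n with h5 | h5
    · rw [((hl d p hp).2 j (by omega)).1 hd, sub_self, map_zero, mul_zero, sub_zero]
    · rw [hp.pow_eq_zero (show T.dim X < d + (j + 1) by omega), map_zero, sub_zero]
      obtain ⟨j, rfl⟩ : ∃ j', j = j' + 1 := ⟨j - 1, by omega⟩
      rw [((hl d p hp).2 j (by omega)).1 hd, hpow, sub_self]
  have hlow : ∀ (d : ℕ) (p : T.H X), G.Prim M d p → n < d + 2 → ∀ j,
      e (G.c M ^ j * p) = G.c M ^ j * p := by
    intro d p hp hd j
    have h0 : ∀ j, l (G.c M ^ j * p) = 0 := by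
      intro j
      rcases j with _ | j
      · rw [pow_zero, one_mul, (hl d p hp).1]
      · rcases Nat.lt_or_ge n (d + (j + 1)) with h4 | h4
        · rw [hp.pow_eq_zero h4, map_zero]
        · exact ((hl d p hp).2 j h4).2 hd
    rw [hea, hpow, h0, sub_zero, h0, mul_zero, sub_zero]
  -- `e² = e`
  have hee : e * e = e := by
    apply LinearMap.ext
    intro a
    refine Pl.prim_ind M (P := fun a => (e * e) a = e a) (by simp) ?_ ?_ a
    · intro d p hp j hj
      rw [Module.End.mul_apply]
      rcases Nat.lt_or_ge n (d + 2) with h4 | h4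
      · rw [hlow d p hp h4, hlow d p hp h4]
      · rw [hhigh d p hp h4, map_zero]
    · intro a b h1 h2
      rw [map_add, map_add, h1, h2]
  have hCe : C * e = e * C := by
    apply LinearMap.ext
    intro a
    refine Pl.prim_ind M (P := fun a => (C * e) a = (e * C) a) (by simp) ?_ ?_ a
    · intro d p hp j hj
      rw [Module.End.mul_apply, Module.End.mul_apply, hCa, hCa, hpow]
      rcases Nat.lt_or_ge n (d + 2) with h4 | h4
      · rw [hlow d p hp h4, hlow d p hp h4, hpow]
      · rw [hhigh d p hp h4, hhigh d p hp h4, mul_zero]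
    · intro a b h1 h2
      rw [map_add, map_add, h1, h2]
  have hCCe : C * (C * e) = 0 := by
    apply LinearMap.ext
    intro a
    refine Pl.prim_ind M (P := fun a => (C * (C * e)) a = (0 : Module.End K (T.H X)) a)
      (by simp) ?_ ?_ a
    · intro d p hp j hj
      rw [Module.End.mul_apply, Module.End.mul_apply, hCa, hCa]
      rcases Nat.lt_or_ge n (d + 2) with h4 | h4
      · rw [hlow d p hp h4, hpow, hpow, hp.pow_eq_zero (show T.dim X < d + (j + 1 + 1) by omega)]
        rfl
      · rw [hhigh d p hp h4, mul_zero, mul_zero]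
        rfl
    · intro a b h1 h2
      rw [map_add, map_add, h1, h2]
  set Pr : Module.End K (T.H X) := T.proj X (n - 1) with hPr
  have hCePr : C * e * Pr = C * e := by
    apply LinearMap.ext
    intro a
    refine Pl.prim_ind M (P := fun a => (C * e * Pr) a = (C * e) a) (by simp) ?_ ?_ a
    · intro d p hp j hj
      have hdeg : G.c M ^ j * p ∈ T.deg X (2 * j + d) := T.mul_deg (G.c_pow_deg M j) hp.2.1
      rw [Module.End.mul_apply]
      by_cases h1 : 2 * j + d = n - 1
      · rw [hPr, T.proj_same (T.deg_of_eq hdeg h1)]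
      · rw [hPr, T.proj_ne hdeg h1, map_zero, Module.End.mul_apply, hCa]
        rcases Nat.lt_or_ge n (d + 2) with h4 | h4
        · rw [hlow d p hp h4, hpow, hp.pow_eq_zero]
          have := hp.1
          omega
        · rw [hhigh d p hp h4, mul_zero]
    · intro a b h1 h2
      rw [map_add, map_add, h1, h2]
  have he_small : ∀ i, i + 2 ≤ n → ∀ a ∈ T.deg X i, e a = 0 := by
    intro i hi a ha
    have h1 : e a ∈ T.deg X i := Cyc.Op_deg heop (by omega) ha
    have h2 : G.c M * (G.c M * e a) = 0 := by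
      have := LinearMap.congr_fun hCCe a
      rwa [LinearMap.zero_apply, Module.End.mul_apply, Module.End.mul_apply, hCa, hCa] at this
    apply G.hard_inj M (i := i) (k := n - i) (by omega) _ h1
    rw [show n - i = (n - i - 2) + 1 + 1 by omega, pow_succ, pow_succ, mul_assoc, mul_assoc, h2,
      mul_zero]
  -- the algebra of the operators `e g c e`
  let E : Submodule K (Module.End K (T.H X)) :=
    { carrier := {f | ∃ g ∈ R.Op X X (n - 1), e * g * (C * e) = f}
      add_mem' := by
        rintro _ _ ⟨g, hg, rfl⟩ ⟨g', hg', rfl⟩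
        exact ⟨g + g', add_mem hg hg', by rw [mul_add, add_mul]⟩
      zero_mem' := ⟨0, zero_mem _, by simp⟩
      smul_mem' := by
        rintro s _ ⟨_, ⟨z, hz, rfl⟩, rfl⟩
        exact ⟨_, ⟨_, hK _ _ s z hz, T.act_smul _ _⟩, by
          rw [mul_smul_comm, smul_mul_assoc]⟩ }
  have hEmul : ∀ f ∈ E, ∀ g ∈ E, f * g ∈ E := by
    rintro _ ⟨g, hg, rfl⟩ _ ⟨g', hg', rfl⟩
    refine ⟨g * (C * e) * g', ?_, ?_⟩
    · have e1 : C * e ∈ R.Op X X (n + 1) := Cyc.Op_comp heop hm (by omega)
      have e2 : C * e * g' ∈ R.Op X X n := Cyc.Op_comp hg' e1 (by omega)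
      have e3 : g * (C * e * g') ∈ R.Op X X (n - 1) := Cyc.Op_comp e2 hg (by omega)
      rwa [← mul_assoc] at e3
    · have h1 : C * e * e = C * e := by rw [mul_assoc, hee]
      calc e * (g * (C * e) * g') * (C * e) = e * g * (C * e) * (g' * (C * e)) := by
            simp only [mul_assoc]
        _ = e * g * (C * e * e) * (g' * (C * e)) := by rw [h1]
        _ = _ := by simp only [mul_assoc]
  obtain ⟨u, ⟨g0, hg0, hu⟩, huu, hmax⟩ := exists_max_idem E hEmul
  have huE : u ∈ E := ⟨g0, hg0, hu⟩
  have heu : e * u = u := by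
    rw [← hu, mul_assoc e g0, ← mul_assoc e e, hee]
  have hue : u * e = u := by
    rw [← hu]
    simp only [mul_assoc]
    rw [hee]
  have huop : u ∈ R.Op X X n := by
    rw [← hu]
    have e1 : C * e ∈ R.Op X X (n + 1) := Cyc.Op_comp heop hm (by omega)
    have e2 : g0 * (C * e) ∈ R.Op X X n := Cyc.Op_comp e1 hg0 (by omega)
    have e3 : e * (g0 * (C * e)) ∈ R.Op X X n := Cyc.Op_comp e2 heop (by omega)
    rwa [← mul_assoc] at e3
  have huPr : u * Pr = u := by
    rw [← hu, mul_assoc, hCePr]
  have hs1 : (e - u) * (e - u) = e - u := by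
    rw [sub_mul, mul_sub, mul_sub, hee, heu, hue, huu.eq, sub_self, sub_zero]
  -- `c (e - u)` is numerically trivial
  have hNop : C * (e - u) ∈ R.Op X X (n + 1) := Cyc.Op_comp (sub_mem heop huop) hm (by omega)
  have hNstr : ∀ g ∈ R.Op X X (n - 1), T.strX X (g * (C * (e - u))) = 0 := by
    intro g hg
    set w := e * g * (C * e) with hw
    have hwE : w ∈ E := ⟨g, hg, rfl⟩
    have h1 : (e - u) * (g * (C * (e - u))) = w - w * u - u * w + u * w * u := by
      have e1 : w * u = e * g * (C * u) := by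
        rw [hw, mul_assoc (e * g), mul_assoc C, heu]
      have e2 : u * w = u * g * (C * e) := by
        rw [hw, ← mul_assoc, ← mul_assoc u e, hue]
      rw [e2, e1]
      have e3 : u * g * (C * e) * u = u * g * (C * u) := by
        rw [mul_assoc (u * g), mul_assoc C, heu]
      rw [e3, hw]
      exact nc1 e u g C
    have hw' : w - w * u - u * w + u * w * u ∈ E :=
      add_mem (sub_mem (sub_mem hwE (hEmul _ hwE _ huE)) (hEmul _ huE _ hwE))
        (hEmul _ (hEmul _ huE _ hwE) _ huE)
    have hn1 : IsNilpotent ((e - u) * (g * (C * (e - u)))) := by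
      rw [h1]
      apply hmax _ hw'
      · rw [nc2, huu.eq]
        abel
      · rw [nc3, huu.eq]
        abel
    have htr : LinearMap.trace K (T.H X) (g * (C * (e - u))) = 0 := by
      rw [← hs1, ← mul_assoc C, ← mul_assoc g, LinearMap.trace_mul_comm]
      exact (LinearMap.isNilpotent_trace_of_isNilpotent hn1).eq_zero
    have hPr2 : C * (e - u) * Pr = C * (e - u) := by
      rw [mul_sub, sub_mul, hCePr, mul_assoc C u, huPr]
    unfold WeilTheory.strX
    rw [str_apply]
    apply Finset.sum_eq_zero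
    intro i _
    by_cases hi : i = n - 1
    · rw [hi, ← hPr, mul_assoc, hPr2, htr, mul_zero]
    · rw [← hPr2, mul_assoc, mul_assoc, (T.projs X).orth (n - 1) i (Ne.symm hi), mul_zero,
        mul_zero, map_zero, mul_zero]
  obtain ⟨z, hz, hza⟩ := hNop
  have hznum : R.Num z := by
    apply Cyc.Num.of_deg (R.deg hz)
    intro j hj y hy
    rw [T.tr_mul_eq_str, hza]
    refine hNstr _ (Cyc.act_mem_Op (R.pull _ (R.of_eq hy ?_)))
    rw [T.dim_prod] at hj
    omega
  -- `u` is the identity on the primitive classes of degree `n - 1`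
  have hu1 : ∀ y, G.Prim M (n - 1) y → u y = y := by
    intro y hy
    by_contra hne
    set x := y - u y with hx
    have hx0 : x ≠ 0 := fun h => hne (sub_eq_zero.mp h).symm
    have hxd : x ∈ T.deg X (n - 1) := sub_mem hy.2.1 (Cyc.Op_deg huop (by omega) hy.2.1)
    have hux : u x = 0 := by
      rw [hx, map_sub, ← Module.End.mul_apply, huu.eq, sub_self]
    have hex : e x = x := by
      have h1 := hlow (n - 1) y hy (by omega) 0
      rw [pow_zero, one_mul] at h1
      rw [hx, map_sub, h1, ← Module.End.mul_apply, heu]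
    have hzx : T.act z x = G.c M * x := by
      rw [hza, Module.End.mul_apply, LinearMap.sub_apply, hex, hux, sub_zero, hCa]
    obtain ⟨g, hg, hg1⟩ := hinv
    have hdd : T.diag X ∈ R.A (X ⊗ X) n := R.diag X
    have hL := (Cyc.NumOp.box hz hznum hdd).add (by
      have := Cyc.NumOp.box' hdd hz hznum
      rwa [Nat.add_comm] at this)
    have hdim : T.dim (X ⊗ X) = 2 * n := by rw [T.dim_prod]; omega
    have hf := hL.left (s := 2 * n - 1) (t := T.dim (X ⊗ X)) (Cyc.act_mem_Op hg) (by omega)
    set 𝓛 : Module.End K (T.H (X ⊗ X)) := T.act (bx T z (T.diag X)) + T.act (bx T (T.diag X) z)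
      with h𝓛
    set xx : T.H (X ⊗ X) := T.pull (fst X X) x * T.pull (snd X X) x with hxx
    have hxxd : xx ∈ T.deg (X ⊗ X) (2 * n - 2) :=
      T.deg_of_eq (T.mul_deg (T.fst_deg hxd) (T.snd_deg hxd)) (by omega)
    have h𝓛x : 𝓛 xx = G.c (G.box M M) * xx := by
      rw [h𝓛, LinearMap.add_apply, hxx, act_bx (R.deg hz) _ hxd hxd,
        act_bx (R.deg hdd) _ hxd hxd, Pl.box_mul', hzx, T.act_diag]
      rfl
    have hfx : (T.act g * 𝓛) xx = xx := by
      rw [Module.End.mul_apply, h𝓛x, hg1 _ hxxd]
    obtain ⟨t, ht, htn, hta⟩ := hf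
    obtain ⟨k, hk⟩ := hnil _ t ht (fun y hy => htn _ y hy)
    rw [hta] at hk
    have h5 : ∀ k : ℕ, ((T.act g * 𝓛) ^ k) xx = xx := by
      intro k
      induction k with
      | zero => rfl
      | succ k ih => rw [pow_succ, Module.End.mul_apply, hfx, ih]
    have h6 := h5 k
    rw [hk, LinearMap.zero_apply] at h6
    exact cross_self_ne hx0 h6.symm
  -- the operator `Λ`
  have hop : l + e * (g0 * e) ∈ R.Op X X (n - 1) := by
    have e1 : g0 * e ∈ R.Op X X (n - 1) := Cyc.Op_comp heop hg0 (by omega)
    exact add_mem hlop (Cyc.Op_comp e1 heop (by omega))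
  obtain ⟨y, hy, hya⟩ := hop
  have hval : ∀ a, T.act y a = l a + e (g0 (e a)) := fun a => by rw [hya]; rfl
  refine ⟨y, hy, ?_⟩
  intro d p hp
  rcases Nat.lt_or_ge n (d + 2) with h4 | h4
  · constructor
    · have e1 := hlow d p hp h4 0
      rw [pow_zero, one_mul] at e1
      rw [hval, e1, (hl d p hp).1, zero_add]
      have hpd := hp.2.1
      have hpn := hp.1
      rcases Nat.lt_or_ge d 2 with h5 | h5
      · rw [Cyc.Op_eq_zero hg0 (by omega) hpd, map_zero]
      · exact he_small (d - 2) (by omega) _ (Cyc.Op_deg hg0 (by omega) hpd)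
    · intro j hj
      have hj0 : j = 0 := by omega
      subst hj0
      have hd : d = n - 1 := by omega
      subst hd
      rw [hval, hlow _ p hp h4, ((hl _ p hp).2 0 hj).2 h4, zero_add, pow_zero, one_mul,
        zero_add, pow_one]
      have h5 := hu1 p hp
      have e1 := hlow _ p hp h4 0
      rw [pow_zero, one_mul] at e1
      rw [← hu] at h5
      rw [Module.End.mul_apply, Module.End.mul_apply, Module.End.mul_apply, e1, hCa] at h5
      exact h5
  · constructor
    · have e1 := hhigh d p hp h4 0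
      rw [pow_zero, one_mul] at e1
      rw [hval, e1, (hl d p hp).1, map_zero, map_zero, add_zero]
    · intro j hj
      rw [hval, hhigh d p hp h4, ((hl d p hp).2 j hj).1 h4, map_zero, map_zero, add_zero]

end Pool.Std
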