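import Pool.Agent.Work.MP_a60482_np.Defs
import Pool.Agent.Work.MP_a60482_np.END

/-!
Equivalent forms of the nilpotence of numerically trivial self-correspondences.
-/

open CategoryTheory MonoidalCategory CartesianMonoidalCategory Polynomial

universe u v w x b

namespace Pool.NP

open Pool.KC Pool.Std

variable {V : Type u} [Category.{v} V] [CartesianMonoidalCategory V] {K : Type x} [Field K]
variable {T : WeilTheory.{u, v, w, x} V K}

/-- numerical triviality in terms of supertraces -/
theorem num_iff_str {X : V} {z : T.H (X ⊗ X)} :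
    (∀ y ∈ T.C (X ⊗ X) (T.dim X), T.tr (X ⊗ X) (z * y) = 0) ↔
      ∀ g ∈ T.ops X, str (T.proj X) (2 * T.dim X + 1) (g * T.act z) = 0 := by
  constructor
  · rintro h _ ⟨y, hy, rfl⟩
    have h1 := h _ (T.C_pull (Cohomology.swap X) hy)
    rw [T.tr_mul_eq_str, T.swap_swap] at h1
    exact h1
  · intro h y hy
    rw [T.tr_mul_eq_str]
    exact h _ (T.act_mem_ops.mpr (T.C_pull _ hy))

theorem ops_comm_proj {X : V} : ∀ f ∈ T.ops X, ∀ i, f * T.proj X i = T.proj X i * f :=
  fun _ hf i => T.ops_mul_proj hf i

/-- the sign conjecture implies that numerically trivial self-correspondences are nilpotent -/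
theorem nil_of_sign [CharZero K]
    (hS : ∀ X : V, ∃ z ∈ T.C (X ⊗ X) (T.dim X),
      (∀ (i : ℕ), ∀ a ∈ T.deg X (2 * i), T.act z a = a) ∧
      ∀ (i : ℕ), ∀ a ∈ T.deg X (2 * i + 1), T.act z a = 0) : Nil T := by
  intro X z hz hnum
  rw [num_iff_str] at hnum
  obtain ⟨s, hs, hs0, hs1⟩ := hS X
  have hfA : T.act z ∈ T.ops X := T.act_mem_ops.mpr hz
  have hqA : T.act s ∈ T.ops X := T.act_mem_ops.mpr hs
  set f : Module.End K (T.H X) := T.act z with hf
  set q : Module.End K (T.H X) := T.act s with hq
  set M := 2 * T.dim X + 1 with hM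
  have hqp : ∀ i, q * T.proj X i = if Even i then T.proj X i else 0 := by
    intro i
    apply LinearMap.ext
    intro a
    rw [Module.End.mul_apply]
    rcases Nat.even_or_odd' i with ⟨j, hj | hj⟩
    · subst hj
      rw [if_pos (even_two_mul j)]
      exact hs0 j _ (T.proj_mem _ _)
    · subst hj
      rw [if_neg (by simp), LinearMap.zero_apply]
      exact hs1 j _ (T.proj_mem _ _)
  apply isNilpotent_of_trace
  intro k hk
  obtain ⟨l, rfl⟩ : ∃ l, k = l + 1 := ⟨k - 1, by omega⟩
  have h1 := hnum (f ^ l * q) (mul_mem (pow_mem hfA l) hqA)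
  have h2 := hnum (f ^ l) (pow_mem hfA l)
  rw [← pow_succ] at h2
  have h3 : LinearMap.trace K (T.H X) (f ^ (l + 1)) =
      2 * str (T.proj X) M (f ^ l * q * f) - str (T.proj X) M (f ^ (l + 1)) := by
    rw [str_apply, str_apply, Finset.mul_sum, ← Finset.sum_sub_distrib]
    have h4 : f ^ (l + 1) = ∑ i ∈ Finset.range M, f ^ (l + 1) * T.proj X i := by
      rw [← Finset.mul_sum, (T.projs X).sum, mul_one]
    conv_lhs => rw [h4, map_sum]
    apply Finset.sum_congr rfl
    intro i _
    have h5 : f ^ l * q * f * T.proj X i = if Even i then f ^ (l + 1) * T.proj X i else 0 := by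
      rw [mul_assoc (f ^ l * q), ops_comm_proj f hfA, ← mul_assoc, mul_assoc (f ^ l), hqp]
      split_ifs
      · rw [mul_assoc, ← ops_comm_proj f hfA, ← mul_assoc, ← pow_succ]
      · rw [mul_zero, zero_mul]
    rw [h5]
    rcases Nat.even_or_odd i with hi | hi
    · rw [if_pos hi, hi.neg_one_pow]
      ring
    · rw [if_neg (Nat.not_even_iff_odd.mpr hi), hi.neg_one_pow, map_zero]
      ring
  rw [h3, h1, h2, mul_zero, sub_zero]

/-- polynomials without constant term in a numerically trivial correspondence -/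
theorem exists_class_aeval {X : V} {z : T.H (X ⊗ X)} (hz : z ∈ T.C (X ⊗ X) (T.dim X))
    (hnum : ∀ y ∈ T.C (X ⊗ X) (T.dim X), T.tr (X ⊗ X) (z * y) = 0) (p : K[X]) :
    ∃ y ∈ T.C (X ⊗ X) (T.dim X), (∀ t ∈ T.C (X ⊗ X) (T.dim X), T.tr (X ⊗ X) (y * t) = 0) ∧
      (T.act y : Module.End K (T.H X)) =
        aeval (T.act z : Module.End K (T.H X)) (Polynomial.X * p) := by
  have hfA : (T.act z : Module.End K (T.H X)) ∈ T.ops X := T.act_mem_ops.mpr hz
  have hpA : aeval (T.act z : Module.End K (T.H X)) p ∈ T.ops X := by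
    have h := (aeval (R := K) (⟨_, hfA⟩ : T.ops X) p).2
    have h1 : ((aeval (R := K) (⟨_, hfA⟩ : T.ops X) p : T.ops X) : Module.End K (T.H X)) =
        aeval (T.act z : Module.End K (T.H X)) p :=
      (aeval_algHom_apply (T.ops X).val (⟨_, hfA⟩ : T.ops X) p).symm
    rwa [h1] at h
  have hmul : aeval (T.act z : Module.End K (T.H X)) (Polynomial.X * p) =
      T.act z * aeval (T.act z : Module.End K (T.H X)) p := by
    rw [map_mul, aeval_X]
  obtain ⟨y, hy, hya⟩ := mul_mem hfA hpA
  refine ⟨y, hy, ?_, by rw [hya, hmul]⟩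
  rw [num_iff_str] at hnum ⊢
  intro g hg
  rw [hya, ← mul_assoc, str_comm (T.ops X) ops_comm_proj (mul_mem hg hfA) hpA, ← mul_assoc]
  exact hnum _ (mul_mem hpA hg)

/-- nilpotence of numerically trivial correspondences means that there are no phantoms:
an algebraic idempotent which is numerically trivial is zero -/
theorem nil_iff_noPhantom : Nil T ↔ ∀ (X : V), ∀ z ∈ T.C (X ⊗ X) (T.dim X),
    (∀ a, T.act z (T.act z a) = T.act z a) →
    (∀ y ∈ T.C (X ⊗ X) (T.dim X), T.tr (X ⊗ X) (z * y) = 0) → T.act z = 0 := by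
  constructor
  · intro h X z hz hid hnum
    obtain ⟨k, hk⟩ := h X z hz hnum
    have h1 : ∀ (k : ℕ) (a : T.H X), ((T.act z : Module.End K (T.H X)) ^ (k + 1)) a =
        T.act z a := by
      intro k
      induction k with
      | zero => intro a; rw [zero_add, pow_one]
      | succ k ih => intro a; rw [pow_succ, Module.End.mul_apply, ih, hid]
    apply LinearMap.ext
    intro a
    rw [← h1 k a, pow_succ', hk, mul_zero]
  · intro h X z hz hnum
    by_contra hnil
    obtain ⟨p, hp, hp0⟩ := exists_idem hnil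
    obtain ⟨y, hy, hynum, hya⟩ := exists_class_aeval hz hnum p
    apply hp0
    rw [← hya]
    refine h X y hy ?_ hynum
    intro a
    have h1 := congrArg (fun g : Module.End K (T.H X) => g a) hp.eq
    rw [← hya] at h1
    exact h1

/-- nilpotence of numerically trivial correspondences means that the self-correspondences
invertible up to numerical equivalence are invertible -/
theorem nil_iff_conservative : Nil T ↔ ∀ (X : V), ∀ z ∈ T.C (X ⊗ X) (T.dim X),
    ∀ y ∈ T.C (X ⊗ X) (T.dim X),
    (∀ w ∈ T.C (X ⊗ X) (T.dim X), T.tr (X ⊗ X) ((T.comp z y - T.diag X) * w) = 0) →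
      Function.Bijective (T.act z) := by
  have hneg : ∀ (X : V) (u u' : T.H (X ⊗ X)),
      (∀ w ∈ T.C (X ⊗ X) (T.dim X), T.tr (X ⊗ X) ((u - u') * w) = 0) →
      ∀ w ∈ T.C (X ⊗ X) (T.dim X), T.tr (X ⊗ X) ((u' - u) * w) = 0 := by
    intro X u u' h w hw
    rw [← neg_sub, neg_mul, map_neg, h w hw, neg_zero]
  constructor
  · intro h X z hz y hy hnum
    replace hnum := hneg X _ _ hnum
    have hmem : T.diag X - T.comp z y ∈ T.C (X ⊗ X) (T.dim X) :=
      sub_mem (T.C_diag X) (T.comp_mem (i := 0) (j := 0) hz hy)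
    have h1 := h X _ hmem hnum
    have h2 : (T.act (T.diag X - T.comp z y) : Module.End K (T.H X)) =
        1 - (T.act y : Module.End K (T.H X)) * T.act z := by
      rw [← T.actEquiv_apply, map_sub, T.actEquiv_apply, T.actEquiv_apply, T.act_diag,
        T.act_comp]
      rfl
    rw [h2] at h1
    have h3 := h1.isUnit_one_sub
    rw [sub_sub_cancel] at h3
    have hinj : Function.Injective (T.act z) := by
      intro a b hab
      have h4 : ((T.act y : Module.End K (T.H X)) * T.act z) a =
          ((T.act y : Module.End K (T.H X)) * T.act z) b := by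
        rw [Module.End.mul_apply, Module.End.mul_apply, hab]
      exact ((Module.End.isUnit_iff _).mp h3).1 h4
    exact ⟨hinj, LinearMap.surjective_of_injective hinj⟩
  · intro h
    rw [nil_iff_noPhantom]
    intro X z hz hid hnum
    have hmem : T.diag X - z ∈ T.C (X ⊗ X) (T.dim X) := sub_mem (T.C_diag X) hz
    have hact : ∀ a, T.act (T.diag X - z) a = a - T.act z a := by
      intro a
      rw [← T.actEquiv_apply, map_sub, LinearMap.sub_apply, T.actEquiv_apply, T.actEquiv_apply,
        T.act_diag]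
      rfl
    have hcomp : T.comp (T.diag X - z) (T.diag X) = T.diag X - z := by
      apply T.act_injective
      rw [T.act_comp, T.act_diag]
      rfl
    have hb := h X _ hmem (T.diag X) (T.C_diag X) (hneg X _ _ (by
      intro t ht
      rw [hcomp, sub_sub_cancel]
      exact hnum t ht))
    apply LinearMap.ext
    intro a
    apply hb.1
    rw [hact, hid, sub_self, LinearMap.zero_apply, map_zero]

end Pool.NP
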