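import Pool.Agent.Work.MP_a60482_np.Nil
import Pool.Agent.Work.MP_a60482_np.Npe

/-!
The statements of the hand-in.
-/

open CategoryTheory MonoidalCategory CartesianMonoidalCategory

universe u v w x b

namespace Pool.Std

open Pool.KC

variable {V : Type u} [Category.{v} V] [CartesianMonoidalCategory V] {K : Type x} [Field K]
variable {D : WeilCoh.{u, v, w, x} V K}

namespace WeilCoh

theorem comp_eq (h : D.IsWeil) {X : V} (z y : D.H (X ⊗ X)) :
    D.comp z y = (toWeil h).comp z y := (push_eq h _).symm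

theorem noPhantoms_iff [CharZero K] (h : D.IsWeil) (hK : D.CoefficientsIn K) :
    D.NoPhantoms ↔ NP.Nil (toWeil h) := by
  rw [NP.nil_iff_noPhantom]
  constructor
  · intro hn X z hz hi h0
    apply LinearMap.ext
    intro a
    rw [act_eq h]
    refine hn X z ((mem_C_iff h hK).mp hz) ?_ ((numTriv_iff h hK z).mpr h0) a
    intro a
    rw [← act_eq h, ← act_eq h]
    exact hi a
  · intro hn X z hz hi h0 a
    rw [← act_eq h, hn X z ((mem_C_iff h hK).mpr hz) ?_ ((numTriv_iff h hK z).mp h0)]
    · rfl
    · intro a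
      have h1 := hi a
      rw [← act_eq h, ← act_eq h] at h1
      exact h1

theorem conservative_iff [CharZero K] (h : D.IsWeil) (hK : D.CoefficientsIn K) :
    D.Conservative ↔ NP.Nil (toWeil h) := by
  rw [NP.nil_iff_conservative]
  have hact : ∀ (X : V) (z : D.H (X ⊗ X)), D.act z = ((toWeil h).act z : D.H X → D.H X) :=
    fun X z => funext fun a => (act_eq h z a).symm
  constructor
  · intro hn X z hz y hy h0
    have h1 := hn X z ((mem_C_iff h hK).mp hz) y ((mem_C_iff h hK).mp hy)
      ((numTriv_iff h hK _).mpr (by rw [comp_eq h]; exact h0))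
    rw [hact] at h1
    exact h1
  · intro hn X z hz y hy h0
    have h1 := hn X z ((mem_C_iff h hK).mpr hz) y ((mem_C_iff h hK).mpr hy) (by
      have h2 := (numTriv_iff h hK _).mp h0
      rw [comp_eq h] at h2
      exact h2)
    rw [hact]
    exact h1

theorem nil_of_signConj [CharZero K] (h : D.IsWeil) (hs : ∀ X : V, D.SignConj X) :
    NP.Nil (toWeil h) := by
  apply NP.nil_of_sign
  intro X
  obtain ⟨z, hz, h1, h2⟩ := (signConj_iff h X).mp (hs X)
  exact ⟨z, Submodule.subset_span hz, h1, h2⟩

end WeilCoh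

namespace Polarization

variable {G : Polarization.{u, v, w, x, b} D} [CharZero K]

/-- **The equivalences.** -/
theorem tfae_nil (h : D.IsWeil) (hK : D.CoefficientsIn K) (hc : D.Connected)
    (hP : G.IsPolarized) (hH : G.HasHypersurfaces) (hG : G.HasGenericSections) :
    [∀ X : V, D.ConjC X,
      ∀ X : V, D.SignConj X,
      ∀ (X : V) (M : G.Bund X), G.ConjB M,
      D.Nilpotence,
      D.NoPhantoms,
      D.Conservative].TFAE := by
  tfae_have 1 → 2 := fun hC X => sign_of_conjC h (hC X)
  tfae_have 2 → 4 := fun hs => (WeilCoh.nilpotence_iff h hK).mpr (WeilCoh.nil_of_signConj h hs)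
  tfae_have 4 → 3 := fun hn =>
    conjB_of_nil h hK hc hP hH hG ((WeilCoh.nilpotence_iff h hK).mp hn)
  tfae_have 3 → 1 := by
    intro hB X
    obtain ⟨M⟩ := hP.exists_bundle X
    exact conjC_of_lefB h hP ((conjB_iff h hP M).mp (hB X M))
  tfae_have 4 ↔ 5 := by
    rw [WeilCoh.nilpotence_iff h hK, WeilCoh.noPhantoms_iff h hK]
  tfae_have 4 ↔ 6 := by
    rw [WeilCoh.nilpotence_iff h hK, WeilCoh.conservative_iff h hK]
  tfae_finish

end Polarization

end Pool.Std
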