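import Pool.Agent.Work.MP_a60482_np.Defs

/-!
Block K4: the four slot relation.
-/

open CategoryTheory MonoidalCategory CartesianMonoidalCategory

universe u v w x b

namespace Pool.NP

open Pool.KC Pool.Std

variable {V : Type u} [Category.{v} V] [CartesianMonoidalCategory V] {K : Type x} [Field K]
variable {T : WeilTheory.{u, v, w, x} V K}

namespace K4

/-- the four factors, in the order `p, q, r, s` -/
def Good (T : WeilTheory.{u, v, w, x} V K) {Y : V} (p q r s : (Y ⊗ Y) ⊗ (Y ⊗ Y) ⟶ Y) : Prop :=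
  ∀ z : T.H (Y ⊗ (Y ⊗ (Y ⊗ Y))), T.tr ((Y ⊗ Y) ⊗ (Y ⊗ Y)) (T.pull (lift p (lift q (lift r s))) z) =
    T.tr _ z

def assoc4 (Y : V) : (Y ⊗ Y) ⊗ (Y ⊗ Y) ≅ Y ⊗ (Y ⊗ (Y ⊗ Y)) where
  hom := lift (q1 Y) (lift (q2 Y) (lift (q3 Y) (q4 Y)))
  inv := lift (lift (fst _ _) (snd _ _ ≫ fst _ _))
    (lift (snd _ _ ≫ snd _ _ ≫ fst _ _) (snd _ _ ≫ snd _ _ ≫ snd _ _))
  hom_inv_id := by ext <;> simp [q1, q2, q3, q4]
  inv_hom_id := by ext <;> simp [q1, q2, q3, q4]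

def sw1 (Y W : V) : Y ⊗ (Y ⊗ W) ≅ Y ⊗ (Y ⊗ W) where
  hom := lift (snd _ _ ≫ fst _ _) (lift (fst _ _) (snd _ _ ≫ snd _ _))
  inv := lift (snd _ _ ≫ fst _ _) (lift (fst _ _) (snd _ _ ≫ snd _ _))
  hom_inv_id := by ext <;> simp
  inv_hom_id := by ext <;> simp

def sw2 (Y W : V) : Y ⊗ (Y ⊗ (Y ⊗ W)) ≅ Y ⊗ (Y ⊗ (Y ⊗ W)) where
  hom := lift (fst _ _) (snd _ _ ≫ (sw1 Y W).hom)
  inv := lift (fst _ _) (snd _ _ ≫ (sw1 Y W).hom)
  hom_inv_id := by ext <;> simp [sw1]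
  inv_hom_id := by ext <;> simp [sw1]

def sw3 (Y : V) : Y ⊗ (Y ⊗ (Y ⊗ Y)) ≅ Y ⊗ (Y ⊗ (Y ⊗ Y)) where
  hom := lift (fst _ _) (lift (snd _ _ ≫ fst _ _)
    (lift (snd _ _ ≫ snd _ _ ≫ snd _ _) (snd _ _ ≫ snd _ _ ≫ fst _ _)))
  inv := lift (fst _ _) (lift (snd _ _ ≫ fst _ _)
    (lift (snd _ _ ≫ snd _ _ ≫ snd _ _) (snd _ _ ≫ snd _ _ ≫ fst _ _)))
  hom_inv_id := by ext <;> simp
  inv_hom_id := by ext <;> simp

theorem Good.base (Y : V) : Good T (q1 Y) (q2 Y) (q3 Y) (q4 Y) := fun z => T.tr_iso (assoc4 Y) z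

theorem Good.s1 {Y : V} {p q r s : (Y ⊗ Y) ⊗ (Y ⊗ Y) ⟶ Y} (h : Good T p q r s) :
    Good T q p r s := by
  intro z
  rw [← T.tr_iso (sw1 Y (Y ⊗ Y)) z, ← h, T.pull_comp']
  congr 2
  simp [sw1]

theorem Good.s2 {Y : V} {p q r s : (Y ⊗ Y) ⊗ (Y ⊗ Y) ⟶ Y} (h : Good T p q r s) :
    Good T p r q s := by
  intro z
  rw [← T.tr_iso (sw2 Y Y) z, ← h, T.pull_comp']
  congr 2
  simp [sw1, sw2]

theorem Good.s3 {Y : V} {p q r s : (Y ⊗ Y) ⊗ (Y ⊗ Y) ⟶ Y} (h : Good T p q r s) :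
    Good T p q s r := by
  intro z
  rw [← T.tr_iso (sw3 Y) z, ← h, T.pull_comp']
  congr 2
  simp [sw3]

variable {X : V} {c : T.H X}

/-- a class restricted from `X` in the slot `p` is orthogonal to the vanishing classes in this
slot -/
theorem tr_van {S : Gen T c} {p q r s : (S.Y ⊗ S.Y) ⊗ (S.Y ⊗ S.Y) ⟶ S.Y}
    (h : Good T p q r s) {y : T.H S.Y} (hy : y ∈ S.van) (ρ : T.H (X ⊗ (S.Y ⊗ (S.Y ⊗ S.Y))))
    (u : T.H (S.Y ⊗ (S.Y ⊗ S.Y))) :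
    T.tr _ (T.pull p y * T.pull (rmap S.i p q r s) ρ * T.pull (lift q (lift r s)) u) = 0 := by
  refine T.kind (P := fun ρ => T.tr _ (T.pull p y * T.pull (rmap S.i p q r s) ρ *
    T.pull (lift q (lift r s)) u) = 0) (by simp) ?_ ?_ ρ
  · intro a b
    have h1 : T.pull p y * T.pull (rmap S.i p q r s) (T.pull (fst _ _) a * T.pull (snd _ _) b) *
        T.pull (lift q (lift r s)) u = T.pull (lift p (lift q (lift r s)))
          (T.pull (fst _ _) (y * T.pull S.i a) * T.pull (snd _ _) (b * u)) := by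
      simp only [map_mul, T.pull_comp', rmap, lift_fst, lift_snd, mul_assoc]
      congr 3
      simp
    rw [h1, h, T.tr_prod, hy.2 a, zero_mul]
  · intro a b h1 h2
    rw [map_add, mul_add, add_mul, map_add, h1, h2, add_zero]

theorem aux1 {A : Type*} [Ring A] {a k y w : A} (ha : ∀ b, a * b = b * a)
    (hk : ∀ b, k * b = b * k) : a * k * (y * w) = y * k * (w * a) := by
  rw [mul_assoc, ha, ← mul_assoc k, hk y]
  simp only [mul_assoc]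

/-- the class `e` on two of the slots is central -/
theorem at2_comm {S : Gen T c} (E : Idem S) {W : V} (f g : W ⟶ S.Y) (a : T.H W) :
    at2 T E.e f g * a = a * at2 T E.e f g :=
  T.even_comm (T.pull_deg _ (T.C_deg _ _ E.mem)) a

theorem at2_symm {S : Gen T c} (E : Idem S) {W : V} (f g : W ⟶ S.Y) :
    at2 T E.e g f = at2 T E.e f g := by
  unfold at2
  conv_lhs => rw [← E.symm, T.pull_comp']
  congr 2
  simp

theorem pull_at2 {W W' Y : V} (z : T.H (Y ⊗ Y)) (h : W' ⟶ W) (f g : W ⟶ Y) :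
    T.pull h (at2 T z f g) = at2 T z (h ≫ f) (h ≫ g) := by
  unfold at2
  rw [T.pull_comp']
  congr 2
  simp

theorem pull_q {W Y : V} (f g h k : W ⟶ Y) :
    (lift (lift f g) (lift h k) ≫ q1 Y = f) ∧ (lift (lift f g) (lift h k) ≫ q2 Y = g) ∧
    (lift (lift f g) (lift h k) ≫ q3 Y = h) ∧ (lift (lift f g) (lift h k) ≫ q4 Y = k) := by
  simp [q1, q2, q3, q4]

/-- slots `r, s` of a restricted class against `e`, then slots `p, q` against `e` -/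
theorem tr_res {S : Gen T c} (E : Idem S) {p q r s : (S.Y ⊗ S.Y) ⊗ (S.Y ⊗ S.Y) ⟶ S.Y}
    (h : Good T p q r s) {ρ : T.H (X ⊗ (S.Y ⊗ (S.Y ⊗ S.Y)))}
    (hρ : ρ ∈ T.C (X ⊗ (S.Y ⊗ (S.Y ⊗ S.Y))) (2 * T.dim S.Y)) :
    T.tr _ (T.pull (rmap S.i p q r s) ρ * (at2 T E.e p q * at2 T E.e r s)) = 0 := by
  -- independence of the order
  have key : ∀ {p q r s : (S.Y ⊗ S.Y) ⊗ (S.Y ⊗ S.Y) ⟶ S.Y}, Good T p q r s →
      T.tr _ (T.pull (rmap S.i p q r s) ρ * (at2 T E.e p q * at2 T E.e r s)) =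
      T.tr (S.Y ⊗ (S.Y ⊗ (S.Y ⊗ S.Y))) (T.pull (lift (fst _ _ ≫ S.i) (snd _ _)) ρ *
        (at2 T E.e (fst _ _) (snd _ _ ≫ fst _ _) *
          at2 T E.e (snd _ _ ≫ snd _ _ ≫ fst _ _) (snd _ _ ≫ snd _ _ ≫ snd _ _))) := by
    intro p q r s h
    rw [← h, map_mul (T.pull _), map_mul (T.pull _), pull_at2, pull_at2, T.pull_comp']
    have e1 : lift p (lift q (lift r s)) ≫ lift (fst _ _ ≫ S.i) (snd _ _) = rmap S.i p q r s := by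
      simp [rmap]
    have e2 : lift p (lift q (lift r s)) ≫ fst _ _ = p := by simp
    have e3 : lift p (lift q (lift r s)) ≫ snd _ _ ≫ fst _ _ = q := by simp
    have e4 : lift p (lift q (lift r s)) ≫ snd _ _ ≫ snd _ _ ≫ fst _ _ = r := by simp
    have e5 : lift p (lift q (lift r s)) ≫ snd _ _ ≫ snd _ _ ≫ snd _ _ = s := by simp
    rw [e1, e2, e3, e4, e5]
  have h0 : Good T (q3 S.Y) (q4 S.Y) (q1 S.Y) (q2 S.Y) :=
    (Good.base S.Y).s2.s1.s3.s2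
  rw [key h, ← key h0]
  set κ := T.pull (rmap S.i (q3 S.Y) (q4 S.Y) (q1 S.Y) (q2 S.Y)) ρ with hκ
  have hκC : κ ∈ T.C ((S.Y ⊗ S.Y) ⊗ (S.Y ⊗ S.Y)) (2 * T.dim S.Y) := T.C_pull _ hρ
  have hdim : T.dim (S.Y ⊗ S.Y) = T.dim S.Y + T.dim S.Y := T.dim_prod _ _
  have hz : T.act κ E.e ∈ T.C (S.Y ⊗ S.Y) (T.dim S.Y) :=
    T.act_mem hκC E.mem (by omega)
  have hfst : T.pull (fst (S.Y ⊗ S.Y) (S.Y ⊗ S.Y)) E.e = at2 T E.e (q1 S.Y) (q2 S.Y) := by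
    unfold at2
    congr 2
    ext <;> simp
  have hsnd : T.pull (snd (S.Y ⊗ S.Y) (S.Y ⊗ S.Y)) E.e = at2 T E.e (q3 S.Y) (q4 S.Y) := by
    unfold at2
    congr 2
    ext <;> simp
  have h1 := E.tr _ hz 0 (by
    intro y hy
    rw [zero_smul]
    apply T.nondeg'
    intro w
    have h2 := tr_van h0 hy ρ (T.pull (fst _ _) w * T.pull (snd _ _) E.e)
    have h3 : T.pull (lift (q4 S.Y) (lift (q1 S.Y) (q2 S.Y)))
        (T.pull (fst _ _) w * T.pull (snd _ _) E.e) =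
        T.pull (q4 S.Y) w * at2 T E.e (q1 S.Y) (q2 S.Y) := by
      rw [map_mul, T.pull_comp', T.pull_comp', lift_fst, lift_snd]
      rfl
    rw [h3, ← hκ] at h2
    rw [T.tr_act, ← T.even_comm (T.C_deg _ _ hz), mul_assoc, T.tr_act, hfst, ← h2]
    congr 1
    rw [map_mul, T.pull_comp', T.pull_comp']
    exact aux1 (at2_comm E _ _) (T.even_comm (T.C_deg _ _ hκC)))
  rw [mul_zero] at h1
  rw [← h1, T.even_comm (T.C_deg _ _ E.mem), T.tr_act, hfst, hsnd]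
  congr 1
  rw [at2_comm E (q3 S.Y), ← mul_assoc, T.even_comm (T.C_deg _ _ hκC)]

/-- all matchings of the slots of a restricted class against `e`, `e` -/
theorem tr_res_all {S : Gen T c} (E : Idem S) {p q r s : (S.Y ⊗ S.Y) ⊗ (S.Y ⊗ S.Y) ⟶ S.Y}
    (h : Good T p q r s) {ρ : T.H (X ⊗ (S.Y ⊗ (S.Y ⊗ S.Y)))}
    (hρ : ρ ∈ T.C (X ⊗ (S.Y ⊗ (S.Y ⊗ S.Y))) (2 * T.dim S.Y)) :
    T.tr _ (T.pull (rmap S.i p q r s) ρ * (at2 T E.e p q * at2 T E.e r s)) = 0 ∧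
    T.tr _ (T.pull (rmap S.i p q r s) ρ * (at2 T E.e p r * at2 T E.e q s)) = 0 ∧
    T.tr _ (T.pull (rmap S.i p q r s) ρ * (at2 T E.e p s * at2 T E.e q r)) = 0 := by
  refine ⟨tr_res E h hρ, ?_, ?_⟩
  · have h1 := tr_res E h.s2 (T.C_pull (lift (fst _ _) (snd _ _ ≫ lift (snd _ _ ≫ fst _ _)
      (lift (fst _ _) (snd _ _ ≫ snd _ _)))) hρ)
    rw [T.pull_comp'] at h1
    have e1 : rmap S.i p r q s ≫ lift (fst X (S.Y ⊗ (S.Y ⊗ S.Y)))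
        (snd X (S.Y ⊗ (S.Y ⊗ S.Y)) ≫ lift (snd _ _ ≫ fst _ _)
      (lift (fst _ _) (snd _ _ ≫ snd _ _))) = rmap S.i p q r s := by
      simp [rmap]
    rwa [e1] at h1
  · have h1 := tr_res E h.s3.s2 (T.C_pull (lift (fst _ _) (snd _ _ ≫ lift (snd _ _ ≫ fst _ _)
      (lift (snd _ _ ≫ snd _ _) (fst _ _)))) hρ)
    rw [T.pull_comp'] at h1
    have e1 : rmap S.i p s q r ≫ lift (fst X (S.Y ⊗ (S.Y ⊗ S.Y)))
        (snd X (S.Y ⊗ (S.Y ⊗ S.Y)) ≫ lift (snd _ _ ≫ fst _ _)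
      (lift (snd _ _ ≫ snd _ _) (fst _ _))) = rmap S.i p q r s := by
      simp [rmap]
    rwa [e1] at h1

/-- the diagonal class of `Y × Y` -/
theorem diag_prod (Y : V) : T.diag (Y ⊗ Y) =
    at2 T (T.diag Y) (q1 Y) (q3 Y) * at2 T (T.diag Y) (q2 Y) (q4 Y) := by
  apply T.act_injective
  apply LinearMap.ext
  intro z
  rw [T.act_diag, LinearMap.id_apply]
  symm
  refine T.kind' (P := fun z => T.act (at2 T (T.diag Y) (q1 Y) (q3 Y) *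
    at2 T (T.diag Y) (q2 Y) (q4 Y)) z = z) (by simp) ?_ ?_ z
  · intro i j a b ha hb
    have h1 := act_bx (T := T) (T.diag_deg Y) (T.diag Y) ha hb
    rw [T.act_diag] at h1
    exact h1
  · intro a b h1 h2
    rw [map_add, h1, h2]

/-- trace against `D13 D24` -/
theorem tr_d2 {Y : V} (z : T.H ((Y ⊗ Y) ⊗ (Y ⊗ Y))) :
    T.tr _ (z * (at2 T (T.diag Y) (q1 Y) (q3 Y) * at2 T (T.diag Y) (q2 Y) (q4 Y))) =
      T.tr (Y ⊗ Y) (T.pull (lift (lift (fst Y Y) (snd Y Y)) (lift (fst Y Y) (snd Y Y))) z) := by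
  rw [← diag_prod, T.diag_spec]
  congr 3
  simp

def w23 (Y : V) : (Y ⊗ Y) ⊗ (Y ⊗ Y) ≅ (Y ⊗ Y) ⊗ (Y ⊗ Y) where
  hom := lift (lift (q1 Y) (q3 Y)) (lift (q2 Y) (q4 Y))
  inv := lift (lift (q1 Y) (q3 Y)) (lift (q2 Y) (q4 Y))
  hom_inv_id := by ext <;> simp [q1, q2, q3, q4]
  inv_hom_id := by ext <;> simp [q1, q2, q3, q4]

def w34 (Y : V) : (Y ⊗ Y) ⊗ (Y ⊗ Y) ≅ (Y ⊗ Y) ⊗ (Y ⊗ Y) where
  hom := lift (lift (q1 Y) (q2 Y)) (lift (q4 Y) (q3 Y))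
  inv := lift (lift (q1 Y) (q2 Y)) (lift (q4 Y) (q3 Y))
  hom_inv_id := by ext <;> simp [q1, q2, q3, q4]
  inv_hom_id := by ext <;> simp [q1, q2, q3, q4]

/-- trace against `D12 D34` -/
theorem tr_d1 {Y : V} (z : T.H ((Y ⊗ Y) ⊗ (Y ⊗ Y))) :
    T.tr _ (z * (at2 T (T.diag Y) (q1 Y) (q2 Y) * at2 T (T.diag Y) (q3 Y) (q4 Y))) =
      T.tr (Y ⊗ Y) (T.pull (lift (lift (fst Y Y) (fst Y Y)) (lift (snd Y Y) (snd Y Y))) z) := by
  have h1 := tr_d2 (T := T) (T.pull (w23 Y).hom z)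
  rw [T.pull_comp'] at h1
  have e1 : lift (lift (fst Y Y) (snd Y Y)) (lift (fst Y Y) (snd Y Y)) ≫ (w23 Y).hom =
      lift (lift (fst Y Y) (fst Y Y)) (lift (snd Y Y) (snd Y Y)) := by
    simp [w23, q1, q2, q3, q4]
  rw [e1] at h1
  rw [← h1, ← T.tr_iso (w23 Y), map_mul (T.pull _), map_mul (T.pull _), pull_at2,
    pull_at2]
  simp [w23]

/-- trace against `D14 D23` -/
theorem tr_d3 {Y : V} (z : T.H ((Y ⊗ Y) ⊗ (Y ⊗ Y))) :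
    T.tr _ (z * (at2 T (T.diag Y) (q1 Y) (q4 Y) * at2 T (T.diag Y) (q2 Y) (q3 Y))) =
      T.tr (Y ⊗ Y) (T.pull (lift (lift (fst Y Y) (snd Y Y)) (lift (snd Y Y) (fst Y Y))) z) := by
  have h1 := tr_d2 (T := T) (T.pull (w34 Y).hom z)
  rw [T.pull_comp'] at h1
  have e1 : lift (lift (fst Y Y) (snd Y Y)) (lift (fst Y Y) (snd Y Y)) ≫ (w34 Y).hom =
      lift (lift (fst Y Y) (snd Y Y)) (lift (snd Y Y) (fst Y Y)) := by
    simp [w34, q1, q2, q3, q4]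
  rw [e1] at h1
  rw [← h1, ← T.tr_iso (w34 Y), map_mul (T.pull _), map_mul (T.pull _), pull_at2,
    pull_at2]
  simp [w34]

theorem at2_id {Y : V} (z : T.H (Y ⊗ Y)) : at2 T z (fst Y Y) (snd Y Y) = z := by
  unfold at2
  rw [show lift (fst Y Y) (snd Y Y) = 𝟙 (Y ⊗ Y) by ext <;> simp, T.pull_id]

theorem tr_ff {S : Gen T c} (E : Idem S) :
    T.tr _ (at2 T E.e (fst S.Y S.Y) (fst S.Y S.Y) * at2 T E.e (snd S.Y S.Y) (snd S.Y S.Y)) =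
      E.t ^ 2 := by
  have h1 : T.tr S.Y (T.pull (lift (𝟙 S.Y) (𝟙 S.Y)) E.e) = E.t := by
    rw [← T.diag_spec, E.tr _ (T.C_diag S.Y) 1, mul_one]
    intro y _
    rw [T.act_diag, LinearMap.id_apply, one_smul]
  have h2 : at2 T E.e (fst S.Y S.Y) (fst S.Y S.Y) =
      T.pull (fst S.Y S.Y) (T.pull (lift (𝟙 S.Y) (𝟙 S.Y)) E.e) := by
    unfold at2
    rw [T.pull_comp']
    congr 2
    ext <;> simp
  have h3 : at2 T E.e (snd S.Y S.Y) (snd S.Y S.Y) =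
      T.pull (snd S.Y S.Y) (T.pull (lift (𝟙 S.Y) (𝟙 S.Y)) E.e) := by
    unfold at2
    rw [T.pull_comp']
    congr 2
    ext <;> simp
  rw [h2, h3, T.tr_prod, h1, pow_two]

theorem tr_ee {S : Gen T c} (E : Idem S) : T.tr _ (E.e * E.e) = E.t := by
  rw [E.tr _ E.mem 1, mul_one]
  intro y hy
  rw [E.van y hy, one_smul]

theorem tr_e2 {S : Gen T c} (E : Idem S) :
    T.tr _ (at2 T E.e (q1 S.Y) (q2 S.Y) * at2 T E.e (q3 S.Y) (q4 S.Y) *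
      (at2 T (T.diag S.Y) (q1 S.Y) (q2 S.Y) * at2 T (T.diag S.Y) (q3 S.Y) (q4 S.Y))) = E.t ^ 2 ∧
    T.tr _ (at2 T E.e (q1 S.Y) (q2 S.Y) * at2 T E.e (q3 S.Y) (q4 S.Y) *
      (at2 T (T.diag S.Y) (q1 S.Y) (q3 S.Y) * at2 T (T.diag S.Y) (q2 S.Y) (q4 S.Y))) = E.t ∧
    T.tr _ (at2 T E.e (q1 S.Y) (q2 S.Y) * at2 T E.e (q3 S.Y) (q4 S.Y) *
      (at2 T (T.diag S.Y) (q1 S.Y) (q4 S.Y) * at2 T (T.diag S.Y) (q2 S.Y) (q3 S.Y))) = E.t := by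
  refine ⟨?_, ?_, ?_⟩
  · rw [tr_d1, map_mul (T.pull _), pull_at2, pull_at2, (pull_q _ _ _ _).1, (pull_q _ _ _ _).2.1,
      (pull_q _ _ _ _).2.2.1, (pull_q _ _ _ _).2.2.2, tr_ff]
  · rw [tr_d2, map_mul (T.pull _), pull_at2, pull_at2, (pull_q _ _ _ _).1, (pull_q _ _ _ _).2.1,
      (pull_q _ _ _ _).2.2.1, (pull_q _ _ _ _).2.2.2, at2_id, tr_ee]
  · rw [tr_d3, map_mul (T.pull _), pull_at2, pull_at2, (pull_q _ _ _ _).1, (pull_q _ _ _ _).2.1,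
      (pull_q _ _ _ _).2.2.1, (pull_q _ _ _ _).2.2.2, at2_symm E (fst _ _) (snd _ _), at2_id,
      tr_ee]

theorem tr_e3 {S : Gen T c} (E : Idem S) :
    T.tr _ (at2 T E.e (q1 S.Y) (q4 S.Y) * at2 T E.e (q2 S.Y) (q3 S.Y) *
      (at2 T (T.diag S.Y) (q1 S.Y) (q2 S.Y) * at2 T (T.diag S.Y) (q3 S.Y) (q4 S.Y))) = E.t ∧
    T.tr _ (at2 T E.e (q1 S.Y) (q4 S.Y) * at2 T E.e (q2 S.Y) (q3 S.Y) *
      (at2 T (T.diag S.Y) (q1 S.Y) (q3 S.Y) * at2 T (T.diag S.Y) (q2 S.Y) (q4 S.Y))) = E.t ∧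
    T.tr _ (at2 T E.e (q1 S.Y) (q4 S.Y) * at2 T E.e (q2 S.Y) (q3 S.Y) *
      (at2 T (T.diag S.Y) (q1 S.Y) (q4 S.Y) * at2 T (T.diag S.Y) (q2 S.Y) (q3 S.Y))) =
        E.t ^ 2 := by
  refine ⟨?_, ?_, ?_⟩
  · rw [tr_d1, map_mul (T.pull _), pull_at2, pull_at2, (pull_q _ _ _ _).1, (pull_q _ _ _ _).2.1,
      (pull_q _ _ _ _).2.2.1, (pull_q _ _ _ _).2.2.2, at2_id, tr_ee]
  · rw [tr_d2, map_mul (T.pull _), pull_at2, pull_at2, (pull_q _ _ _ _).1, (pull_q _ _ _ _).2.1,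
      (pull_q _ _ _ _).2.2.1, (pull_q _ _ _ _).2.2.2, at2_symm E (fst _ _) (snd _ _), at2_id,
      tr_ee]
  · rw [tr_d3, map_mul (T.pull _), pull_at2, pull_at2, (pull_q _ _ _ _).1, (pull_q _ _ _ _).2.1,
      (pull_q _ _ _ _).2.2.1, (pull_q _ _ _ _).2.2.2, tr_ff]

/-- classes of odd degree anticommute -/
theorem odd_comm {W : V} {m : ℕ} (hm : Odd m) {a b : T.H W} (ha : a ∈ T.deg W m)
    (hb : b ∈ T.deg W m) : a * b = -(b * a) := by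
  rw [T.comm ha hb, (hm.mul hm).neg_one_pow, neg_one_mul]

theorem odd_sq [CharZero K] {W : V} {m : ℕ} (hm : Odd m) {a : T.H W} (ha : a ∈ T.deg W m) :
    a * a = 0 := by
  have h1 := odd_comm hm ha ha
  have h2 : (2 : K) • (a * a) = 0 := by
    rw [two_smul]
    nth_rw 1 [h1]
    exact neg_add_cancel _
  exact (smul_eq_zero.mp h2).resolve_left two_ne_zero

section Om

variable {S : Gen T c} {y : T.H S.Y}

/-- `y₁ v₂ y₃ v₄` -/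
noncomputable def om4 (S : Gen T c) (y : T.H S.Y) : T.H ((S.Y ⊗ S.Y) ⊗ (S.Y ⊗ S.Y)) :=
  T.pull (q1 S.Y) y * T.pull (q2 S.Y) S.v * (T.pull (q3 S.Y) y * T.pull (q4 S.Y) S.v)

theorem pull_om4 {W : V} (f g h k : W ⟶ S.Y) :
    T.pull (lift (lift f g) (lift h k)) (om4 S y) =
      T.pull f y * T.pull g S.v * (T.pull h y * T.pull k S.v) := by
  unfold om4
  rw [map_mul, map_mul, map_mul, T.pull_comp', T.pull_comp', T.pull_comp', T.pull_comp',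
    (pull_q _ _ _ _).1, (pull_q _ _ _ _).2.1, (pull_q _ _ _ _).2.2.1, (pull_q _ _ _ _).2.2.2]

theorem tr_swap_odd (hy : y ∈ S.van) : T.tr S.Y (y * S.v) = - T.tr S.Y (S.v * y) := by
  rw [odd_comm S.odd hy.1 S.v_mem, map_neg]

theorem tr_om_d1 (hy : y ∈ S.van) : T.tr _ (om4 S y *
    (at2 T (T.diag S.Y) (q1 S.Y) (q2 S.Y) * at2 T (T.diag S.Y) (q3 S.Y) (q4 S.Y))) =
      T.tr S.Y (S.v * y) ^ 2 := by
  rw [tr_d1, pull_om4, ← map_mul, ← map_mul, T.tr_prod, tr_swap_odd hy]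
  ring

theorem tr_om_d2 [CharZero K] (hy : y ∈ S.van) : T.tr _ (om4 S y *
    (at2 T (T.diag S.Y) (q1 S.Y) (q3 S.Y) * at2 T (T.diag S.Y) (q2 S.Y) (q4 S.Y))) = 0 := by
  rw [tr_d2, pull_om4, mul_assoc, ← mul_assoc (T.pull (snd _ _) S.v),
    odd_comm S.odd (T.snd_deg (X := S.Y) S.v_mem) (T.fst_deg (Y := S.Y) hy.1), neg_mul, mul_neg,
    mul_assoc, ← mul_assoc, ← map_mul, odd_sq S.odd hy.1, map_zero, zero_mul, neg_zero, map_zero]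

theorem tr_om_d3 (hy : y ∈ S.van) : T.tr _ (om4 S y *
    (at2 T (T.diag S.Y) (q1 S.Y) (q4 S.Y) * at2 T (T.diag S.Y) (q2 S.Y) (q3 S.Y))) =
      - T.tr S.Y (S.v * y) ^ 2 := by
  have h1 : S.v * y ∈ T.deg S.Y (2 * T.dim S.Y) :=
    T.deg_of_eq (T.mul_deg S.v_mem hy.1) (by omega)
  rw [tr_d3, pull_om4, mul_assoc, ← mul_assoc (T.pull (snd _ _) S.v), ← map_mul,
    T.even_comm (T.snd_deg (X := S.Y) h1), ← mul_assoc, ← map_mul, T.tr_prod, tr_swap_odd hy]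
  ring

/-- the restricted classes against `y v y v` -/
theorem tr_om_res (hy : y ∈ S.van) {ρ : T.H (X ⊗ (S.Y ⊗ (S.Y ⊗ S.Y)))}
    (hρ : ρ ∈ T.C (X ⊗ (S.Y ⊗ (S.Y ⊗ S.Y))) (2 * T.dim S.Y)) :
    T.tr _ (om4 S y * T.pull (rmap S.i (q1 S.Y) (q2 S.Y) (q3 S.Y) (q4 S.Y)) ρ) = 0 ∧
    T.tr _ (om4 S y * T.pull (rmap S.i (q2 S.Y) (q1 S.Y) (q3 S.Y) (q4 S.Y)) ρ) = 0 ∧
    T.tr _ (om4 S y * T.pull (rmap S.i (q3 S.Y) (q1 S.Y) (q2 S.Y) (q4 S.Y)) ρ) = 0 ∧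
    T.tr _ (om4 S y * T.pull (rmap S.i (q4 S.Y) (q1 S.Y) (q2 S.Y) (q3 S.Y)) ρ) = 0 := by
  have hv := S.v_van
  have hkc : ∀ (p q r s : (S.Y ⊗ S.Y) ⊗ (S.Y ⊗ S.Y) ⟶ S.Y), ∀ b,
      T.pull (rmap S.i p q r s) ρ * b = b * T.pull (rmap S.i p q r s) ρ := fun p q r s =>
    T.even_comm (T.C_deg _ _ (T.C_pull (rmap S.i p q r s) hρ))
  -- the general form
  have key : ∀ {p q r s : (S.Y ⊗ S.Y) ⊗ (S.Y ⊗ S.Y) ⟶ S.Y}, Good T p q r s →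
      ∀ {y1 : T.H S.Y}, y1 ∈ S.van → ∀ a b d : T.H S.Y,
      T.tr _ (T.pull p y1 * (T.pull q a * (T.pull r b * T.pull s d)) *
        T.pull (rmap S.i p q r s) ρ) = 0 := by
    intro p q r s h y1 hy1 a b d
    have h1 := tr_van h hy1 ρ (T.pull (fst _ _) a *
      T.pull (snd _ _) (T.pull (fst _ _) b * T.pull (snd _ _) d))
    have h2 : T.pull (lift q (lift r s)) (T.pull (fst _ _) a *
        T.pull (snd _ _) (T.pull (fst _ _) b * T.pull (snd _ _) d)) =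
        T.pull q a * (T.pull r b * T.pull s d) := by
      rw [map_mul, T.pull_comp', T.pull_comp', lift_fst, lift_snd, map_mul, T.pull_comp',
        T.pull_comp', lift_fst, lift_snd]
    rw [h2, mul_assoc, hkc, ← mul_assoc] at h1
    exact h1
  have hG := Good.base (T := T) S.Y
  have hy1 := T.pull_deg (q1 S.Y) hy.1
  have hy3 := T.pull_deg (q3 S.Y) hy.1
  have hv2 := T.pull_deg (q2 S.Y) hv.1
  have hv4 := T.pull_deg (q4 S.Y) hv.1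
  have h12 : T.pull (q1 S.Y) y * T.pull (q2 S.Y) S.v ∈
      T.deg ((S.Y ⊗ S.Y) ⊗ (S.Y ⊗ S.Y)) (2 * T.dim S.Y) :=
    T.deg_of_eq (T.mul_deg hy1 hv2) (by omega)
  unfold om4
  refine ⟨?_, ?_, ?_, ?_⟩
  · have h1 := key hG hy S.v y S.v
    rw [← mul_assoc (T.pull _ y)] at h1
    exact h1
  · have h1 := key hG.s1 hv y y S.v
    rw [← mul_assoc (T.pull _ S.v), odd_comm S.odd hv2 hy1, neg_mul, neg_mul, map_neg,
      neg_eq_zero] at h1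
    exact h1
  · have h1 := key hG.s2.s1 hy y S.v S.v
    rw [← mul_assoc (T.pull (q1 S.Y) y), ← mul_assoc (T.pull (q3 S.Y) y), ← T.even_comm h12,
      mul_assoc (T.pull (q1 S.Y) y * T.pull (q2 S.Y) S.v)] at h1
    exact h1
  · have h1 := key hG.s3.s2.s1 hv y S.v y
    rw [← mul_assoc (T.pull (q1 S.Y) y), ← mul_assoc (T.pull (q4 S.Y) S.v), ← T.even_comm h12,
      mul_assoc (_ * _) (T.pull (q4 S.Y) S.v), odd_comm S.odd hv4 hy3, mul_neg, neg_mul, map_neg,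
      neg_eq_zero] at h1
    exact h1

end Om

end K4

open K4

/-- **Block K4.** -/
theorem fourRel [CharZero K] {X : V} {c : T.H X} {S : Gen T c} (E : Idem S) : FourRel E := by
  intro κ hκ y hy
  -- the three functionals
  have hfst : T.pull (fst (S.Y ⊗ S.Y) (S.Y ⊗ S.Y)) E.e = at2 T E.e (q1 S.Y) (q2 S.Y) := by
    unfold at2
    congr 2
    ext <;> simp
  have hsnd : T.pull (snd (S.Y ⊗ S.Y) (S.Y ⊗ S.Y)) E.e = at2 T E.e (q3 S.Y) (q4 S.Y) := by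
    unfold at2
    congr 2
    ext <;> simp
  have hκc : ∀ b, κ * b = b * κ := T.even_comm (T.C_deg _ _ hκ)
  have f1 : T.tr (S.Y ⊗ S.Y)
      (T.act κ (T.pull (fst S.Y S.Y) y * T.pull (snd S.Y S.Y) S.v) *
        (T.pull (fst S.Y S.Y) y * T.pull (snd S.Y S.Y) S.v)) = T.tr _ (om4 S y * κ) := by
    rw [T.tr_act, map_mul (T.pull _), map_mul (T.pull _), T.pull_comp', T.pull_comp',
      T.pull_comp', T.pull_comp', mul_assoc, hκc, ← mul_assoc]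
    rfl
  have f2 : T.tr (S.Y ⊗ S.Y) (T.act κ E.e * E.e) =
      T.tr _ (at2 T E.e (q1 S.Y) (q2 S.Y) * at2 T E.e (q3 S.Y) (q4 S.Y) * κ) := by
    rw [T.tr_act, hfst, hsnd, mul_assoc, hκc, ← mul_assoc]
  have f3 : T.tr _ (κ * (at2 T E.e (q1 S.Y) (q4 S.Y) * at2 T E.e (q2 S.Y) (q3 S.Y))) =
      T.tr _ (at2 T E.e (q1 S.Y) (q4 S.Y) * at2 T E.e (q2 S.Y) (q3 S.Y) * κ) := by
    rw [hκc]
  rw [f1, f2, f3]
  obtain ⟨s1, s2, s3, ρ1, h1, ρ2, h2, ρ3, h3, ρ4, h4, hdec⟩ := S.four κ hκ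
  have hG := Good.base (T := T) S.Y
  have hcc : ∀ (p q r s : (S.Y ⊗ S.Y) ⊗ (S.Y ⊗ S.Y) ⟶ S.Y) (b : T.H _),
      at2 T E.e p q * at2 T E.e r s * b = b * (at2 T E.e p q * at2 T E.e r s) := by
    intro p q r s b
    rw [mul_assoc, at2_comm E r s, ← mul_assoc, at2_comm E p q, mul_assoc]
  have hcomm : ∀ (p q r s : (S.Y ⊗ S.Y) ⊗ (S.Y ⊗ S.Y) ⟶ S.Y),
      at2 T E.e p q * at2 T E.e r s = at2 T E.e r s * at2 T E.e p q := fun p q r s =>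
    at2_comm E p q _
  have r1 := tr_res_all E hG h1
  have r2 := tr_res_all E hG.s1 h2
  have r3 := tr_res_all E hG.s2.s1 h3
  have r4 := tr_res_all E hG.s3.s2.s1 h4
  have g1 : T.tr _ (om4 S y * κ) = T.tr S.Y (S.v * y) ^ 2 * (s1 - s3) := by
    rw [hdec]
    simp only [mul_add, map_add, mul_smul_comm, map_smul, smul_eq_mul]
    rw [tr_om_d1 hy, tr_om_d2 hy, tr_om_d3 hy, (tr_om_res hy h1).1, (tr_om_res hy h2).2.1,
      (tr_om_res hy h3).2.2.1, (tr_om_res hy h4).2.2.2]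
    ring
  have g2 : T.tr _ (at2 T E.e (q1 S.Y) (q2 S.Y) * at2 T E.e (q3 S.Y) (q4 S.Y) * κ) =
      E.t ^ 2 * s1 + E.t * s2 + E.t * s3 := by
    rw [hdec]
    simp only [mul_add, map_add, mul_smul_comm, map_smul, smul_eq_mul]
    have e2 := r2.1
    rw [at2_symm E (q1 S.Y) (q2 S.Y)] at e2
    have e3 := r3.2.2
    rw [hcomm] at e3
    have e4 := r4.2.2
    rw [hcomm, at2_symm E (q3 S.Y) (q4 S.Y)] at e4
    rw [(tr_e2 E).1, (tr_e2 E).2.1, (tr_e2 E).2.2, hcc _ _ _ _ (T.pull _ ρ1),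
      hcc _ _ _ _ (T.pull _ ρ2), hcc _ _ _ _ (T.pull _ ρ3), hcc _ _ _ _ (T.pull _ ρ4), r1.1,
      e2, e3, e4]
    ring
  have g3 : T.tr _ (at2 T E.e (q1 S.Y) (q4 S.Y) * at2 T E.e (q2 S.Y) (q3 S.Y) * κ) =
      E.t * s1 + E.t * s2 + E.t ^ 2 * s3 := by
    rw [hdec]
    simp only [mul_add, map_add, mul_smul_comm, map_smul, smul_eq_mul]
    have e2 := r2.2.1
    rw [hcomm] at e2
    have e3 := r3.2.1
    rw [hcomm, at2_symm E (q2 S.Y) (q3 S.Y)] at e3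
    have e4 := r4.1
    rw [at2_symm E (q1 S.Y) (q4 S.Y)] at e4
    rw [(tr_e3 E).1, (tr_e3 E).2.1, (tr_e3 E).2.2, hcc _ _ _ _ (T.pull _ ρ1),
      hcc _ _ _ _ (T.pull _ ρ2), hcc _ _ _ _ (T.pull _ ρ3), hcc _ _ _ _ (T.pull _ ρ4), r1.2.2,
      e2, e3, e4]
    ring
  rw [g1, g2, g3]
  ring

end Pool.NP
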