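import Pool.Agent.Work.MP_a60482_np.Pow
import Pool.Agent.Work.MP_a60482_np.Proj
import Pool.Agent.Work.MP_a60482_np.Ctr

/-!
Nilpotence of numerically trivial correspondences, block FZ: the symmetrized class is
numerically trivial.
-/

open CategoryTheory MonoidalCategory CartesianMonoidalCategory

universe u v w x b

namespace Pool.NP

open Pool.KC Pool.Std

variable {V : Type u} [Category.{v} V] [CartesianMonoidalCategory V] {K : Type x} [Field K]
variable {T : WeilTheory.{u, v, w, x} V K}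

section Sec

variable {X : V} {c : T.H X}

theorem stdM_mem {S : Gen T c} (E : Idem S) : ∀ n k : ℕ, 2 * k = n * T.dim S.Y →
    stdM E n ∈ T.C (pow S.Y n) k
  | 0, k, hk => by
    have hk0 : k = 0 := by omega
    rw [hk0]
    exact T.C_one _
  | 1, k, _ => (T.C (pow S.Y 1) k).zero_mem
  | n + 2, k, hk => by
    have h1 : (n + 2) * T.dim S.Y = n * T.dim S.Y + 2 * T.dim S.Y := by ring
    rw [h1] at hk
    have ih := stdM_mem E n (k - T.dim S.Y) (by omega)
    have h2 := T.C_mul (T.C_pull (lift (fst S.Y (S.Y ⊗ pow S.Y n))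
      (snd S.Y (S.Y ⊗ pow S.Y n) ≫ fst S.Y (pow S.Y n))) E.mem)
      (T.C_pull (snd S.Y (S.Y ⊗ pow S.Y n) ≫ snd S.Y (pow S.Y n)) ih)
    rw [show T.dim S.Y + (k - T.dim S.Y) = k by omega] at h2
    exact h2

theorem symM_mem {S : Gen T c} (E : Idem S) {n k : ℕ} (hk : 2 * k = n * T.dim S.Y) :
    symM E n ∈ T.C (pow S.Y n) k :=
  sum_mem fun _ _ => T.C_pull _ (stdM_mem E n k hk)

theorem Pi_stdM {S : Gen T c} (E : Idem S) : ∀ n : ℕ, Pi E n (stdM E n) = stdM E n
  | 0 => Pi_zero E _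
  | 1 => map_zero (Pi E 1)
  | n + 2 => by
    show Pi E (n + 2) (ebox E (pow S.Y n) (stdM E n)) = ebox E (pow S.Y n) (stdM E n)
    rw [Pi_ebox, Pi_stdM E n]

theorem Pi_symM {S : Gen T c} (E : Idem S) (n : ℕ) : Pi E n (symM E n) = symM E n := by
  unfold symM
  rw [map_sum]
  refine Finset.sum_congr rfl fun σ _ => ?_
  rw [Pi_perm, Pi_stdM]

/-- sums over all permutations are invariant -/
theorem pull_perm_sum {Y : V} {n : ℕ} (τ : Equiv.Perm (Fin n)) (y : T.H (pow Y n)) :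
    T.pull (perm Y τ) (∑ σ : Equiv.Perm (Fin n), T.pull (perm Y σ) y) =
      ∑ σ : Equiv.Perm (Fin n), T.pull (perm Y σ) y := by
  rw [map_sum]
  refine Fintype.sum_equiv (Equiv.mulLeft τ) _ _ fun σ => ?_
  rw [Equiv.coe_mulLeft, pull_perm_mul]

theorem tr_stdM_mul {S : Gen T c} (E : Idem S) : ∀ (n : ℕ) (z : T.H (pow S.Y n)),
    T.tr _ (stdM E n * z) = full E n z
  | 0, z => by
    show T.tr _ (1 * z) = T.tr _ z
    rw [one_mul]
  | 1, z => by
    show T.tr (pow S.Y 1) ((0 : T.H (pow S.Y 1)) * z) = 0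
    rw [zero_mul]
    exact (T.tr (pow S.Y 1)).map_zero
  | n + 2, z => by
    have h1 := tr_ebox E (pow S.Y n) (stdM E n) z
    have h2 := tr_stdM_mul E n (ctr E (pow S.Y n) z)
    exact h1.trans h2

theorem tr_symM_eq_zero [CharZero K] {S : Gen T c} (E : Idem S) {n k : ℕ}
    (hk : 2 * k = n * T.dim S.Y)
    (h0 : ∀ γ, IsSym E n γ → full E n γ = 0) (g : T.H (pow S.Y n)) (hg : g ∈ T.C (pow S.Y n) k) :
    T.tr _ (symM E n * g) = 0 := by
  set γ : T.H (pow S.Y n) := ∑ σ : Equiv.Perm (Fin n), T.pull (perm S.Y σ) (Pi E n g) with hγ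
  have hs : ∀ τ : Equiv.Perm (Fin n), T.pull (perm S.Y τ) (symM E n) = symM E n := fun τ =>
    pull_perm_sum τ _
  have hsym : IsSym E n γ := by
    refine ⟨⟨k, hk, ?_⟩, fun τ => pull_perm_sum τ _, ?_⟩
    · exact sum_mem fun σ _ => T.C_pull _ (Pi_mem E hg)
    · rw [hγ, map_sum]
      refine Finset.sum_congr rfl fun σ _ => ?_
      rw [Pi_perm, Pi_Pi]
  have h1 : T.tr _ (symM E n * γ) =
      (Fintype.card (Equiv.Perm (Fin n)) : K) * T.tr _ (symM E n * Pi E n g) := by
    rw [hγ, Finset.mul_sum, map_sum]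
    have : ∀ σ ∈ (Finset.univ : Finset (Equiv.Perm (Fin n))),
        T.tr _ (symM E n * T.pull (perm S.Y σ) (Pi E n g)) = T.tr _ (symM E n * Pi E n g) := by
      intro σ _
      have e : symM E n * T.pull (perm S.Y σ) (Pi E n g) =
          T.pull (perm S.Y σ) (symM E n * Pi E n g) := by
        rw [map_mul (T.pull _), hs σ]
      rw [e, tr_perm]
    rw [Finset.sum_congr rfl this, Finset.sum_const, nsmul_eq_mul, Finset.card_univ]
  have h2 : T.tr _ (symM E n * γ) = 0 := by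
    have e : symM E n * γ = ∑ σ : Equiv.Perm (Fin n), T.pull (perm S.Y σ) (stdM E n) * γ := by
      unfold symM
      rw [Finset.sum_mul]
    rw [e, map_sum]
    refine Finset.sum_eq_zero fun σ _ => ?_
    rw [tr_perm_mul, hsym.symm, tr_stdM_mul, h0 γ hsym]
  have h3 : T.tr _ (symM E n * Pi E n g) = 0 := by
    rw [h1] at h2
    rcases mul_eq_zero.1 h2 with h | h
    · exact absurd h (Nat.cast_ne_zero.2 Fintype.card_ne_zero)
    · exact h
  rw [← Pi_symM E n, tr_Pi]
  exact h3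

end Sec

end Pool.NP
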