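import Pool.Agent.Work.MP_a60482_np.Defs

/-!
Nilpotence of numerically trivial correspondences, block GLUE: classes on `Y^(b + a)` as
correspondences from `Y^a` to `Y^b`.
-/

open CategoryTheory MonoidalCategory CartesianMonoidalCategory

universe u v w x b

namespace Pool.NP

open Pool.KC Pool.Std

section Unglue

variable {V : Type u} [Category.{v} V] [CartesianMonoidalCategory V]

/-- the inverse of `glue` -/
def unglue (Y : V) (b : ℕ) : (a : ℕ) → (pow Y (b + a) ⟶ pow Y a ⊗ pow Y b)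
  | 0 => lift (toUnit (pow Y b)) (𝟙 (pow Y b))
  | a + 1 => lift (lift (fst Y (pow Y (b + a)))
      (snd Y (pow Y (b + a)) ≫ unglue Y b a ≫ fst (pow Y a) (pow Y b)))
      (snd Y (pow Y (b + a)) ≫ unglue Y b a ≫ snd (pow Y a) (pow Y b))

theorem glue_unglue (Y : V) (b : ℕ) : ∀ a : ℕ, glue Y b a ≫ unglue Y b a = 𝟙 _
  | 0 => by
    apply CartesianMonoidalCategory.hom_ext
    · exact toUnit_unique _ _
    · show (snd (pow Y 0) (pow Y b) ≫ lift (toUnit (pow Y b)) (𝟙 (pow Y b))) ≫ snd (𝟙_ V) (pow Y b) =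
        𝟙 (𝟙_ V ⊗ pow Y b) ≫ snd (𝟙_ V) (pow Y b)
      rw [Category.assoc, lift_snd, Category.comp_id, Category.id_comp]
      rfl
  | a + 1 => by
    have ih := glue_unglue Y b a
    show lift (fst (Y ⊗ pow Y a) (pow Y b) ≫ fst Y (pow Y a))
      (lift (fst (Y ⊗ pow Y a) (pow Y b) ≫ snd Y (pow Y a)) (snd (Y ⊗ pow Y a) (pow Y b)) ≫
        glue Y b a) ≫ lift (lift (fst Y (pow Y (b + a)))
      (snd Y (pow Y (b + a)) ≫ unglue Y b a ≫ fst (pow Y a) (pow Y b)))
      (snd Y (pow Y (b + a)) ≫ unglue Y b a ≫ snd (pow Y a) (pow Y b)) =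
        𝟙 ((Y ⊗ pow Y a) ⊗ pow Y b)
    have h : ∀ (f : pow Y a ⊗ pow Y b ⟶ pow Y a), glue Y b a ≫ unglue Y b a ≫ f = f := by
      intro f; rw [← Category.assoc, ih, Category.id_comp]
    have h' : ∀ (f : pow Y a ⊗ pow Y b ⟶ pow Y b), glue Y b a ≫ unglue Y b a ≫ f = f := by
      intro f; rw [← Category.assoc, ih, Category.id_comp]
    apply CartesianMonoidalCategory.hom_ext
    · rw [Category.assoc, lift_fst, Category.id_comp]
      apply CartesianMonoidalCategory.hom_ext
      · rw [Category.assoc, lift_fst, lift_fst]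
      · rw [Category.assoc, lift_snd, lift_snd_assoc, Category.assoc, h, lift_fst]
    · rw [Category.assoc, lift_snd, lift_snd_assoc, Category.assoc, h', lift_snd, Category.id_comp]

theorem unglue_glue (Y : V) (b : ℕ) : ∀ a : ℕ, unglue Y b a ≫ glue Y b a = 𝟙 _
  | 0 => by
    show lift (toUnit (pow Y b)) (𝟙 (pow Y b)) ≫ snd (𝟙_ V) (pow Y b) = 𝟙 _
    rw [lift_snd]
  | a + 1 => by
    have ih := unglue_glue Y b a
    show lift (lift (fst Y (pow Y (b + a)))
      (snd Y (pow Y (b + a)) ≫ unglue Y b a ≫ fst (pow Y a) (pow Y b)))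
      (snd Y (pow Y (b + a)) ≫ unglue Y b a ≫ snd (pow Y a) (pow Y b)) ≫
      lift (fst (Y ⊗ pow Y a) (pow Y b) ≫ fst Y (pow Y a))
      (lift (fst (Y ⊗ pow Y a) (pow Y b) ≫ snd Y (pow Y a)) (snd (Y ⊗ pow Y a) (pow Y b)) ≫
        glue Y b a) = 𝟙 (Y ⊗ pow Y (b + a))
    apply CartesianMonoidalCategory.hom_ext
    · rw [Category.assoc, lift_fst, lift_fst_assoc, lift_fst, Category.id_comp]
    · rw [Category.assoc, lift_snd, Category.id_comp]
      have e : lift (lift (fst Y (pow Y (b + a)))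
        (snd Y (pow Y (b + a)) ≫ unglue Y b a ≫ fst (pow Y a) (pow Y b)))
        (snd Y (pow Y (b + a)) ≫ unglue Y b a ≫ snd (pow Y a) (pow Y b)) ≫
        lift (fst (Y ⊗ pow Y a) (pow Y b) ≫ snd Y (pow Y a)) (snd (Y ⊗ pow Y a) (pow Y b)) =
        snd Y (pow Y (b + a)) ≫ unglue Y b a := by
        apply CartesianMonoidalCategory.hom_ext
        · rw [Category.assoc, lift_fst, lift_fst_assoc, lift_snd, Category.assoc]
        · rw [Category.assoc, lift_snd, lift_snd, Category.assoc]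
      rw [← Category.assoc, e, Category.assoc, ih, Category.comp_id]

end Unglue

variable {V : Type u} [Category.{v} V] [CartesianMonoidalCategory V] {K : Type x} [Field K]
variable {T : WeilTheory.{u, v, w, x} V K}

theorem tens_deg {Y : V} {j : ℕ} {z : T.H Y} (hz : z ∈ T.deg Y (2 * j)) :
    ∀ n : ℕ, tens T z n ∈ T.deg (pow Y n) (2 * (n * j))
  | 0 => by
    rw [Nat.zero_mul, Nat.mul_zero]
    exact T.one_deg
  | n + 1 => by
    have h := T.mul_deg (T.fst_deg (Y := pow Y n) hz) (T.snd_deg (X := Y) (tens_deg hz n))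
    have e : 2 * j + 2 * (n * j) = 2 * ((n + 1) * j) := by ring
    rw [e] at h
    exact h

/-- one slot -/
theorem act_slot {Y A B W : V} {l : ℕ} {z : T.H Y} {x : T.H A} (hx : x ∈ T.deg A (2 * l))
    (g : A ⊗ B ⟶ W) (y : T.H (Y ⊗ W)) :
    T.act (X := Y ⊗ A) (Y := B)
      (T.pull (lift (fst (Y ⊗ A) B ≫ fst Y A)
        (lift (fst (Y ⊗ A) B ≫ snd Y A) (snd (Y ⊗ A) B) ≫ g)) y)
      (T.pull (fst Y A) z * T.pull (snd Y A) x) =
    T.act (X := A) (Y := B) (T.pull g (iota T W z y)) x := by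
  refine T.kind (P := fun y => T.act (X := Y ⊗ A) (Y := B)
      (T.pull (lift (fst (Y ⊗ A) B ≫ fst Y A)
        (lift (fst (Y ⊗ A) B ≫ snd Y A) (snd (Y ⊗ A) B) ≫ g)) y)
      (T.pull (fst Y A) z * T.pull (snd Y A) x) =
    T.act (X := A) (Y := B) (T.pull g (iota T W z y)) x) (by simp [T.act_zero]) ?_ ?_ y
  · intro p q
    have e1 : iota T W z (T.pull (fst Y W) p * T.pull (snd Y W) q) = T.tr Y (z * p) • q := by
      show T.push Y W (T.pull (fst Y W) z * (T.pull (fst Y W) p * T.pull (snd Y W) q)) = _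
      rw [← mul_assoc, ← map_mul, T.push_pure]
    rw [e1, map_smul, T.act_smul, LinearMap.smul_apply, map_mul (T.pull _), T.pull_comp', T.pull_comp',
      lift_fst, lift_snd, T.pull_comp _ g]
    refine T.kind (P := fun t => T.act (X := Y ⊗ A) (Y := B)
      (T.pull (fst (Y ⊗ A) B ≫ fst Y A) p *
        T.pull (lift (fst (Y ⊗ A) B ≫ snd Y A) (snd (Y ⊗ A) B)) t)
      (T.pull (fst Y A) z * T.pull (snd Y A) x) = T.tr Y (z * p) • T.act (X := A) (Y := B) t x)
      (by simp [T.act_zero]) ?_ ?_ (T.pull g q)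
    · intro r s
      rw [T.act_pure, map_mul (T.pull _), T.pull_comp', T.pull_comp', lift_fst, lift_snd, T.act_apply,
        T.pull_comp (fst (Y ⊗ A) B) (fst Y A), T.pull_comp (fst (Y ⊗ A) B) (snd Y A)]
      have e2 : T.pull (fst (Y ⊗ A) B) (T.pull (fst Y A) z * T.pull (snd Y A) x) *
          (T.pull (fst (Y ⊗ A) B) (T.pull (fst Y A) p) *
            (T.pull (fst (Y ⊗ A) B) (T.pull (snd Y A) r) * T.pull (snd (Y ⊗ A) B) s)) =
          T.pull (fst (Y ⊗ A) B) (T.pull (fst Y A) (z * p) * T.pull (snd Y A) (x * r)) *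
            T.pull (snd (Y ⊗ A) B) s := by
        have hc : T.pull (snd Y A) x * T.pull (fst Y A) p =
            T.pull (fst Y A) p * T.pull (snd Y A) x :=
          T.even_comm (T.snd_deg (X := Y) hx) _
        have hc2 : T.pull (fst Y A) (z * p) * T.pull (snd Y A) (x * r) =
            T.pull (fst Y A) z * T.pull (snd Y A) x * T.pull (fst Y A) p *
              T.pull (snd Y A) r := by
          rw [map_mul, map_mul]
          calc _ = T.pull (fst Y A) z * (T.pull (fst Y A) p * T.pull (snd Y A) x) *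
                T.pull (snd Y A) r := by simp only [mul_assoc]
            _ = _ := by rw [← hc]; simp only [mul_assoc]
        rw [hc2]
        simp only [map_mul, mul_assoc]
      rw [e2, T.push_pure, T.tr_prod, smul_smul]
    · intro t t' h1 h2
      rw [map_add, mul_add, T.act_add, T.act_add, LinearMap.add_apply, LinearMap.add_apply, h1, h2,
        smul_add]
  · intro y y' h1 h2
    rw [map_add, T.act_add, LinearMap.add_apply, h1, h2, map_add, map_add, T.act_add,
      LinearMap.add_apply]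

/-- a class on `Y^(b + a)` as a correspondence from `Y^a` to `Y^b` -/
theorem act_glue {Y : V} {j : ℕ} {z : T.H Y} (hz : z ∈ T.deg Y (2 * j)) (b : ℕ) :
    ∀ (a : ℕ) (y : T.H (pow Y (b + a))),
      T.act (T.pull (glue Y b a) y) (tens T z a) = iotas T z b a y
  | 0, y => by
    show T.act (X := 𝟙_ V) (Y := pow Y b) (T.pull (snd (𝟙_ V) (pow Y b)) y) 1 = y
    by_cases hy : y = 0
    · rw [hy, map_zero, T.act_zero, LinearMap.zero_apply]
    · obtain ⟨q, hq⟩ := T.exists_tr_ne hy
      have h1 := T.act_pure (X := 𝟙_ V) (Y := pow Y b) 1 y 1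
      rw [map_one (T.pull _), one_mul, mul_one, T.tr_unit hq, one_smul] at h1
      exact h1
  | a + 1, y => by
    have ih := act_glue hz b a (iota T (pow Y (b + a)) z y)
    have h := act_slot (T := T) (z := z) (tens_deg hz a) (glue Y b a) y
    exact h.trans ih

/-- classes on `Y^a × Y^b` are the pull-backs of the classes on `Y^(b + a)` -/
theorem exists_glue {Y : V} (b a k : ℕ) (y : T.H (pow Y a ⊗ pow Y b))
    (hy : y ∈ T.C (pow Y a ⊗ pow Y b) k) :
    ∃ g ∈ T.C (pow Y (b + a)) k, T.pull (glue Y b a) g = y := by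
  refine ⟨T.pull (unglue Y b a) y, T.C_pull _ hy, ?_⟩
  rw [← T.pull_comp, glue_unglue, T.pull_id]

theorem tr_glue {Y : V} (b a : ℕ) (y : T.H (pow Y (b + a))) :
    T.tr _ (T.pull (glue Y b a) y) = T.tr _ y :=
  T.tr_iso ⟨glue Y b a, unglue Y b a, glue_unglue Y b a, unglue_glue Y b a⟩ y

end Pool.NP
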