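import Pool.Agent.Work.MP_a60482_np.Pow

/-!
The recursion for the symmetrization of `e × e × ⋯ × e`.
-/

open CategoryTheory MonoidalCategory CartesianMonoidalCategory

universe u v w x b

namespace Pool.NP

open Pool.KC Pool.Std

variable {V : Type u} [Category.{v} V] [CartesianMonoidalCategory V] {K : Type x} [Field K]
variable {T : WeilTheory.{u, v, w, x} V K}
variable {X : V} {c : T.H X}

namespace StabAux

theorem pr_zero (Y : V) (n : ℕ) : pr Y (n + 1) 0 = fst Y (pow Y n) := rfl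

theorem pr_succ (Y : V) (n : ℕ) (i : Fin n) : pr Y (n + 1) i.succ = snd Y (pow Y n) ≫ pr Y n i := rfl

theorem up_zero {n : ℕ} (σ : Equiv.Perm (Fin n)) : up σ 0 = 0 := by
  simp [up]

theorem up_succ {n : ℕ} (σ : Equiv.Perm (Fin n)) (i : Fin n) : up σ i.succ = (σ i).succ := by
  simp [up]

theorem ebox_apply {S : Gen T c} (E : Idem S) (W : V) (y : T.H W) :
    ebox E W y = T.pull (lift (fst S.Y (S.Y ⊗ W)) (snd S.Y (S.Y ⊗ W) ≫ fst S.Y W)) E.e *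
      T.pull (snd S.Y (S.Y ⊗ W) ≫ snd S.Y W) y := rfl

/-- pull-back of `e × y` -/
theorem pull_ebox {S : Gen T c} (E : Idem S) {W W' : V} (p : S.Y ⊗ (S.Y ⊗ W') ⟶ S.Y ⊗ (S.Y ⊗ W))
    (s : S.Y ⊗ S.Y ⟶ S.Y ⊗ S.Y) (g : W' ⟶ W) (hs : T.pull s E.e = E.e)
    (h1 : p ≫ lift (fst S.Y (S.Y ⊗ W)) (snd S.Y (S.Y ⊗ W) ≫ fst S.Y W) =
      lift (fst S.Y (S.Y ⊗ W')) (snd S.Y (S.Y ⊗ W') ≫ fst S.Y W') ≫ s)
    (h2 : p ≫ snd S.Y (S.Y ⊗ W) ≫ snd S.Y W = (snd S.Y (S.Y ⊗ W') ≫ snd S.Y W') ≫ g)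
    (y : T.H W) : T.pull p (ebox E W y) = ebox E W' (T.pull g y) := by
  rw [ebox_apply, ebox_apply, map_mul, ← T.pull_comp, ← T.pull_comp, ← T.pull_comp, h1, h2,
    T.pull_comp _ s, hs]

theorem pull_ebox_up {S : Gen T c} (E : Idem S) {W W' : V} (g : W' ⟶ W) (y : T.H W) :
    T.pull (lift (fst S.Y (S.Y ⊗ W')) (snd S.Y (S.Y ⊗ W') ≫ lift (fst S.Y W') (snd S.Y W' ≫ g)))
      (ebox E W y) = ebox E W' (T.pull g y) := by
  refine pull_ebox E _ (𝟙 _) g (T.pull_id _ _) ?_ ?_ y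
  · apply CartesianMonoidalCategory.hom_ext <;> simp
  · simp

theorem pull_ebox_swap {S : Gen T c} (E : Idem S) (W : V) (y : T.H W) :
    T.pull (lift (snd S.Y (S.Y ⊗ W) ≫ fst S.Y W)
      (lift (fst S.Y (S.Y ⊗ W)) (snd S.Y (S.Y ⊗ W) ≫ snd S.Y W))) (ebox E W y) = ebox E W y := by
  have h := pull_ebox E (lift (snd S.Y (S.Y ⊗ W) ≫ fst S.Y W)
      (lift (fst S.Y (S.Y ⊗ W)) (snd S.Y (S.Y ⊗ W) ≫ snd S.Y W))) (lift (snd S.Y S.Y) (fst S.Y S.Y))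
      (𝟙 W) E.symm ?_ ?_ y
  · rwa [T.pull_id] at h
  · apply CartesianMonoidalCategory.hom_ext <;> simp
  · simp

/-- `up (up θ)` acts on the last factors -/
theorem pull_up_up {S : Gen T c} (E : Idem S) {n : ℕ} (θ : Equiv.Perm (Fin n))
    (y : T.H (pow S.Y n)) :
    T.pull (perm S.Y (up (up θ))) (ebox E (pow S.Y n) y) =
      ebox E (pow S.Y n) (T.pull (perm S.Y θ) y) := by
  have h : perm S.Y (up (up θ)) = lift (fst S.Y (S.Y ⊗ pow S.Y n)) (snd S.Y (S.Y ⊗ pow S.Y n) ≫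
      lift (fst S.Y (pow S.Y n)) (snd S.Y (pow S.Y n) ≫ perm S.Y θ)) := by
    rw [perm_up, perm_up]
    rfl
  rw [h]
  exact pull_ebox_up E (perm S.Y θ) y

/-- `e` is symmetric -/
theorem pull_swap {S : Gen T c} (E : Idem S) (n : ℕ) (y : T.H (pow S.Y n)) :
    T.pull (perm S.Y (Equiv.swap (0 : Fin (n + 2)) 1)) (ebox E (pow S.Y n) y) =
      ebox E (pow S.Y n) y := by
  rw [perm_swap]
  exact pull_ebox_swap E (pow S.Y n) y

/-- the exchange of the first two pairs of factors -/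
def dbl (n : ℕ) : Equiv.Perm (Fin (n + 2 + 2)) :=
  Equiv.swap 0 (Fin.succ (Fin.succ 0)) * Equiv.swap (Fin.succ 0) (Fin.succ (Fin.succ (Fin.succ 0)))

theorem zero_ne_succ' {m : ℕ} (k : Fin m) : (0 : Fin (m + 1)) ≠ k.succ := (Fin.succ_ne_zero k).symm

theorem dbl_0 (n : ℕ) : dbl n 0 = Fin.succ (Fin.succ 0) := by
  simp only [dbl, Equiv.Perm.mul_apply, Equiv.swap_apply_def, zero_ne_succ', if_true, if_false]

theorem dbl_1 (n : ℕ) : dbl n (Fin.succ 0) = Fin.succ (Fin.succ (Fin.succ 0)) := by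
  simp only [dbl, Equiv.Perm.mul_apply, Equiv.swap_apply_def, Fin.succ_inj, Fin.succ_ne_zero,
    if_true, if_false]

theorem dbl_2 (n : ℕ) : dbl n (Fin.succ (Fin.succ 0)) = 0 := by
  simp only [dbl, Equiv.Perm.mul_apply, Equiv.swap_apply_def, Fin.succ_inj, Fin.succ_ne_zero,
    zero_ne_succ', if_true, if_false]

theorem dbl_3 (n : ℕ) : dbl n (Fin.succ (Fin.succ (Fin.succ 0))) = Fin.succ 0 := by
  simp only [dbl, Equiv.Perm.mul_apply, Equiv.swap_apply_def, Fin.succ_inj, Fin.succ_ne_zero,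
    zero_ne_succ', if_true, if_false]

theorem dbl_4 (n : ℕ) (i : Fin n) :
    dbl n (Fin.succ (Fin.succ (Fin.succ (Fin.succ i)))) =
      Fin.succ (Fin.succ (Fin.succ (Fin.succ i))) := by
  simp only [dbl, Equiv.Perm.mul_apply, Equiv.swap_apply_def, Fin.succ_inj, Fin.succ_ne_zero,
    if_false]

theorem pull_dbl_gen {S : Gen T c} (E : Idem S) (W : V) (y : T.H W) :
    T.pull (lift (snd S.Y (S.Y ⊗ (S.Y ⊗ (S.Y ⊗ W))) ≫ snd S.Y (S.Y ⊗ (S.Y ⊗ W)) ≫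
        fst S.Y (S.Y ⊗ W))
      (lift (snd S.Y (S.Y ⊗ (S.Y ⊗ (S.Y ⊗ W))) ≫ snd S.Y (S.Y ⊗ (S.Y ⊗ W)) ≫
        snd S.Y (S.Y ⊗ W) ≫ fst S.Y W)
      (lift (fst S.Y (S.Y ⊗ (S.Y ⊗ (S.Y ⊗ W))))
      (lift (snd S.Y (S.Y ⊗ (S.Y ⊗ (S.Y ⊗ W))) ≫ fst S.Y (S.Y ⊗ (S.Y ⊗ W)))
        (snd S.Y (S.Y ⊗ (S.Y ⊗ (S.Y ⊗ W))) ≫ snd S.Y (S.Y ⊗ (S.Y ⊗ W)) ≫
        snd S.Y (S.Y ⊗ W) ≫ snd S.Y W)))))
      (ebox E (S.Y ⊗ (S.Y ⊗ W)) (ebox E W y)) = ebox E (S.Y ⊗ (S.Y ⊗ W)) (ebox E W y) := by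
  simp only [ebox_apply, map_mul, ← T.pull_comp]
  rw [← mul_assoc, ← mul_assoc]
  have h0 : ∀ {Z : V} (a b : T.H Z), a ∈ T.deg Z (2 * T.dim S.Y) → b ∈ T.deg Z (2 * T.dim S.Y) →
      a * b = b * a := by
    intro Z a b ha hb
    rw [T.comm ha hb, Even.neg_one_pow, one_mul]
    exact Even.mul_right (even_two_mul _) _
  have he : E.e ∈ T.deg (S.Y ⊗ S.Y) (2 * T.dim S.Y) := T.C_deg _ _ E.mem
  congr 1
  · rw [h0 _ _ (T.pull_deg _ he) (T.pull_deg _ he)]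
    congr 2
    · congr 1
      apply CartesianMonoidalCategory.hom_ext <;> simp
    · congr 1
      apply CartesianMonoidalCategory.hom_ext <;> simp
  · congr 2
    simp

theorem perm_dbl (Y : V) (n : ℕ) : perm Y (dbl n) =
    (lift (snd Y (Y ⊗ (Y ⊗ (Y ⊗ pow Y n))) ≫ snd Y (Y ⊗ (Y ⊗ pow Y n)) ≫
        fst Y (Y ⊗ pow Y n))
      (lift (snd Y (Y ⊗ (Y ⊗ (Y ⊗ pow Y n))) ≫ snd Y (Y ⊗ (Y ⊗ pow Y n)) ≫
        snd Y (Y ⊗ pow Y n) ≫ fst Y (pow Y n))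
      (lift (fst Y (Y ⊗ (Y ⊗ (Y ⊗ pow Y n))))
      (lift (snd Y (Y ⊗ (Y ⊗ (Y ⊗ pow Y n))) ≫ fst Y (Y ⊗ (Y ⊗ pow Y n)))
        (snd Y (Y ⊗ (Y ⊗ (Y ⊗ pow Y n))) ≫ snd Y (Y ⊗ (Y ⊗ pow Y n)) ≫
        snd Y (Y ⊗ pow Y n) ≫ snd Y (pow Y n))))) :
        Y ⊗ (Y ⊗ (Y ⊗ (Y ⊗ pow Y n))) ⟶ Y ⊗ (Y ⊗ (Y ⊗ (Y ⊗ pow Y n)))) := by
  have h1 : perm Y (dbl n) = lift (pr Y (n + 2 + 2) (dbl n 0))
      (lift (pr Y (n + 2 + 2) (dbl n (Fin.succ 0)))
        (lift (pr Y (n + 2 + 2) (dbl n (Fin.succ (Fin.succ 0))))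
          (lift (pr Y (n + 2 + 2) (dbl n (Fin.succ (Fin.succ (Fin.succ 0)))))
            (tup n fun i => pr Y (n + 2 + 2)
              (dbl n (Fin.succ (Fin.succ (Fin.succ (Fin.succ i)))))))))  := rfl
  have h2 : (tup n fun i => pr Y (n + 2 + 2)
      (dbl n (Fin.succ (Fin.succ (Fin.succ (Fin.succ i)))))) =
      snd Y (Y ⊗ (Y ⊗ (Y ⊗ pow Y n))) ≫ snd Y (Y ⊗ (Y ⊗ pow Y n)) ≫
        snd Y (Y ⊗ pow Y n) ≫ snd Y (pow Y n) := by
    apply pow_ext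
    intro i
    rw [tup_pr, dbl_4]
    have h3 : (snd Y (Y ⊗ (Y ⊗ (Y ⊗ pow Y n))) ≫ snd Y (Y ⊗ (Y ⊗ pow Y n)) ≫
        snd Y (Y ⊗ pow Y n) ≫ snd Y (pow Y n)) ≫ pr Y n i =
        snd Y (Y ⊗ (Y ⊗ (Y ⊗ pow Y n))) ≫ snd Y (Y ⊗ (Y ⊗ pow Y n)) ≫
        snd Y (Y ⊗ pow Y n) ≫ snd Y (pow Y n) ≫ pr Y n i := by simp only [Category.assoc]
    exact h3.symm
  rw [h1, h2, dbl_0, dbl_1, dbl_2, dbl_3]
  rfl

theorem pull_dbl {S : Gen T c} (E : Idem S) (n : ℕ) :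
    T.pull (perm S.Y (dbl n)) (stdM E (n + 2 + 2)) = stdM E (n + 2 + 2) := by
  rw [perm_dbl]
  exact pull_dbl_gen E (pow S.Y n) (stdM E n)

/-- the stabilizer of `e × ⋯ × e` -/
def stab {S : Gen T c} (E : Idem S) (n : ℕ) : Subgroup (Equiv.Perm (Fin n)) where
  carrier := {θ | T.pull (perm S.Y θ) (stdM E n) = stdM E n}
  mul_mem' := by
    intro a b ha hb
    change T.pull (perm S.Y (a * b)) (stdM E n) = stdM E n
    rw [pull_perm_mul]
    exact (congrArg (T.pull (perm S.Y a)) hb).trans ha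
  one_mem' := by
    change T.pull (perm S.Y 1) (stdM E n) = stdM E n
    rw [perm_one, T.pull_id]
  inv_mem' := by
    intro a ha
    change T.pull (perm S.Y a⁻¹) (stdM E n) = stdM E n
    have h1 : T.pull (perm S.Y (a⁻¹ * a)) (stdM E n) = T.pull (perm S.Y a⁻¹) (stdM E n) := by
      rw [pull_perm_mul]
      exact congrArg (T.pull (perm S.Y a⁻¹)) ha
    rw [← h1, inv_mul_cancel, perm_one, T.pull_id]

theorem mem_stab {S : Gen T c} (E : Idem S) {n : ℕ} {θ : Equiv.Perm (Fin n)} :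
    θ ∈ stab E n ↔ T.pull (perm S.Y θ) (stdM E n) = stdM E n := Iff.rfl

theorem swap_mem_stab {S : Gen T c} (E : Idem S) (n : ℕ) :
    Equiv.swap (0 : Fin (n + 2)) 1 ∈ stab E (n + 2) := pull_swap E n (stdM E n)

theorem up_mem_stab {S : Gen T c} (E : Idem S) {n : ℕ} {θ : Equiv.Perm (Fin n)}
    (hθ : θ ∈ stab E n) : up (up θ) ∈ stab E (n + 2) := by
  have h := pull_up_up E θ (stdM E n)
  rw [mem_stab] at hθ
  rw [hθ] at h
  exact h

theorem stdM_three {S : Gen T c} (E : Idem S) : stdM E 3 = 0 :=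
  map_zero (ebox E (pow S.Y 1))

/-- the stabilizer is transitive -/
theorem exists_stab {S : Gen T c} (E : Idem S) : ∀ (n : ℕ) (a : Fin (n + 2)),
    ∃ θ ∈ stab E (n + 2), θ 0 = a := by
  intro n
  induction n using Nat.strong_induction_on with
  | _ n ih =>
    intro a
    refine Fin.cases ?_ (fun a => ?_) a
    · exact ⟨1, one_mem _, rfl⟩
    refine Fin.cases ?_ (fun a => ?_) a
    · exact ⟨Equiv.swap 0 1, swap_mem_stab E n, by simp⟩
    match n, ih, a with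
    | 0, _, a => exact a.elim0
    | 1, _, a =>
      refine ⟨Equiv.swap 0 a.succ.succ, ?_, by simp⟩
      rw [mem_stab]
      have h : stdM E (1 + 2) = 0 := stdM_three E
      rw [h, map_zero]
    | n + 2, ih, a =>
      obtain ⟨θ, h1, h2⟩ := ih n (by omega) a
      refine ⟨up (up θ) * dbl n, mul_mem (up_mem_stab E h1) (pull_dbl E n), ?_⟩
      rw [Equiv.Perm.mul_apply, dbl_0, up_succ, up_succ, h2]

theorem up_swap {n : ℕ} (a : Fin (n + 1)) :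
    up (Equiv.swap 0 a) = Equiv.swap (Fin.succ 0) a.succ := by
  ext i
  refine Fin.cases ?_ (fun i => ?_) i
  · rw [up_zero, Equiv.swap_apply_of_ne_of_ne (Fin.succ_ne_zero _).symm (Fin.succ_ne_zero _).symm]
  · rw [up_succ]
    simp only [Equiv.swap_apply_def, Fin.succ_inj]
    split_ifs <;> rfl

theorem decomp {n : ℕ} (a : Fin (n + 1)) (ρ : Equiv.Perm (Fin n)) :
    Equiv.Perm.decomposeFin.symm (a, ρ) = Equiv.swap 0 a * up ρ := by
  ext i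
  refine Fin.cases ?_ (fun i => ?_) i
  · simp [up_zero]
  · simp [up_succ]

theorem mem_image_up {n : ℕ} (σ : Equiv.Perm (Fin (n + 1))) (h : σ 0 = 0) : ∃ τ, up τ = σ := by
  obtain ⟨⟨a, τ⟩, rfl⟩ := Equiv.Perm.decomposeFin.symm.surjective σ
  have ha : a = 0 := by
    rw [decomp, Equiv.Perm.mul_apply, up_zero, Equiv.swap_apply_left] at h
    exact h
  subst ha
  exact ⟨τ, rfl⟩

theorem up_injective {n : ℕ} : Function.Injective (up : Equiv.Perm (Fin n) → _) := by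
  intro a b h
  have := Equiv.Perm.decomposeFin.symm.injective h
  exact (Prod.mk.inj this).2

/-- the sum over all permutations of a function which is invariant under a transitive group -/
theorem sum_perm {M : Type*} [AddCommGroup M] [Module K M] {n : ℕ}
    (G : Subgroup (Equiv.Perm (Fin (n + 1)))) (hG : ∀ a, ∃ θ ∈ G, θ 0 = a)
    (f : Equiv.Perm (Fin (n + 1)) → M) (hf : ∀ σ, ∀ θ ∈ G, f (σ * θ) = f σ) :
    ∑ σ, f σ = ((n + 1 : ℕ) : K) • ∑ τ : Equiv.Perm (Fin n), f (up τ) := by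
  classical
  choose θ hθ hθ0 using hG
  have h1 : ∀ b : Fin (n + 1), ∑ σ ∈ (Finset.univ : Finset (Equiv.Perm (Fin (n + 1)))).filter
      (fun σ => σ⁻¹ 0 = b), f σ = ∑ τ : Equiv.Perm (Fin n), f (up τ) := by
    intro b
    symm
    refine Finset.sum_bij (fun τ _ => up τ * (θ b)⁻¹) ?_ ?_ ?_ ?_
    · intro τ _
      rw [Finset.mem_filter]
      refine ⟨Finset.mem_univ _, ?_⟩
      rw [mul_inv_rev, inv_inv, Equiv.Perm.mul_apply]
      have h2 : (up τ)⁻¹ 0 = 0 := by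
        rw [Equiv.Perm.inv_eq_iff_eq, up_zero]
      rw [h2, hθ0]
    · intro a _ b' _ hab
      exact up_injective (mul_right_cancel hab)
    · intro σ hσ
      rw [Finset.mem_filter] at hσ
      obtain ⟨τ, hτ⟩ := mem_image_up (σ * θ b) (by
        rw [Equiv.Perm.mul_apply, hθ0, ← hσ.2]
        simp)
      exact ⟨τ, Finset.mem_univ _, by rw [hτ, mul_inv_cancel_right]⟩
    · intro τ _
      exact (hf _ _ (inv_mem (hθ b))).symm
  have h3 : ∑ σ, f σ = ∑ b : Fin (n + 1), ∑ σ ∈ (Finset.univ :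
      Finset (Equiv.Perm (Fin (n + 1)))).filter (fun σ => σ⁻¹ 0 = b), f σ :=
    (Finset.sum_fiberwise Finset.univ (fun σ : Equiv.Perm (Fin (n + 1)) => σ⁻¹ 0) f).symm
  rw [h3, Finset.sum_congr rfl fun b _ => h1 b, Finset.sum_const, Finset.card_univ,
    Fintype.card_fin, Nat.cast_smul_eq_nsmul]

theorem symM_rec_aux {S : Gen T c} (E : Idem S) (n : ℕ) :
    symM E (n + 2) = ((n + 2 : ℕ) : K) • ∑ a : Fin (n + 1), T.pull (perm S.Y (Equiv.swap 1 a.succ))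
      (ebox E (pow S.Y n) (symM E n)) := by
  have h1 : symM E (n + 2) = ((n + 1 + 1 : ℕ) : K) • ∑ τ : Equiv.Perm (Fin (n + 1)),
      T.pull (perm S.Y (up τ)) (stdM E (n + 2)) := by
    refine sum_perm (n := n + 1) (stab E (n + 2)) (exists_stab E n)
      (fun σ => T.pull (perm S.Y σ) (stdM E (n + 2))) ?_
    intro σ θ hθ
    rw [pull_perm_mul, (mem_stab E).mp hθ]
  rw [h1]
  congr 1
  rw [← Equiv.sum_comp Equiv.Perm.decomposeFin.symm, Fintype.sum_prod_type]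
  refine Finset.sum_congr rfl fun a _ => ?_
  have h2 : ∀ ρ : Equiv.Perm (Fin n),
      T.pull (perm S.Y (up (Equiv.Perm.decomposeFin.symm (a, ρ)))) (stdM E (n + 2)) =
        T.pull (perm S.Y (Equiv.swap 1 a.succ))
          (ebox E (pow S.Y n) (T.pull (perm S.Y ρ) (stdM E n))) := by
    intro ρ
    rw [decomp, up_mul, pull_perm_mul, up_swap]
    have h3 := pull_up_up E ρ (stdM E n)
    exact congrArg (T.pull (perm S.Y (Equiv.swap 1 a.succ))) h3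
  rw [Finset.sum_congr rfl fun ρ _ => h2 ρ]
  unfold symM
  rw [map_sum]
  exact (map_sum (T.pull (perm S.Y (Equiv.swap 1 a.succ))) _ _).symm

end StabAux

/-- the recursion for the symmetrization of `e × e × ⋯ × e` -/
theorem symM_rec {S : Gen T c} (E : Idem S) (n : ℕ) :
    symM E (n + 2) = ((n + 2 : ℕ) : K) • ∑ a : Fin (n + 1), T.pull (perm S.Y (Equiv.swap 1 a.succ))
      (ebox E (pow S.Y n) (symM E n)) := StabAux.symM_rec_aux E n

end Pool.NP
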