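import Pool.Agent.Work.MP_a60482_np.Pow
import Pool.Agent.Work.MP_a60482_np.Glue
import Pool.Agent.Work.MP_a60482_np.Stab

/-!
The symmetrized matching class, contracted with copies of an even class `z` fixed by `e`.
-/

open CategoryTheory MonoidalCategory CartesianMonoidalCategory

universe u v w x b

set_option backward.isDefEq.respectTransparency false
set_option backward.isDefEq.respectTransparency.types false

namespace Pool.NP

open Pool.KC Pool.Std

section InsPerm

/-- a permutation fixing `0` comes from the remaining letters -/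
theorem exists_up {n : ℕ} (σ : Equiv.Perm (Fin (n + 1))) (h : σ 0 = 0) :
    ∃ ρ : Equiv.Perm (Fin n), σ = up ρ := by
  refine ⟨(Equiv.Perm.decomposeFin σ).2, ?_⟩
  have h1 : σ = Equiv.Perm.decomposeFin.symm (Equiv.Perm.decomposeFin σ) := by simp
  have h2 : (Equiv.Perm.decomposeFin σ).1 = 0 := by
    have h3 : (Equiv.Perm.decomposeFin.symm
        ((Equiv.Perm.decomposeFin σ).1, (Equiv.Perm.decomposeFin σ).2)) 0
          = (Equiv.Perm.decomposeFin σ).1 := Equiv.Perm.decomposeFin_symm_apply_zero _ _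
    rw [Prod.mk.eta, ← h1, h] at h3
    exact h3.symm
  unfold up
  rw [← h2, Prod.mk.eta]
  exact h1

theorem up_zero {n : ℕ} (ρ : Equiv.Perm (Fin n)) : up ρ 0 = 0 :=
  Equiv.Perm.decomposeFin_symm_apply_zero _ _

theorem up_succ {n : ℕ} (ρ : Equiv.Perm (Fin n)) (i : Fin n) : up ρ i.succ = (ρ i).succ := by
  unfold up
  rw [Equiv.Perm.decomposeFin_symm_apply_succ]
  simp

theorem up_swap_zero {n : ℕ} (a : Fin (n + 1)) :
    up (Equiv.swap (0 : Fin (n + 1)) a) = Equiv.swap (1 : Fin (n + 2)) a.succ := by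
  ext i
  refine Fin.cases ?_ (fun j => ?_) i
  · rw [up_zero, Equiv.swap_apply_of_ne_of_ne]
    · exact Fin.zero_ne_one
    · exact (Fin.succ_ne_zero _).symm
  · rw [up_succ]
    have h1 : (1 : Fin (n + 2)) = (0 : Fin (n + 1)).succ := rfl
    rw [h1]
    congr 1
    exact (Function.Injective.swap_apply (Fin.succ_injective _) 0 a j).symm

theorem swap_zero_succ {n : ℕ} (a : Fin (n + 1)) :
    Equiv.swap (0 : Fin (n + 2)) a.succ =
      up (Equiv.swap 0 a) * (Equiv.swap 0 1 * up (Equiv.swap 0 a)) := by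
  have h1 : up (Equiv.swap (0 : Fin (n + 1)) a) = (up (Equiv.swap (0 : Fin (n + 1)) a))⁻¹ := by
    rw [up_swap_zero, Equiv.swap_inv]
  rw [← mul_assoc]
  nth_rewrite 2 [h1]
  rw [← Equiv.swap_apply_apply, up_zero, up_swap_zero, Equiv.swap_apply_left]

end InsPerm

variable {V : Type u} [Category.{v} V] [CartesianMonoidalCategory V] {K : Type x} [Field K]
variable {T : WeilTheory.{u, v, w, x} V K}

section InsBasic

/-- `z × x` -/
noncomputable def crs (T : WeilTheory.{u, v, w, x} V K) {Y : V} (W : V) (z : T.H Y) (x : T.H W) :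
    T.H (Y ⊗ W) := T.pull (fst Y W) z * T.pull (snd Y W) x

theorem iota_crs {Y W : V} (z a : T.H Y) (x : T.H W) :
    iota T W z (crs T W a x) = T.tr Y (z * a) • x := by
  change T.push Y W (T.pull (fst Y W) z * (T.pull (fst Y W) a * T.pull (snd Y W) x)) = _
  rw [← mul_assoc, ← map_mul, T.push_pure]

theorem pull_lift_crs {Y W W' : V} (f : W ⟶ W') (a : T.H Y) (x : T.H W') :
    T.pull (lift (fst Y W) (snd Y W ≫ f)) (crs T W' a x) = crs T W a (T.pull f x) := by
  unfold crs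
  rw [map_mul, ← T.pull_comp, ← T.pull_comp, lift_fst, lift_snd, T.pull_comp]

theorem iota_pull {Y W W' : V} (f : W ⟶ W') (z : T.H Y) (y : T.H (Y ⊗ W')) :
    iota T W z (T.pull (lift (fst Y W) (snd Y W ≫ f)) y) = T.pull f (iota T W' z y) := by
  refine T.kind (P := fun y => iota T W z (T.pull (lift (fst Y W) (snd Y W ≫ f)) y) =
    T.pull f (iota T W' z y)) (by simp) ?_ ?_ y
  · intro a b
    have h1 := pull_lift_crs (T := T) (Y := Y) f a b
    unfold crs at h1
    rw [h1]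
    have h2 := iota_crs (T := T) z a b
    have h3 := iota_crs (T := T) z a (T.pull f b)
    unfold crs at h2 h3
    rw [h2, h3, map_smul]
  · intro a b h1 h2
    simp only [map_add, h1, h2]

theorem iota_perm_up {Y : V} {n : ℕ} (σ : Equiv.Perm (Fin n)) (z : T.H Y)
    (y : T.H (pow Y (n + 1))) :
    iota T (pow Y n) z (T.pull (perm Y (up σ)) y) = T.pull (perm Y σ) (iota T (pow Y n) z y) := by
  rw [perm_up]
  exact iota_pull _ _ _

theorem pull_perm_one {Y : V} {n : ℕ} (y : T.H (pow Y n)) :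
    T.pull (perm Y (1 : Equiv.Perm (Fin n))) y = y := by
  rw [perm_one, T.pull_id]

theorem pull_up_crs {Y : V} {n : ℕ} (σ : Equiv.Perm (Fin n)) (z : T.H Y) (x : T.H (pow Y n)) :
    T.pull (perm Y (up σ)) (crs T (pow Y n) z x) = crs T (pow Y n) z (T.pull (perm Y σ) x) := by
  rw [perm_up]
  exact pull_lift_crs _ _ _

/-- contraction of slot `0` after the exchange of the slots `0` and `1` -/
theorem iota_swap {Y : V} {j : ℕ} {z : T.H Y} (hz : z ∈ T.deg Y (2 * j)) (n : ℕ)
    (x : T.H (pow Y (n + 1))) :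
    iota T (pow Y (n + 1)) z (T.pull (perm Y (Equiv.swap (0 : Fin (n + 2)) 1))
      (crs T (pow Y (n + 1)) z x)) = crs T (pow Y n) z (iota T (pow Y n) z x) := by
  rw [perm_swap]
  have hmain : ∀ x : T.H (Y ⊗ pow Y n),
      iota T (Y ⊗ pow Y n) z (T.pull (lift (snd Y (Y ⊗ pow Y n) ≫ fst Y (pow Y n))
        (lift (fst Y (Y ⊗ pow Y n)) (snd Y (Y ⊗ pow Y n) ≫ snd Y (pow Y n))))
      (crs T (Y ⊗ pow Y n) z x)) = crs T (pow Y n) z (iota T (pow Y n) z x) := by
    intro x
    refine T.kind (P := fun x => iota T (Y ⊗ pow Y n) z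
      (T.pull (lift (snd Y (Y ⊗ pow Y n) ≫ fst Y (pow Y n))
        (lift (fst Y (Y ⊗ pow Y n)) (snd Y (Y ⊗ pow Y n) ≫ snd Y (pow Y n))))
      (crs T (Y ⊗ pow Y n) z x)) = crs T (pow Y n) z (iota T (pow Y n) z x))
      (by simp [crs]) ?_ ?_ x
    · intro a w
      have h1 : T.pull (lift (snd Y (Y ⊗ pow Y n) ≫ fst Y (pow Y n))
          (lift (fst Y (Y ⊗ pow Y n)) (snd Y (Y ⊗ pow Y n) ≫ snd Y (pow Y n))))
          (crs T (Y ⊗ pow Y n) z (T.pull (fst Y (pow Y n)) a * T.pull (snd Y (pow Y n)) w)) =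
          crs T (Y ⊗ pow Y n) a (crs T (pow Y n) z w) := by
        unfold crs
        simp only [map_mul, ← T.pull_comp, lift_fst, lift_snd, lift_snd_assoc]
        rw [← mul_assoc, ← mul_assoc, T.even_comm (T.pull_deg _ hz)]
      have h2 := iota_crs (T := T) z a w
      unfold crs at h2
      rw [h1, iota_crs, h2]
      unfold crs
      rw [map_smul, mul_smul_comm]
    · intro a b h1 h2
      unfold crs at h1 h2 ⊢
      simp only [map_add, mul_add, h1, h2]
  exact hmain x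

/-- a class is symmetric -/
def Sy {Y : V} {n : ℕ} (x : T.H (pow Y n)) : Prop :=
  ∀ σ : Equiv.Perm (Fin n), T.pull (perm Y σ) x = x

theorem ins_eq {Y : V} (z : T.H Y) (n : ℕ) (y : T.H (pow Y n)) :
    ins T z n y = ∑ a : Fin (n + 1), T.pull (perm Y (Equiv.swap 0 a)) (crs T (pow Y n) z y) := rfl

theorem Sy_ins {Y : V} (z : T.H Y) {n : ℕ} {x : T.H (pow Y n)} (hx : Sy x) :
    Sy (Y := Y) (n := n + 1) (ins T z n x) := by
  intro τ
  rw [ins_eq, map_sum]
  have h1 : ∀ a : Fin (n + 1), T.pull (perm Y τ) (T.pull (perm Y (Equiv.swap 0 a))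
      (crs T (pow Y n) z x)) = T.pull (perm Y (Equiv.swap 0 (τ a))) (crs T (pow Y n) z x) := by
    intro a
    rw [← pull_perm_mul]
    obtain ⟨ρ, hρ⟩ := exists_up (Equiv.swap 0 (τ a) * (τ * Equiv.swap 0 a)) (by simp)
    have h2 : τ * Equiv.swap 0 a = Equiv.swap 0 (τ a) * up ρ := by
      rw [← hρ, ← mul_assoc, Equiv.swap_mul_self, one_mul]
    rw [h2, pull_perm_mul, pull_up_crs, hx ρ]
  rw [Finset.sum_congr rfl fun a _ => h1 a]
  exact Equiv.sum_comp τ fun a => T.pull (perm Y (Equiv.swap 0 a)) (crs T (pow Y n) z x)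

theorem ins_smul {Y : V} (z : T.H Y) (n : ℕ) (s : K) (y : T.H (pow Y n)) :
    ins T z n (s • y) = s • ins T z n y := by
  simp only [ins_eq, crs, map_smul, mul_smul_comm, Finset.smul_sum]

theorem ins_zero {Y : V} (z : T.H Y) (n : ℕ) : ins T z n (0 : T.H (pow Y n)) = 0 := by
  simp [ins_eq, crs]

/-- contraction and insertion commute -/
theorem iota_ins {Y : V} {j : ℕ} {z : T.H Y} (hz : z ∈ T.deg Y (2 * j)) (hzz : T.tr Y (z * z) = 0)
    (n : ℕ) {x : T.H (pow Y (n + 1))} (hx : Sy (Y := Y) (n := n + 1) x) :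
    iota T (pow Y (n + 1)) z (ins T z (n + 1) x) = ins T z n (iota T (pow Y n) z x) := by
  rw [ins_eq, map_sum, Fin.sum_univ_succ]
  have h0 : iota T (pow Y (n + 1)) z (T.pull (perm Y (Equiv.swap 0 (0 : Fin (n + 2))))
      (crs T (pow Y (n + 1)) z x)) = 0 := by
    rw [Equiv.swap_self]
    have : T.pull (perm Y (Equiv.refl (Fin (n + 2)))) (crs T (pow Y (n + 1)) z x) =
      crs T (pow Y (n + 1)) z x := pull_perm_one _
    rw [this, iota_crs, hzz, zero_smul]
  rw [h0, zero_add, ins_eq]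
  refine Finset.sum_congr rfl fun a _ => ?_
  rw [swap_zero_succ, pull_perm_mul, pull_perm_mul, pull_up_crs, hx, iota_perm_up, iota_swap hz]

theorem iota_ins_zero {Y : V} {z : T.H Y} (hzz : T.tr Y (z * z) = 0) (x : T.H (pow Y 0)) :
    iota T (pow Y 0) z (ins T z 0 x) = 0 := by
  have h0 : ins T z 0 x = crs T (pow Y 0) z x := by
    rw [ins_eq]
    refine (Fin.sum_univ_succ _).trans ?_
    rw [Finset.univ_eq_empty, Finset.sum_empty, add_zero, Equiv.swap_self]
    exact pull_perm_one _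
  rw [h0]
  have h2 := iota_crs (T := T) z z x
  rw [hzz, zero_smul] at h2
  exact h2

theorem Sy_tens {Y : V} {j : ℕ} {z : T.H Y} (hz : z ∈ T.deg Y (2 * j)) (n : ℕ) :
    Sy (tens T z n) := by
  intro σ
  refine perm_induction (P := fun n σ => T.pull (perm Y σ) (tens T z n) = tens T z n)
    ?_ ?_ ?_ ?_ n σ
  · intro n
    exact pull_perm_one _
  · intro n σ τ h1 h2
    rw [pull_perm_mul, h2, h1]
  · intro n σ h
    change T.pull (perm Y (up σ)) (crs T (pow Y n) z (tens T z n)) =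
      crs T (pow Y n) z (tens T z n)
    rw [pull_up_crs, h]
  · intro n
    rw [perm_swap]
    change T.pull _ (T.pull (fst Y (Y ⊗ pow Y n)) z * T.pull (snd Y (Y ⊗ pow Y n))
      (T.pull (fst Y (pow Y n)) z * T.pull (snd Y (pow Y n)) (tens T z n))) =
      (T.pull (fst Y (Y ⊗ pow Y n)) z * T.pull (snd Y (Y ⊗ pow Y n))
      (T.pull (fst Y (pow Y n)) z * T.pull (snd Y (pow Y n)) (tens T z n)))
    simp only [map_mul, ← T.pull_comp, lift_fst, lift_snd, lift_snd_assoc]
    rw [← mul_assoc, ← mul_assoc, T.even_comm (T.pull_deg _ hz)]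

theorem ins_tens {Y : V} {j : ℕ} {z : T.H Y} (hz : z ∈ T.deg Y (2 * j)) (n : ℕ) :
    ins T z n (tens T z n) = ((n + 1 : ℕ) : K) • tens T z (n + 1) := by
  rw [ins_eq]
  have h1 : ∀ a : Fin (n + 1), T.pull (perm Y (Equiv.swap 0 a))
      (crs T (pow Y n) z (tens T z n)) = tens T z (n + 1) := fun a =>
    Sy_tens (T := T) hz (n + 1) (Equiv.swap 0 a)
  rw [Finset.sum_congr rfl fun a _ => h1 a, Finset.sum_const, Finset.card_univ,
    Fintype.card_fin, Nat.cast_smul_eq_nsmul]

end InsBasic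

section InsMain

variable {X : V} {c : T.H X}

theorem iota_ebox {S : Gen T c} (E : Idem S) (W : V) (z : T.H S.Y) (y : T.H W) :
    iota T (S.Y ⊗ W) z (ebox E W y) = crs T W (T.act E.e z) y := by
  change T.push S.Y (S.Y ⊗ W) (T.pull (fst S.Y (S.Y ⊗ W)) z *
    (T.pull (lift (fst S.Y (S.Y ⊗ W)) (snd S.Y (S.Y ⊗ W) ≫ fst S.Y W)) E.e *
      T.pull (snd S.Y (S.Y ⊗ W) ≫ snd S.Y W) y)) = _
  generalize E.e = e
  refine T.kind (P := fun e => T.push S.Y (S.Y ⊗ W) (T.pull (fst S.Y (S.Y ⊗ W)) z *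
    (T.pull (lift (fst S.Y (S.Y ⊗ W)) (snd S.Y (S.Y ⊗ W) ≫ fst S.Y W)) e *
      T.pull (snd S.Y (S.Y ⊗ W) ≫ snd S.Y W) y)) = crs T W (T.act e z) y)
    (by simp [crs, T.act_zero]) ?_ ?_ e
  · intro p q
    have h0 : T.pull (lift (fst S.Y (S.Y ⊗ W)) (snd S.Y (S.Y ⊗ W) ≫ fst S.Y W))
        (T.pull (fst S.Y S.Y) p * T.pull (snd S.Y S.Y) q) =
        T.pull (fst S.Y (S.Y ⊗ W)) p * T.pull (snd S.Y (S.Y ⊗ W)) (T.pull (fst S.Y W) q) := by
      rw [map_mul, ← T.pull_comp, ← T.pull_comp, lift_fst, lift_snd, T.pull_comp]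
    rw [T.act_pure, h0, T.pull_comp]
    have h1 : T.pull (fst S.Y (S.Y ⊗ W)) z * (T.pull (fst S.Y (S.Y ⊗ W)) p *
        T.pull (snd S.Y (S.Y ⊗ W)) (T.pull (fst S.Y W) q) *
        T.pull (snd S.Y (S.Y ⊗ W)) (T.pull (snd S.Y W) y)) =
        T.pull (fst S.Y (S.Y ⊗ W)) (z * p) *
          T.pull (snd S.Y (S.Y ⊗ W)) (T.pull (fst S.Y W) q * T.pull (snd S.Y W) y) := by
      simp only [map_mul, mul_assoc]
    rw [h1, T.push_pure]
    unfold crs
    rw [map_smul, smul_mul_assoc]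
  · intro a b h1 h2
    rw [map_add, add_mul, mul_add, map_add, h1, h2, T.act_add, LinearMap.add_apply]
    unfold crs
    rw [map_add, add_mul]

theorem Sy_symM {S : Gen T c} (E : Idem S) (n : ℕ) : Sy (symM E n) := by
  intro τ
  unfold symM
  rw [map_sum]
  have h1 : ∀ σ : Equiv.Perm (Fin n), T.pull (perm S.Y τ) (T.pull (perm S.Y σ) (stdM E n)) =
      T.pull (perm S.Y (τ * σ)) (stdM E n) := fun σ => (pull_perm_mul _ _ _).symm
  rw [Finset.sum_congr rfl fun σ _ => h1 σ]
  exact Equiv.sum_comp (Equiv.mulLeft τ) fun σ => T.pull (perm S.Y σ) (stdM E n)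

theorem symM_zero {S : Gen T c} (E : Idem S) : symM E 0 = 1 := by
  unfold symM
  rw [Fintype.sum_unique, Subsingleton.elim (default : Equiv.Perm (Fin 0)) 1]
  exact pull_perm_one _

theorem symM_one {S : Gen T c} (E : Idem S) : symM E 1 = 0 := by
  unfold symM
  refine Finset.sum_eq_zero fun σ _ => ?_
  change T.pull (perm S.Y σ) (0 : T.H (pow S.Y 1)) = 0
  exact map_zero _

theorem iota_symM {S : Gen T c} (E : Idem S) {z : T.H S.Y} (he : T.act E.e z = z) (n : ℕ) :
    iota T (pow S.Y (n + 1)) z (symM E (n + 2)) =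
      ((n + 2 : ℕ) : K) • ins T z n (symM E n) := by
  rw [symM_rec, map_smul, map_sum, ins_eq]
  congr 1
  refine Finset.sum_congr rfl fun a _ => ?_
  rw [← up_swap_zero, iota_perm_up]
  congr 1
  have := iota_ebox E (pow S.Y n) z (symM E n)
  rw [he] at this
  exact this

/-- `ins^k` of the symmetrized matching class, on `Y^m` -/
noncomputable def UU {S : Gen T c} (E : Idem S) (z : T.H S.Y) : (k m : ℕ) → T.H (pow S.Y m)
  | 0, m => symM E m
  | _ + 1, 0 => 0
  | k + 1, m + 1 => ins T z m (UU E z k m)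

theorem Sy_UU {S : Gen T c} (E : Idem S) (z : T.H S.Y) : ∀ k m : ℕ, Sy (UU E z k m) := by
  intro k
  induction k with
  | zero => intro m; exact Sy_symM E m
  | succ k ih =>
    intro m
    cases m with
    | zero => intro σ; exact map_zero _
    | succ m => exact Sy_ins z (ih m)

theorem iota_UU {S : Gen T c} (E : Idem S) {j : ℕ} {z : T.H S.Y} (hz : z ∈ T.deg S.Y (2 * j))
    (hzz : T.tr S.Y (z * z) = 0) (he : T.act E.e z = z) : ∀ k m : ℕ,
    iota T (pow S.Y m) z (UU E z k (m + 1)) = ((m + 1 - k : ℕ) : K) • UU E z (k + 1) m := by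
  intro k
  induction k with
  | zero =>
    intro m
    cases m with
    | zero =>
      change iota T (pow S.Y 0) z (symM E 1) = _ • (0 : T.H (pow S.Y 0))
      rw [symM_one, map_zero, smul_zero]
    | succ m => exact iota_symM E he m
  | succ k ih =>
    intro m
    cases m with
    | zero =>
      change iota T (pow S.Y 0) z (ins T z 0 (UU E z k 0)) = _ • (0 : T.H (pow S.Y 0))
      rw [iota_ins_zero hzz, smul_zero]
    | succ m =>
      change iota T (pow S.Y (m + 1)) z (ins T z (m + 1) (UU E z k (m + 1))) =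
        _ • ins T z m (UU E z (k + 1) m)
      rw [iota_ins hz hzz m (Sy_UU E z k (m + 1)), ih m, ins_smul]
      congr 2
      omega

theorem iotas_UU [CharZero K] {S : Gen T c} (E : Idem S) {j : ℕ} {z : T.H S.Y}
    (hz : z ∈ T.deg S.Y (2 * j)) (hzz : T.tr S.Y (z * z) = 0) (he : T.act E.e z = z) (b : ℕ) :
    ∀ a k : ℕ, k + a ≤ b →
      ∃ s : K, s ≠ 0 ∧ iotas T z b a (UU E z k (b + a)) = s • UU E z (k + a) b := by
  intro a
  induction a with
  | zero =>
    intro k _
    exact ⟨1, one_ne_zero, by rw [one_smul]; rfl⟩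
  | succ a ih =>
    intro k hk
    obtain ⟨s, hs, h⟩ := ih (k + 1) (by omega)
    refine ⟨((b + a + 1 - k : ℕ) : K) * s, ?_, ?_⟩
    · refine mul_ne_zero ?_ hs
      rw [Nat.cast_ne_zero]
      omega
    · change iotas T z b a (iota T (pow S.Y (b + a)) z (UU E z k (b + a + 1))) = _
      rw [iota_UU E hz hzz he, map_smul, h, smul_smul]
      congr 2
      omega

theorem UU_diag {S : Gen T c} (E : Idem S) {j : ℕ} {z : T.H S.Y}
    (hz : z ∈ T.deg S.Y (2 * j)) : ∀ k : ℕ, UU E z k k = ((k.factorial : ℕ) : K) • tens T z k := by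
  intro k
  induction k with
  | zero =>
    change symM E 0 = _ • (1 : T.H (pow S.Y 0))
    rw [symM_zero]
    simp
  | succ k ih =>
    change ins T z k (UU E z k k) = _
    rw [ih, ins_smul, ins_tens hz, smul_smul, ← Nat.cast_mul, mul_comm,
      ← Nat.factorial_succ]

theorem act_symM [CharZero K] {S : Gen T c} (E : Idem S) {j : ℕ} {z : T.H S.Y}
    (hz : z ∈ T.deg S.Y (2 * j)) (he : T.act E.e z = z) (p : ℕ) :
    ∃ s : K, s ≠ 0 ∧ T.act (T.pull (glue S.Y p p) (symM E (p + p))) (tens T z p) =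
      s • tens T z p := by
  have hzz : T.tr S.Y (z * z) = 0 := by
    refine T.tr_mul_ne hz hz ?_
    intro h
    obtain ⟨m, hm⟩ := S.odd
    omega
  obtain ⟨s, hs, h⟩ := iotas_UU E hz hzz he p p 0 (by omega)
  refine ⟨s * ((p.factorial : ℕ) : K), mul_ne_zero hs ?_, ?_⟩
  · rw [Nat.cast_ne_zero]
    exact Nat.factorial_ne_zero p
  · rw [act_glue hz]
    change iotas T z p p (UU E z 0 (p + p)) = _
    rw [h, Nat.zero_add, UU_diag E hz, smul_smul]

end InsMain

end Pool.NP
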