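import Pool.Agent.Work.MP_a60482_np.Defs

/-!
Block PAR: the supertrace of `e` is an even integer, and is negative.
-/

open CategoryTheory MonoidalCategory CartesianMonoidalCategory

universe u v w x b

namespace Pool.NP

open Pool.KC Pool.Std

namespace Par

section Lin

variable {K H : Type*} [Field K] [AddCommGroup H] [Module K H] [FiniteDimensional K H]

theorem trace_idem {f : Module.End K H} (hf : IsIdempotentElem f) :
    LinearMap.trace K H f = (Module.finrank K (LinearMap.range f) : K) :=
  LinearMap.IsProj.trace (LinearMap.IsIdempotentElem.isProj_range f hf)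

/-- a space with a nondegenerate skew form has even dimension -/
theorem even_of_skew [CharZero K] (B : LinearMap.BilinForm K H) (hs : ∀ a b, B a b = - B b a)
    (hnd : ∀ a, (∀ b, B a b = 0) → a = 0) : Even (Module.finrank K H) := by
  classical
  let b := Module.finBasis K H
  have h1 : B.Nondegenerate := LinearMap.BilinForm.Nondegenerate.ofSeparatingLeft hnd
  have h2 := (LinearMap.BilinForm.nondegenerate_iff_det_ne_zero b).mp h1
  set A := LinearMap.BilinForm.toMatrix b B with hA
  have h3 : A.transpose = -A := by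
    ext i j
    rw [Matrix.transpose_apply, Matrix.neg_apply, hA, LinearMap.BilinForm.toMatrix_apply,
      LinearMap.BilinForm.toMatrix_apply, hs]
  have h4 : A.det = (-1) ^ (Module.finrank K H) * A.det := by
    conv_lhs => rw [← Matrix.det_transpose, h3, Matrix.det_neg]
    rw [Fintype.card_fin]
  rcases Nat.even_or_odd (Module.finrank K H) with h | h
  · exact h
  · exfalso
    rw [h.neg_one_pow] at h4
    have h5 : (2 : K) * A.det = 0 := by
      rw [two_mul]
      nth_rw 1 [h4]
      ring
    rcases mul_eq_zero.mp h5 with h6 | h6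
    · exact two_ne_zero h6
    · exact h2 h6

end Lin

end Par

variable {V : Type u} [Category.{v} V] [CartesianMonoidalCategory V] {K : Type x} [Field K]
variable {T : WeilTheory.{u, v, w, x} V K}

namespace Par

variable {X : V} {c : T.H X} {S : Gen T c} (E : Idem S)

/-- `e` is self-adjoint -/
theorem adj (a b : T.H S.Y) : T.tr S.Y (T.act E.e a * b) = T.tr S.Y (a * T.act E.e b) := by
  have he := T.C_deg _ _ E.mem
  refine T.hind (P := fun a => T.tr S.Y (T.act E.e a * b) = T.tr S.Y (a * T.act E.e b))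
    (by simp) ?_ ?_ a
  · intro k a ha
    refine T.hind (P := fun b => T.tr S.Y (T.act E.e a * b) = T.tr S.Y (a * T.act E.e b))
      (by simp) ?_ ?_ b
    · intro l b hb
      have h1 : T.act E.e a ∈ T.deg S.Y k := T.act_deg he (by omega) ha
      have h2 : T.act E.e b ∈ T.deg S.Y l := T.act_deg he (by omega) hb
      have h3 := tr_act_swap he ha hb
      have hsw : T.pull (Cohomology.swap S.Y) E.e = E.e := E.symm
      rw [hsw] at h3
      rw [h3, T.comm ha h2, T.neg_pow_smul, map_smul, smul_eq_mul]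
    · intro b b' h1 h2
      rw [mul_add, map_add, h1, h2, map_add, mul_add, map_add]
  · intro a a' h1 h2
    rw [map_add, add_mul, map_add, h1, h2, add_mul, map_add]

/-- the part of `e` in degree `j` -/
noncomputable def ej (j : ℕ) : Module.End K (T.H S.Y) := T.act E.e * T.proj S.Y j

theorem comm_proj (j : ℕ) : T.act E.e * T.proj S.Y j = T.proj S.Y j * T.act E.e :=
  T.ops_mul_proj (T.act_mem_ops.mpr E.mem) j

theorem ee : T.act E.e * T.act E.e = T.act E.e := LinearMap.ext E.idem

theorem ej_idem (j : ℕ) : IsIdempotentElem (ej E j) := by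
  unfold IsIdempotentElem ej
  rw [mul_assoc, ← mul_assoc (T.proj S.Y j), ← comm_proj, mul_assoc (T.act E.e) (T.proj S.Y j),
    (T.projs S.Y).idem, ← mul_assoc, ee]

/-- the rank of `e` in degree `j` -/
noncomputable def rk (j : ℕ) : ℕ := Module.finrank K (LinearMap.range (ej E j))

theorem trace_ej (j : ℕ) : LinearMap.trace K (T.H S.Y) (ej E j) = rk E j :=
  trace_idem (ej_idem E j)

theorem t_eq : E.t = ∑ j ∈ Finset.range (2 * T.dim S.Y + 1), (-1 : K) ^ j * rk E j := by
  have h1 : E.t = T.tr _ (E.e * T.diag S.Y) := by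
    rw [E.tr _ (T.C_diag S.Y) 1, mul_one]
    intro y _
    rw [T.act_diag, LinearMap.id_apply, one_smul]
  rw [h1, T.tr_mul_eq_str, T.swap_diag, T.act_diag, str_apply]
  apply Finset.sum_congr rfl
  intro j _
  rw [← trace_ej]
  rfl

theorem ej_range {j : ℕ} {a : T.H S.Y} (ha : a ∈ LinearMap.range (ej E j)) :
    a ∈ T.deg S.Y j ∧ T.act E.e a = a := by
  obtain ⟨b, rfl⟩ := ha
  constructor
  · exact T.act_deg (T.C_deg _ _ E.mem) (by omega) (T.proj_mem j b)
  · exact E.idem _

/-- duality -/
theorem rk_symm [CharZero K] {j l : ℕ} (h : j + l = 2 * T.dim S.Y) : rk E j = rk E l := by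
  have h1 : (T.dualEquiv S.Y).conj (ej E j) = (ej E l).dualMap := by
    apply LinearMap.ext
    intro φ
    obtain ⟨x, rfl⟩ := (T.dualEquiv S.Y).surjective φ
    apply LinearMap.ext
    intro a
    rw [LinearEquiv.conj_apply_apply, LinearEquiv.symm_apply_apply, LinearMap.dualMap_apply,
      T.dualEquiv_apply, T.dualEquiv_apply]
    unfold ej
    rw [Module.End.mul_apply, Module.End.mul_apply, ← adj]
    have e1 := T.act_deg (T.C_deg _ _ E.mem) (k := 2 * T.dim S.Y) (i := l) (l := l) (by omega)
      (T.proj_mem l a)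
    have h2 : T.act E.e (T.proj S.Y l a) = T.proj S.Y l (T.act E.e a) :=
      LinearMap.congr_fun (comm_proj E l) a
    have e2 : T.tr S.Y (T.act E.e a * T.proj S.Y j x) =
        T.tr S.Y (T.proj S.Y l (T.act E.e a) * T.proj S.Y j x) :=
      (T.tr_mul_proj _ (T.proj_mem j x) (by omega)).symm
    rw [e2, h2, T.tr_proj_mul _ (T.proj_mem l _) (by omega)]
  have h2 : LinearMap.trace K _ (ej E j) = LinearMap.trace K _ (ej E l) := by
    rw [← LinearMap.trace_conj' (ej E j) (T.dualEquiv S.Y), h1]
    exact LinearMap.trace_transpose' (ej E l)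
  rw [trace_ej, trace_ej] at h2
  exact_mod_cast h2

theorem rk_mid [CharZero K] : Even (rk E (T.dim S.Y)) := by
  set W := LinearMap.range (ej E (T.dim S.Y)) with hW
  let B : LinearMap.BilinForm K W :=
    ((LinearMap.mul K (T.H S.Y)).compr₂ (T.tr S.Y)).compl₁₂ W.subtype W.subtype
  have hB : ∀ a b : W, B a b = T.tr S.Y ((a : T.H S.Y) * b) := fun _ _ => rfl
  refine even_of_skew B ?_ ?_
  · intro a b
    rw [hB, hB, T.comm (ej_range E a.2).1 (ej_range E b.2).1, (S.odd.mul S.odd).neg_one_pow,
      neg_one_mul, map_neg]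
  · intro a ha
    apply Subtype.ext
    apply T.nondeg'
    intro b
    have h1 := ej_range E a.2
    have h2 := ha ⟨ej E (T.dim S.Y) b, ⟨b, rfl⟩⟩
    rw [hB] at h2
    change T.tr S.Y ((a : T.H S.Y) * T.act E.e (T.proj S.Y (T.dim S.Y) b)) = 0 at h2
    rw [← adj, h1.2, T.tr_proj_mul _ h1.1 (by omega)] at h2
    exact h2

theorem finrank_eq [CharZero K] : Module.finrank K (T.H S.Y) =
    ∑ j ∈ Finset.range (2 * T.dim S.Y + 1), Module.finrank K (T.deg S.Y j) := by
  have h1 : ∀ j, LinearMap.trace K (T.H S.Y) (T.proj S.Y j) = Module.finrank K (T.deg S.Y j) := by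
    intro j
    refine LinearMap.IsProj.trace (p := T.deg S.Y j) ⟨fun a => T.proj_mem j a, ?_⟩
    intro a ha
    exact T.proj_same ha
  have h2 : (Module.finrank K (T.H S.Y) : K) =
      ∑ j ∈ Finset.range (2 * T.dim S.Y + 1), (Module.finrank K (T.deg S.Y j) : K) := by
    rw [← LinearMap.trace_one K (T.H S.Y), ← (T.projs S.Y).sum, map_sum]
    exact Finset.sum_congr rfl fun j _ => h1 j
  exact_mod_cast h2

theorem rk_le (j : ℕ) : rk E j ≤ Module.finrank K (T.deg S.Y j) :=
  Submodule.finrank_mono fun _ ha => (ej_range E ha).1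

theorem van_le : Module.finrank K S.van ≤ rk E (T.dim S.Y) := by
  apply Submodule.finrank_mono
  intro y hy
  refine ⟨y, ?_⟩
  change T.act E.e (T.proj S.Y (T.dim S.Y) y) = y
  rw [T.proj_same hy.1, E.van y hy]

end Par

open Par

/-- **Block PAR.** -/
theorem Idem.exists_nat [CharZero K] {X : V} {c : T.H X} {S : Gen T c} (E : Idem S) :
    ∃ g : ℕ, 1 ≤ g ∧ E.t = -(2 * (g : K)) := by
  set m := T.dim S.Y with hm
  obtain ⟨k, hk⟩ : ∃ k, rk E m = k + k := rk_mid E
  -- the sum over the other degrees
  have hsum : ∑ j ∈ Finset.range (2 * m + 1), (-1 : K) ^ j * rk E j =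
      2 * ∑ j ∈ Finset.range m, (-1 : K) ^ j * rk E j - rk E m := by
    rw [show 2 * m + 1 = (m + 1) + m by omega, Finset.sum_range_add, Finset.sum_range_succ,
      S.odd.neg_one_pow, two_mul]
    have h1 : ∑ j ∈ Finset.range m, (-1 : K) ^ (m + 1 + j) * (rk E (m + 1 + j) : K) =
        ∑ j ∈ Finset.range m, (-1 : K) ^ j * rk E j := by
      rw [← Finset.sum_range_reflect]
      apply Finset.sum_congr rfl
      intro j hj
      rw [Finset.mem_range] at hj
      rw [rk_symm E (j := m + 1 + (m - 1 - j)) (l := j) (by omega)]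
      congr 1
      rw [show m + 1 + (m - 1 - j) = 2 * (m - j) + j by omega, pow_add, pow_mul]
      simp
    rw [h1]
    ring
  have hdec : ∀ f : ℕ → ℕ, ∑ j ∈ Finset.range (2 * m + 1), f j =
      ∑ j ∈ Finset.range m, f j + f m + ∑ j ∈ Finset.range m, f (m + 1 + j) := by
    intro f
    rw [show 2 * m + 1 = (m + 1) + m by omega, Finset.sum_range_add, Finset.sum_range_succ]
  have hrefl : ∑ j ∈ Finset.range m, rk E (m + 1 + j) = ∑ j ∈ Finset.range m, rk E j := by
    rw [← Finset.sum_range_reflect]
    apply Finset.sum_congr rfl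
    intro j hj
    rw [Finset.mem_range] at hj
    exact rk_symm E (by omega)
  have hbig : Module.finrank K (T.H S.Y) ≤
      Module.finrank K (T.deg S.Y m) + Module.finrank K S.van := S.big S.van fun y => Iff.rfl
  rw [finrank_eq (S := S), hdec] at hbig
  have hv : Module.finrank K S.van ≤ rk E m := van_le E
  have h1 : ∑ j ∈ Finset.range m, rk E j ≤
      ∑ j ∈ Finset.range m, Module.finrank K (T.deg S.Y j) :=
    Finset.sum_le_sum fun j _ => rk_le E j
  have h2 : ∑ j ∈ Finset.range m, rk E (m + 1 + j) ≤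
      ∑ j ∈ Finset.range m, Module.finrank K (T.deg S.Y (m + 1 + j)) :=
    Finset.sum_le_sum fun j _ => rk_le E _
  rw [hrefl] at h2
  have h3 : ∑ j ∈ Finset.range m, (-1 : ℤ) ^ j * rk E j ≤
      ((∑ j ∈ Finset.range m, rk E j : ℕ) : ℤ) := by
    push_cast
    apply Finset.sum_le_sum
    intro j _
    rcases Nat.even_or_odd j with h | h
    · rw [h.neg_one_pow, one_mul]
    · rw [h.neg_one_pow, neg_one_mul]
      omega
  set A : ℤ := ∑ j ∈ Finset.range m, (-1 : ℤ) ^ j * rk E j with hA
  have ht : E.t = ((2 * A - 2 * k : ℤ) : K) := by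
    rw [t_eq, ← hm, hsum, hk, hA]
    push_cast
    ring
  have hne : A ≠ k := by
    intro h
    apply E.t_ne
    rw [ht, h, sub_self, Int.cast_zero]
  refine ⟨(k - A).toNat, ?_, ?_⟩
  · omega
  · have h4 : (((k - A).toNat : ℕ) : ℤ) = k - A := Int.toNat_of_nonneg (by omega)
    have h5 : (((k - A).toNat : ℕ) : K) = ((k - A : ℤ) : K) := by
      rw [← h4]
      push_cast
      rfl
    rw [ht, h5]
    push_cast
    ring

end Pool.NP
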