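import Pool.Agent.Work.MP_a60482_np.Glue
import Pool.Agent.Work.MP_a60482_np.Chain
import Pool.Agent.Work.MP_a60482_np.CtrEnd
import Pool.Agent.Work.MP_a60482_np.Fz
import Pool.Agent.Work.MP_a60482_np.Ins

/-!
A nilpotence consequence: there are no classes of even degree in the image of `e`.
-/

open CategoryTheory MonoidalCategory CartesianMonoidalCategory

universe u v w x b

namespace Pool.NP

open Pool.KC Pool.Std

variable {V : Type u} [Category.{v} V] [CartesianMonoidalCategory V] {K : Type x} [Field K]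
variable {T : WeilTheory.{u, v, w, x} V K}

/-- if the cohomology of the point is zero, then all cohomology is zero -/
theorem eq_zero_of_unit (h : (1 : T.H (𝟙_ V)) = 0) {Y : V} (z : T.H Y) : z = 0 := by
  have h1 : T.pull (toUnit Y) (1 : T.H (𝟙_ V)) = 0 := by rw [h, map_zero]
  rw [map_one] at h1
  rw [← one_mul z, h1, zero_mul]

/-- `z × y = 0` only if `z = 0` or `y = 0` -/
theorem cross_eq_zero {Y W : V} {z : T.H Y} {y : T.H W}
    (h : T.pull (fst Y W) z * T.pull (snd Y W) y = 0) : z = 0 ∨ y = 0 := by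
  by_cases hy : y = 0
  · exact Or.inr hy
  · refine Or.inl (T.nondeg fun b => ?_)
    have h1 : T.tr Y (b * z) • y = 0 := by
      rw [← T.push_pure, map_mul (T.pull (fst Y W)), mul_assoc, h, mul_zero, map_zero]
    exact (smul_eq_zero.mp h1).resolve_right hy

theorem tens_eq_zero {Y : V} {z : T.H Y} : ∀ n : ℕ, tens T z n = 0 → z = 0
  | 0, h => eq_zero_of_unit h z
  | n + 1, h => (cross_eq_zero h).elim id (tens_eq_zero n)

variable {X : V} {c : T.H X}

theorem Gen.one_ne (S : Gen T c) : (1 : T.H (𝟙_ V)) ≠ 0 := fun h =>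
  S.v_ne (eq_zero_of_unit h S.v)

theorem full_eq_zero' [CharZero K] {S : Gen T c} (E : Idem S) (hw : WardRel E) {g : ℕ}
    (hg : E.t = -(2 * (g : K))) {n : ℕ} (hn : n = 2 * g + 2) (γ : T.H (pow S.Y n))
    (hγ : IsSym E n γ) : full E n γ = 0 := by
  subst hn
  exact full_eq_zero E hw (ctrRel E) hg γ hγ

theorem even_zero [CharZero K] (hnil : Nil T) {S : Gen T c} (E : Idem S) (hw : WardRel E) {g : ℕ}
    (hg : E.t = -(2 * (g : K))) {j : ℕ} {z : T.H S.Y}
    (hz : z ∈ T.deg S.Y (2 * j)) (he : T.act E.e z = z) : z = 0 := by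
  have hd : ∀ n, T.dim (pow S.Y n) = n * T.dim S.Y := fun n =>
    dim_pow (dim_unit S.one_ne) S.Y n
  have hk : 2 * T.dim (pow S.Y (g + 1)) = ((g + 1) + (g + 1)) * T.dim S.Y := by
    rw [hd]; ring
  have hF : T.pull (glue S.Y (g + 1) (g + 1)) (symM E ((g + 1) + (g + 1))) ∈
      T.C (pow S.Y (g + 1) ⊗ pow S.Y (g + 1)) (T.dim (pow S.Y (g + 1))) :=
    T.C_pull _ (symM_mem E hk)
  have h0 : IsNilpotent (T.act (T.pull (glue S.Y (g + 1) (g + 1))
      (symM E ((g + 1) + (g + 1)))) : Module.End K (T.H (pow S.Y (g + 1)))) := by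
    refine hnil _ _ hF fun y hy => ?_
    obtain ⟨g', hg', rfl⟩ := exists_glue (g + 1) (g + 1) _ y hy
    rw [← map_mul, tr_glue]
    exact tr_symM_eq_zero E hk (fun γ hγ => full_eq_zero' E hw hg (by ring) γ hγ) g' hg'
  obtain ⟨s, hs, h1⟩ := act_symM E hz he (g + 1)
  obtain ⟨N, hN⟩ := h0
  have h2 : ∀ m : ℕ, ((T.act (T.pull (glue S.Y (g + 1) (g + 1))
      (symM E ((g + 1) + (g + 1)))) : Module.End K (T.H (pow S.Y (g + 1)))) ^ m)
      (tens T z (g + 1)) = s ^ m • tens T z (g + 1) := by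
    intro m
    induction m with
    | zero => simp
    | succ m ih =>
      rw [pow_succ', Module.End.mul_apply, ih, map_smul, h1, smul_smul, pow_succ]
  have h3 := h2 N
  rw [hN, LinearMap.zero_apply] at h3
  exact tens_eq_zero (g + 1) ((smul_eq_zero.mp h3.symm).resolve_left (pow_ne_zero N hs))

end Pool.NP
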