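import Pool.Agent.Work.MP_a60482_np.Defs

/-!
# MP_a60482_np, block RG: the inverse of `L` from the vanishing of the even part of `e`
-/

open CategoryTheory MonoidalCategory CartesianMonoidalCategory

universe u v w x b

namespace Pool.NP

open Pool.KC Pool.Std

variable {V : Type u} [Category.{v} V] [CartesianMonoidalCategory V] {K : Type x} [Field K]
variable {T : WeilTheory.{u, v, w, x} V K} {X : V} {c : T.H X}

theorem inv_of_even [CharZero K] (hc : c ∈ T.C X 1) {S : Gen T c} (E : Idem S)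
    (hhard : ∀ a ∈ T.deg X (T.dim X - 2), c * (c * a) = 0 → a = 0)
    (h : ∀ (j : ℕ) (z : T.H S.Y), z ∈ T.deg S.Y (2 * j) → T.act E.e z = z → z = 0) :
    Inv T c := by
  have hd := S.dim
  obtain ⟨m, hm⟩ := S.odd
  have hz : T.diag S.Y - E.e ∈ T.C (S.Y ⊗ S.Y) (T.dim S.Y) := sub_mem (T.C_diag S.Y) E.mem
  have hact : ∀ a, T.act (T.diag S.Y - E.e) a = a - T.act E.e a := by
    intro a
    rw [← T.actEquiv_apply, map_sub, T.actEquiv_apply, T.actEquiv_apply, LinearMap.sub_apply,
      T.act_diag, LinearMap.id_apply]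
  obtain ⟨g, hg, s, hgz⟩ := S.two _ hz
  have hs : s = 0 := by
    have h1 : T.act (T.diag S.Y - E.e) S.v = 0 := by
      rw [hact, E.van _ S.v_van, sub_self]
    rw [hgz, T.act_add, T.act_smul, LinearMap.add_apply, LinearMap.smul_apply,
      SL.act_sq_van S.i g S.v_orth, zero_add, T.act_diag, LinearMap.id_apply] at h1
    exact (smul_eq_zero.mp h1).resolve_right S.v_ne
  rw [hs, zero_smul, add_zero] at hgz
  have heven : ∀ (j : ℕ), ∀ a ∈ T.deg S.Y (2 * j), T.act (T.diag S.Y - E.e) a = a := by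
    intro j a ha
    have h2 : T.act E.e a ∈ T.deg S.Y (2 * j) :=
      T.act_deg (T.C_deg _ _ E.mem) (by omega) ha
    rw [hact, h j _ h2 (E.idem a), sub_zero]
  refine ⟨S.r • g, Submodule.smul_mem _ _ ?_, ?_⟩
  · have : T.dim X - 1 = T.dim S.Y := by omega
    rw [this]
    exact hg
  intro ξ hξ
  have h2 : T.pull S.i ξ = S.r • T.pull S.i (T.act g (c * ξ)) := by
    have h3 := SL.act_sq_pull S.i hc S.tr g ξ
    rw [← T.even_comm (T.C_deg _ _ hc) ξ, ← hgz,
      heven m _ (T.pull_deg _ (T.deg_of_eq hξ (by omega)))] at h3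
    exact h3
  have h7 : T.act g (c * ξ) ∈ T.deg X (T.dim X - 2) := by
    refine T.act_deg (T.C_deg _ _ hg) ?_ (T.mul_deg (T.C_deg _ _ hc) hξ)
    omega
  have h6 : c * (S.r • T.act g (c * ξ) - ξ) = 0 := by
    apply T.nondeg
    intro b
    have h5 := S.tr (b * (S.r • T.act g (c * ξ) - ξ))
    rw [map_mul, map_sub, map_smul, ← h2, sub_self, mul_zero, map_zero] at h5
    have h8 : S.r * T.tr X (b * (c * (S.r • T.act g (c * ξ) - ξ))) = 0 := by
      rw [T.even_comm (T.C_deg _ _ hc) (S.r • T.act g (c * ξ) - ξ), ← mul_assoc, ← h5]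
    exact (mul_eq_zero.mp h8).resolve_left S.r_ne
  have h9 : S.r • T.act g (c * ξ) - ξ = 0 := by
    refine hhard _ (sub_mem (Submodule.smul_mem _ _ h7) hξ) ?_
    rw [h6, mul_zero]
  rw [T.act_smul, LinearMap.smul_apply]
  exact sub_eq_zero.mp h9

end Pool.NP
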