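import Pool.Agent.Work.MP_a60482_np.Defs
import Pool.Agent.Work.MP_a60482_np.Alg

/-!
The algebraic idempotent of the vanishing cohomology of a very general section.
-/

open CategoryTheory MonoidalCategory CartesianMonoidalCategory

universe u v w x b

namespace Pool.NP

open Pool.KC Pool.Std Pool.SL

variable {V : Type u} [Category.{v} V] [CartesianMonoidalCategory V] {K : Type x} [Field K]
variable {T : WeilTheory.{u, v, w, x} V K}

section Sec

variable {X : V} {c : T.H X}

/-- the scalar of `T.pull (sq i) g + s • T.diag Y` on the vanishing cohomology is `s` -/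
private theorem act_van_aux (S : Gen T c) (g : T.H (X ⊗ X)) (s : K) {y : T.H S.Y}
    (hy : y ∈ S.van) : T.act (T.pull (sq S.i) g + s • T.diag S.Y) y = s • y := by
  rw [T.act_add, LinearMap.add_apply, act_sq_van S.i g (S.mem_van.mp hy).2, zero_add, T.act_smul,
    T.act_diag]
  rfl

theorem Gen.act_van (S : Gen T c) {z : T.H (S.Y ⊗ S.Y)} (hz : z ∈ T.C (S.Y ⊗ S.Y) (T.dim S.Y)) :
    ∃ s : K, ∀ y ∈ S.van, T.act z y = s • y := by
  obtain ⟨g, -, s, rfl⟩ := S.two z hz
  exact ⟨s, fun y hy => act_van_aux S g s hy⟩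

theorem Gen.exists_dual (hc : c ∈ T.C X 1)
    (hhard : ∀ a ∈ T.deg X (T.dim X - 1), c * a = 0 → a = 0) (S : Gen T c) :
    ∃ y ∈ S.van, T.tr S.Y (S.v * y) ≠ 0 := by
  by_contra hcon
  push Not at hcon
  have hdim := S.dim
  apply S.v_ne
  refine T.eq_zero_of_deg S.v_mem fun j hj w hw => ?_
  have hj' : j = T.dim S.Y := by omega
  subst hj'
  -- the form `(a, b) ↦ tr (a b c)` on the middle degree
  let M : Submodule K (T.H X) := T.deg X (T.dim S.Y)
  let β : M →ₗ[K] Module.Dual K M :=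
    { toFun := fun a => T.tr S.Y ∘ₗ LinearMap.mulLeft K (T.pull S.i a.1) ∘ₗ
        (T.pull S.i).toLinearMap ∘ₗ M.subtype
      map_add' := by
        intro a b
        apply LinearMap.ext
        intro d
        change T.tr S.Y (T.pull S.i (a.1 + b.1) * T.pull S.i d.1) =
          T.tr S.Y (T.pull S.i a.1 * T.pull S.i d.1) + T.tr S.Y (T.pull S.i b.1 * T.pull S.i d.1)
        rw [map_add, add_mul, map_add]
      map_smul' := by
        intro r a
        apply LinearMap.ext
        intro d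
        change T.tr S.Y (T.pull S.i (r • a.1) * T.pull S.i d.1) =
          r • T.tr S.Y (T.pull S.i a.1 * T.pull S.i d.1)
        rw [map_smul, smul_mul_assoc, map_smul] }
  have hβ : ∀ a b : M, β a b = T.tr S.Y (T.pull S.i a.1 * T.pull S.i b.1) := fun a b => rfl
  have hinj : Function.Injective β := by
    rw [injective_iff_map_eq_zero]
    intro a ha
    apply Subtype.ext
    refine hhard a.1 ?_ ?_
    · have := a.2
      rwa [show T.dim X - 1 = T.dim S.Y by omega]
    · have hca : c * a.1 ∈ T.deg X (2 * 1 + T.dim S.Y) := T.mul_deg (T.C_deg _ _ hc) a.2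
      refine T.eq_zero_of_deg hca fun l hl b hb => ?_
      have hl' : l = T.dim S.Y := by omega
      subst hl'
      have h1 : β a ⟨b, hb⟩ = 0 := by rw [ha]; rfl
      rw [hβ, ← map_mul, S.tr] at h1
      have h2 : T.tr X (a.1 * b * c) = 0 := by
        rcases mul_eq_zero.mp h1 with h | h
        · exact absurd h S.r_ne
        · exact h
      have h3 : b * (c * a.1) = (-1 : K) ^ (T.dim S.Y * T.dim S.Y) • (a.1 * b * c) := by
        rw [T.even_comm (T.C_deg _ _ hc) a.1, ← mul_assoc, T.comm hb a.2, T.neg_pow_smul,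
          smul_mul_assoc]
      rw [h3, map_smul, h2, smul_zero]
  have hsurj : Function.Surjective β := by
    have := LinearMap.injective_iff_surjective_of_finrank_eq_finrank
      (f := β) (Subspace.dual_finrank_eq).symm
    exact this.mp hinj
  obtain ⟨a, ha⟩ := hsurj (T.tr S.Y ∘ₗ LinearMap.mulLeft K w ∘ₗ (T.pull S.i).toLinearMap ∘ₗ
    M.subtype)
  have hwa : w - T.pull S.i a.1 ∈ S.van := by
    rw [S.mem_van]
    have hm : w - T.pull S.i a.1 ∈ T.deg S.Y (T.dim S.Y) := sub_mem hw (T.pull_deg _ a.2)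
    refine ⟨hm, fun b => ?_⟩
    refine T.hind (P := fun b => T.tr S.Y ((w - T.pull S.i a.1) * T.pull S.i b) = 0) (by simp)
      ?_ ?_ b
    · intro l b hb
      by_cases hl : l = T.dim S.Y
      · subst hl
        have h1 := LinearMap.congr_fun ha ⟨b, hb⟩
        rw [hβ] at h1
        have h2 : T.tr S.Y (T.pull S.i a.1 * T.pull S.i b) = T.tr S.Y (w * T.pull S.i b) := h1
        rw [sub_mul, map_sub, h2, sub_self]
      · exact T.tr_mul_ne hm (T.pull_deg _ hb) (by omega)
    · intro b d h1 h2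
      rw [map_add, mul_add, map_add, h1, h2, add_zero]
  have h1 := hcon _ hwa
  rw [mul_sub, map_sub, S.v_orth, sub_zero] at h1
  rw [T.comm hw S.v_mem, T.neg_pow_smul, map_smul, h1, smul_zero]

/-! ### the transpose of an algebraic operator -/

/-- the transpose is the adjoint of the trace form -/
private theorem tr_swap_adj {Y : V} {z : T.H (Y ⊗ Y)} (hz : z ∈ T.C (Y ⊗ Y) (T.dim Y))
    (a e : T.H Y) : T.tr Y (T.act (T.pull (Cohomology.swap Y) z) a * e) =
      T.tr Y (a * T.act z e) := by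
  refine T.hind (P := fun a => T.tr Y (T.act (T.pull (Cohomology.swap Y) z) a * e) =
      T.tr Y (a * T.act z e)) (by simp) ?_ ?_ a
  · intro k a ha
    refine T.hind (P := fun e => T.tr Y (T.act (T.pull (Cohomology.swap Y) z) a * e) =
      T.tr Y (a * T.act z e)) (by simp) ?_ ?_ e
    · intro l e he
      have h1 : T.act z e ∈ T.deg Y l := T.act_deg (T.C_deg _ _ hz) (by omega) he
      rw [tr_act_swap (T.C_deg _ _ hz) ha he, T.comm ha h1, T.neg_pow_smul, map_smul, smul_eq_mul]
    · intro d e h1 h2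
      rw [mul_add, map_add, h1, h2, map_add, mul_add, map_add]
  · intro d a h1 h2
    rw [map_add, add_mul, map_add, h1, h2, add_mul, map_add]

/-- an operator is determined by its adjoint -/
private theorem ext_adj {Y : V} {f g : T.H Y →ₗ[K] T.H Y}
    (h : ∀ a e, T.tr Y (f a * e) = T.tr Y (g a * e)) : f = g := by
  apply LinearMap.ext
  intro a
  rw [← sub_eq_zero]
  apply T.nondeg'
  intro e
  rw [sub_mul, map_sub, h, sub_self]

private theorem exists_st (Y : V) : ∃ st : T.ops Y →ₗ[K] T.ops Y, ∀ (z : T.H (Y ⊗ Y))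
    (hz : T.act z ∈ T.ops Y), (st ⟨T.act z, hz⟩).1 = T.act (T.pull (Cohomology.swap Y) z) := by
  have h1 : ∀ z, T.act z ∈ T.ops Y → T.act (T.pull (Cohomology.swap Y) z) ∈ T.ops Y := by
    intro z hz
    rw [T.act_mem_ops] at hz ⊢
    exact T.C_pull _ hz
  have hs : ∀ f : T.ops Y, T.act ((T.actEquiv Y Y).symm f.1) = f.1 := by
    intro f
    rw [← T.actEquiv_apply, LinearEquiv.apply_symm_apply]
  refine ⟨{ toFun := fun f => ⟨T.act (T.pull (Cohomology.swap Y) ((T.actEquiv Y Y).symm f.1)),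
              h1 _ (by rw [hs]; exact f.2)⟩
            map_add' := ?_
            map_smul' := ?_ }, ?_⟩
  · intro f g
    apply Subtype.ext
    change T.act (T.pull (Cohomology.swap Y) ((T.actEquiv Y Y).symm (f.1 + g.1))) =
      T.act (T.pull (Cohomology.swap Y) ((T.actEquiv Y Y).symm f.1)) +
      T.act (T.pull (Cohomology.swap Y) ((T.actEquiv Y Y).symm g.1))
    rw [map_add, map_add, T.act_add]
  · intro r f
    apply Subtype.ext
    change T.act (T.pull (Cohomology.swap Y) ((T.actEquiv Y Y).symm (r • f.1))) =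
      r • T.act (T.pull (Cohomology.swap Y) ((T.actEquiv Y Y).symm f.1))
    rw [map_smul, map_smul, T.act_smul]
  · intro z hz
    change T.act (T.pull (Cohomology.swap Y) ((T.actEquiv Y Y).symm (T.act z))) = _
    have h2 : (T.actEquiv Y Y).symm (T.act z) = z := by
      rw [← T.actEquiv_apply z, LinearEquiv.symm_apply_apply]
    rw [h2]

/-- the supertrace of a nilpotent algebraic operator is zero -/
private theorem str_nilp {Y : V} {f : Module.End K (T.H Y)} (hf : f ∈ T.ops Y)
    (hn : IsNilpotent f) : str (T.proj Y) (2 * T.dim Y + 1) f = 0 := by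
  rw [str_apply]
  refine Finset.sum_eq_zero fun i _ => ?_
  have h1 : Commute f (T.proj Y i) := T.ops_mul_proj hf i
  have h2 : IsNilpotent (f * T.proj Y i) := h1.isNilpotent_mul_right hn
  rw [(LinearMap.isNilpotent_trace_of_isNilpotent h2).eq_zero, mul_zero]

theorem Gen.exists_idem [CharZero K] (hnil : Nil T) (S : Gen T c) : Nonempty (Idem S) := by
  obtain ⟨st, hst⟩ := exists_st (T := T) S.Y
  have hc : ∀ f ∈ T.ops S.Y, ∀ i, f * T.proj S.Y i = T.proj S.Y i * f := fun f hf i =>
    T.ops_mul_proj hf i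
  -- representation of the elements of the algebra
  have hrep : ∀ f : T.ops S.Y, ∃ z, ∃ hz : T.act z ∈ T.ops S.Y, z ∈ T.C (S.Y ⊗ S.Y) (T.dim S.Y) ∧
      f = ⟨T.act z, hz⟩ := by
    rintro ⟨_, z, hz, rfl⟩
    exact ⟨z, ⟨z, hz, rfl⟩, hz, rfl⟩
  -- the character
  have hχ0 : ∀ f : T.ops S.Y, ∃ s : K, ∀ y ∈ S.van, f.1 y = s • y := by
    rintro ⟨_, z, hz, rfl⟩
    exact S.act_van hz
  choose χ₀ hχ₀ using hχ0
  have huniq : ∀ (f : T.ops S.Y) (s : K), f.1 S.v = s • S.v → χ₀ f = s := by
    intro f s hs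
    rw [hχ₀ f S.v S.v_van] at hs
    exact smul_left_injective K S.v_ne hs
  let χ : T.ops S.Y →ₐ[K] K := AlgHom.ofLinearMap
    { toFun := χ₀
      map_add' := by
        intro f g
        apply huniq
        change f.1 S.v + g.1 S.v = _
        rw [hχ₀ f _ S.v_van, hχ₀ g _ S.v_van, add_smul]
      map_smul' := by
        intro r f
        apply huniq
        change r • f.1 S.v = _
        rw [hχ₀ f _ S.v_van, smul_smul]
        rfl }
    (by
      apply huniq
      change S.v = _
      rw [one_smul])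
    (by
      intro f g
      apply huniq
      change f.1 (g.1 S.v) = _
      rw [hχ₀ g _ S.v_van, map_smul, hχ₀ f _ S.v_van, smul_smul, mul_comm]
      rfl)
  have hχ : ∀ f, χ f = χ₀ f := fun f => rfl
  let σ : T.ops S.Y →ₗ[K] K := str (T.proj S.Y) (2 * T.dim S.Y + 1) ∘ₗ (T.ops S.Y).val.toLinearMap
  have hσ : ∀ f, σ f = str (T.proj S.Y) (2 * T.dim S.Y + 1) f.1 := fun f => rfl
  have hst' : ∀ a b, st (a * b) = st b * st a := by
    intro f g
    obtain ⟨z, hz, hzC, rfl⟩ := hrep f
    obtain ⟨y, hy, hyC, rfl⟩ := hrep g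
    obtain ⟨x, hx, hxC, hxe⟩ := hrep (⟨T.act z, hz⟩ * ⟨T.act y, hy⟩)
    have hx1 : T.act z * T.act y = T.act x := congrArg Subtype.val hxe
    apply Subtype.ext
    rw [hxe, hst]
    change _ = (st ⟨T.act y, hy⟩).1 * (st ⟨T.act z, hz⟩).1
    rw [hst, hst]
    apply ext_adj
    intro a e
    rw [tr_swap_adj hxC, ← hx1, Module.End.mul_apply, Module.End.mul_apply, tr_swap_adj hyC,
      tr_swap_adj hzC]
  have hst2 : ∀ a, st (st a) = a := by
    intro f
    obtain ⟨z, hz, hzC, rfl⟩ := hrep f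
    have h1 : st ⟨T.act z, hz⟩ = ⟨T.act (T.pull (Cohomology.swap S.Y) z),
        T.act_mem_ops.mpr (T.C_pull _ hzC)⟩ := Subtype.ext (hst z hz)
    rw [h1]
    apply Subtype.ext
    rw [hst, T.swap_swap]
  have hstr : ∀ z : T.H (S.Y ⊗ S.Y), str (T.proj S.Y) (2 * T.dim S.Y + 1) (T.act z) =
      T.tr (S.Y ⊗ S.Y) (z * T.diag S.Y) := by
    intro z
    rw [T.tr_mul_eq_str, T.swap_diag, T.act_diag]
    rfl
  have hσst : ∀ a, σ (st a) = σ a := by
    intro f
    obtain ⟨z, hz, hzC, rfl⟩ := hrep f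
    have h1 : T.pull (Cohomology.swap S.Y) z * T.diag S.Y =
        T.pull (Cohomology.swap S.Y) (z * T.diag S.Y) := by
      rw [map_mul (T.pull (Cohomology.swap S.Y)), T.swap_diag]
    rw [hσ, hσ, hst, hstr, hstr, h1]
    exact T.tr_sw _
  have hχst : ∀ a, χ (st a) = χ a := by
    intro f
    obtain ⟨z, hz, hzC, rfl⟩ := hrep f
    obtain ⟨g, -, s, hgs⟩ := S.two z hzC
    subst hgs
    rw [hχ, hχ]
    have h1 : χ₀ ⟨T.act (T.pull (sq S.i) g + s • T.diag S.Y), hz⟩ = s :=
      huniq _ _ (act_van_aux S g s S.v_van)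
    rw [h1]
    apply huniq
    rw [hst, map_add, map_smul, T.swap_diag, T.pull_comp']
    have h2 : Cohomology.swap S.Y ≫ Pool.SL.sq S.i = Pool.SL.sq S.i ≫ Cohomology.swap X := by
      ext <;> simp [Cohomology.swap, Pool.SL.sq]
    rw [h2, T.pull_comp]
    exact act_van_aux S _ s S.v_van
  have hnil' : ∀ a, (∀ b, σ (a * b) = 0) → IsNilpotent a := by
    intro f hf
    obtain ⟨z, hz, hzC, rfl⟩ := hrep f
    obtain ⟨n, hn⟩ := hnil S.Y z hzC (by
      intro y hy
      have h1 : T.act (T.pull (Cohomology.swap S.Y) y) ∈ T.ops S.Y :=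
        T.act_mem_ops.mpr (T.C_pull _ hy)
      have h2 := hf ⟨T.act (T.pull (Cohomology.swap S.Y) y), h1⟩
      rw [T.tr_mul_eq_str, str_comm (T.ops S.Y) hc h1 hz]
      exact h2)
    refine ⟨n, Subtype.ext ?_⟩
    rw [SubmonoidClass.coe_pow]
    exact hn
  have hσnil : ∀ a, IsNilpotent a → σ a = 0 := by
    rintro f ⟨n, hn⟩
    refine str_nilp f.2 ⟨n, ?_⟩
    have := congrArg Subtype.val hn
    rwa [SubmonoidClass.coe_pow] at this
  obtain ⟨e, he1, he2, he3, he4, he5⟩ := exists_idem_alg (A := T.ops S.Y) σ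
    (fun a b => str_comm (T.ops S.Y) hc a.2 b.2) st hst' hst2 hσst χ hχst hnil' hσnil
  obtain ⟨z, hz, hzC, rfl⟩ := hrep e
  refine ⟨{ e := z, mem := hzC, idem := ?_, symm := ?_, van := ?_, t := σ ⟨T.act z, hz⟩,
            t_ne := he4, tr := ?_ }⟩
  · intro a
    have h1 : T.act z * T.act z = T.act z := congrArg Subtype.val he1
    exact LinearMap.congr_fun h1 a
  · apply T.act_injective
    rw [← hst z hz, he2]
  · intro y hy
    have h1 := hχ₀ ⟨T.act z, hz⟩ y hy
    rw [← hχ, he3, one_smul] at h1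
    exact h1
  · intro y hy s hs
    have hyo : T.act y ∈ T.ops S.Y := T.act_mem_ops.mpr hy
    have h1 : χ₀ ⟨T.act y, hyo⟩ = s := huniq _ _ (hs _ S.v_van)
    have h2 := he5 (st ⟨T.act y, hyo⟩)
    rw [hχst, hχ, h1] at h2
    rw [← h2, T.tr_mul_eq_str, ← hst y hyo]
    exact str_comm (T.ops S.Y) hc (st ⟨T.act y, hyo⟩).2 hz

end Sec

end Pool.NP
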