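import Pool.Agent.Work.MP_a60482_np.WardA

/-!
Block WARD, part C: the self-correspondence `γ^t γ` of `Y`.
-/

open CategoryTheory MonoidalCategory CartesianMonoidalCategory

universe u v w x b

namespace Pool.NP

open Pool.KC Pool.Std

variable {V : Type u} [Category.{v} V] [CartesianMonoidalCategory V] {K : Type x} [Field K]
variable {T : WeilTheory.{u, v, w, x} V K}

/-- adjointness for classes of odd degree -/
theorem tr_act_flip_odd {A W : V} {i : ℕ} {z : T.H (A ⊗ W)} (hz : z ∈ T.deg (A ⊗ W) (2 * i))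
    {s t : ℕ} (hs : Odd s) (ht : Odd t) {y : T.H A} (hy : y ∈ T.deg A s) {q : T.H W}
    (hq : q ∈ T.deg W t) :
    T.tr A (T.act (flip T z) q * y) = - T.tr W (T.act z y * q) := by
  rw [T.tr_act, T.tr_act, ← tr_flip (T.pull (fst A W) y * z * T.pull (snd A W) q)]
  have h1 : flip T (T.pull (fst A W) y * z * T.pull (snd A W) q) =
      T.pull (snd W A) y * flip T z * T.pull (fst W A) q := by
    unfold flip
    rw [map_mul, map_mul, T.pull_comp', T.pull_comp', lift_fst, lift_snd]
  have h2 : flip T z ∈ T.deg (W ⊗ A) (2 * i) := T.pull_deg _ hz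
  have e2 : T.pull (snd W A) y * T.pull (fst W A) q =
      - (T.pull (fst W A) q * T.pull (snd W A) y) := by
    rw [T.comm (T.pull_deg (snd W A) hy) (T.pull_deg (fst W A) hq), Odd.neg_one_pow (hs.mul ht),
      neg_one_mul]
  rw [h1, ← T.even_comm h2 (T.pull (snd W A) y), mul_assoc (flip T z), e2, mul_neg, map_neg,
    neg_neg, ← mul_assoc (flip T z), T.even_comm h2]

/-- the intersection number of two classes on `A × Z` as an intersection number with the
diagonal -/
theorem tr_mul_comp {A Z : V} {i j : ℕ} {z y : T.H (A ⊗ Z)} (hz : z ∈ T.deg (A ⊗ Z) (2 * i))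
    (hy : y ∈ T.deg (A ⊗ Z) (2 * j)) :
    T.tr (A ⊗ Z) (z * y) = T.tr (A ⊗ A) (T.comp z (flip T y) * T.diag A) := by
  refine T.kindk (P := fun z => T.tr (A ⊗ Z) (z * y) =
    T.tr (A ⊗ A) (T.comp z (flip T y) * T.diag A)) (by simp [Cohomology.comp]) ?_ ?_ hz
  · intro a b p q hp hq hab
    refine T.kindk (P := fun y =>
      T.tr (A ⊗ Z) (T.pull (fst A Z) p * T.pull (snd A Z) q * y) =
      T.tr (A ⊗ A) (T.comp (T.pull (fst A Z) p * T.pull (snd A Z) q) (flip T y) * T.diag A))
      (by simp [Cohomology.comp, flip]) ?_ ?_ hy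
    · intro c d r s hr hs hcd
      have hL : T.tr (A ⊗ Z) (T.pull (fst A Z) p * T.pull (snd A Z) q *
          (T.pull (fst A Z) r * T.pull (snd A Z) s)) =
          (-1) ^ (b * c) * (T.tr A (p * r) * T.tr Z (q * s)) := by
        have h1 := T.comm (T.snd_deg (X := A) hq) (T.fst_deg (Y := Z) hr)
        rw [T.neg_pow_smul] at h1
        rw [mul_assoc, ← mul_assoc (T.pull (snd A Z) q), h1, smul_mul_assoc, mul_smul_comm,
          map_smul, mul_assoc, ← mul_assoc (T.pull (fst A Z) p), ← map_mul, ← map_mul, T.tr_prod,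
          smul_eq_mul]
      have hf : flip T (T.pull (fst A Z) r * T.pull (snd A Z) s) =
          (-1 : K) ^ (c * d) • (T.pull (fst Z A) s * T.pull (snd Z A) r) := by
        unfold flip
        rw [map_mul, T.pull_comp', T.pull_comp', lift_fst, lift_snd,
          T.comm (T.snd_deg (X := Z) hr) (T.fst_deg (Y := A) hs), T.neg_pow_smul]
      have hcomp : T.comp (T.pull (fst A Z) p * T.pull (snd A Z) q)
          (T.pull (fst Z A) s * T.pull (snd Z A) r) =
          T.tr Z (q * s) • (T.pull (fst A A) p * T.pull (snd A A) r) := by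
        apply T.act_injective
        apply LinearMap.ext
        intro t
        rw [T.act_comp, T.act_smul, LinearMap.comp_apply, LinearMap.smul_apply, T.act_pure,
          T.act_pure, T.act_pure, smul_mul_assoc, map_smul, smul_smul, smul_eq_mul,
          mul_comm (T.tr A (t * p))]
      have hcs : T.comp (T.pull (fst A Z) p * T.pull (snd A Z) q)
          ((-1 : K) ^ (c * d) • (T.pull (fst Z A) s * T.pull (snd Z A) r)) =
          (-1 : K) ^ (c * d) • T.comp (T.pull (fst A Z) p * T.pull (snd A Z) q)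
          (T.pull (fst Z A) s * T.pull (snd Z A) r) := by
        unfold Cohomology.comp
        rw [map_smul, mul_smul_comm, map_smul]
      rw [hL, hf, hcs, hcomp, smul_mul_assoc, smul_mul_assoc, map_smul, map_smul, T.diag_spec,
        map_mul (T.pull _), T.pull_comp', T.pull_comp', lift_fst, lift_snd, T.pull_id, T.pull_id,
        smul_eq_mul, smul_eq_mul]
      by_cases hac : a + c = 2 * T.dim A
      · have hpar : (-1 : K) ^ (b * c) = (-1) ^ (c * d) := by
          rcases Nat.even_or_odd c with hc | hc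
          · rw [(hc.mul_left b).neg_one_pow, (hc.mul_right d).neg_one_pow]
          · have ha : Odd a := by
              rcases Nat.even_or_odd a with h | h
              · exfalso
                obtain ⟨t, ht⟩ := h
                obtain ⟨t', ht'⟩ := hc
                omega
              · exact h
            have hb : Odd b := by
              rcases Nat.even_or_odd b with h | h
              · exfalso
                obtain ⟨t, ht⟩ := h
                obtain ⟨t', ht'⟩ := ha
                omega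
              · exact h
            have hd : Odd d := by
              rcases Nat.even_or_odd d with h | h
              · exfalso
                obtain ⟨t, ht⟩ := h
                obtain ⟨t', ht'⟩ := hc
                omega
              · exact h
            rw [(hb.mul hc).neg_one_pow, (hc.mul hd).neg_one_pow]
        rw [hpar]
        ring
      · rw [T.tr_mul_ne hp hr hac]
        ring
    · intro y y' h1 h2
      have : flip T (y + y') = flip T y + flip T y' := map_add _ _ _
      rw [mul_add, map_add, h1, h2, this, T.comp_add_right, add_mul, map_add]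
  · intro z z' h1 h2
    rw [add_mul, map_add, h1, h2, T.comp_add_left, add_mul, map_add]

/-- **Part C.** -/
theorem wc {X : V} {c : T.H X} {S : Gen T c} (E : Idem S) (W : V) (g : T.H (S.Y ⊗ (S.Y ⊗ W)))
    {k : ℕ} (hk : 2 * k = 2 * T.dim S.Y + T.dim W) (hg : g ∈ T.C (S.Y ⊗ (S.Y ⊗ W)) k)
    (he : ∀ a, T.act (X := S.Y) (Y := S.Y ⊗ W) g (T.act E.e a) =
      T.act (X := S.Y) (Y := S.Y ⊗ W) g a) :
    ∃ s : K, T.tr _ (g * g) = E.t * s ∧ ∀ y ∈ S.van, ∀ y' ∈ S.van,
      T.tr (S.Y ⊗ W) (T.act (X := S.Y) (Y := S.Y ⊗ W) g y *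
        T.act (X := S.Y) (Y := S.Y ⊗ W) g y') = s * T.tr S.Y (y * y') := by
  have hdZ : T.dim (S.Y ⊗ W) = T.dim S.Y + T.dim W := T.dim_prod _ _
  set z := T.comp g (flip T g) with hz
  have hflip : flip T g ∈ T.C _ k := T.C_pull _ hg
  have hzC : z ∈ T.C (S.Y ⊗ S.Y) (T.dim S.Y) := by
    rw [hz]
    unfold Cohomology.comp
    apply T.C_push
    have h3 := T.C_mul (T.C_pull (lift (snd (S.Y ⊗ W) (S.Y ⊗ S.Y) ≫ fst S.Y S.Y)
      (fst (S.Y ⊗ W) (S.Y ⊗ S.Y))) hg) (T.C_pull (lift (fst (S.Y ⊗ W) (S.Y ⊗ S.Y))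
      (snd (S.Y ⊗ W) (S.Y ⊗ S.Y) ≫ snd S.Y S.Y)) hflip)
    rw [show T.dim (S.Y ⊗ W) + T.dim S.Y = k + k by omega]
    exact h3
  have hza : ∀ a, T.act z a = T.act (flip T g) (T.act g a) := by
    intro a
    rw [hz, T.act_comp]
    rfl
  have hze : T.act z * T.act E.e = T.act z := by
    apply LinearMap.ext
    intro a
    rw [Module.End.mul_apply, hza, hza, he]
  -- the scalar on the vanishing cohomology
  obtain ⟨g', -, s, hs⟩ := S.two z hzC
  have hsv : ∀ y ∈ S.van, T.act z y = s • y := by
    intro y hy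
    rw [hs, T.act_add, LinearMap.add_apply, T.act_smul, LinearMap.smul_apply, T.act_diag,
      LinearMap.id_apply]
    have h1 := Pool.SL.act_sq_van S.i g' hy.2
    unfold Pool.SL.sq at h1
    rw [h1, zero_add]
  refine ⟨s, ?_, ?_⟩
  · rw [tr_mul_comp (T.C_deg _ _ hg) (T.C_deg _ _ hg), ← E.tr z hzC s hsv,
      T.even_comm (T.C_deg _ _ E.mem), T.tr_mul_eq_str, T.tr_mul_eq_str, T.swap_diag, T.act_diag]
    have hsw : T.pull (Cohomology.swap S.Y) E.e = E.e := E.symm
    rw [hsw, ← hz, str_comm (T.ops S.Y) (fun f hf i => T.ops_mul_proj hf i)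
      (T.act_mem_ops.mpr E.mem) (T.act_mem_ops.mpr hzC), hze]
    rfl
  · intro y hy y' hy'
    have hgd := T.C_deg _ _ hg
    have hq : T.act (X := S.Y) (Y := S.Y ⊗ W) g y' ∈ T.deg (S.Y ⊗ W) (T.dim S.Y + T.dim W) :=
      T.act_deg hgd (by omega) hy'.1
    have hodd : Odd (T.dim S.Y + T.dim W) := by
      obtain ⟨t, ht⟩ := S.odd
      exact ⟨k - t - 1, by omega⟩
    have h1 := tr_act_flip_odd hgd S.odd hodd hy.1 hq
    rw [← hza, hsv y' hy', smul_mul_assoc, map_smul, smul_eq_mul, T.comm hy'.1 hy.1,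
      (S.odd.mul S.odd).neg_one_pow, neg_one_mul, map_neg, mul_neg] at h1
    exact (neg_injective h1).symm

end Pool.NP
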