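import Pool.Agent.Work.MP_a60482_np.Defs

/-!
Block POW: powers of an object and permutations of the factors.
-/

open CategoryTheory MonoidalCategory CartesianMonoidalCategory

universe u v w x b

namespace Pool.NP

open Pool.KC Pool.Std

section Pow

variable {V : Type u} [Category.{v} V] [CartesianMonoidalCategory V]

theorem tup_pr {Z Y : V} {n : ℕ} (f : Fin n → (Z ⟶ Y)) (i : Fin n) :
    tup n f ≫ pr Y n i = f i := by
  induction n with
  | zero => exact i.elim0
  | succ n ih =>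
    refine Fin.cases ?_ (fun j => ?_) i
    · exact lift_fst _ _
    · change lift (f 0) (tup n fun i => f i.succ) ≫ snd Y (pow Y n) ≫ pr Y n j = _
      rw [lift_snd_assoc]
      exact ih (fun i => f i.succ) j

theorem pow_ext {Z Y : V} {n : ℕ} {f g : Z ⟶ pow Y n} (h : ∀ i, f ≫ pr Y n i = g ≫ pr Y n i) :
    f = g := by
  induction n with
  | zero => exact toUnit_unique (C := V) f g
  | succ n ih =>
    have h0 : f ≫ fst Y (pow Y n) = g ≫ fst Y (pow Y n) := h 0
    have h1 : f ≫ snd Y (pow Y n) = g ≫ snd Y (pow Y n) := by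
      apply ih
      intro i
      exact (Category.assoc _ _ _).trans ((h i.succ).trans (Category.assoc _ _ _).symm)
    exact CartesianMonoidalCategory.hom_ext (X := Y) (Y := pow Y n) f g h0 h1

theorem perm_pr (Y : V) {n : ℕ} (σ : Equiv.Perm (Fin n)) (i : Fin n) :
    perm Y σ ≫ pr Y n i = pr Y n (σ i) := tup_pr _ i

theorem perm_comp (Y : V) {n : ℕ} (σ τ : Equiv.Perm (Fin n)) :
    perm Y σ ≫ perm Y τ = perm Y (σ * τ) := by
  apply pow_ext
  intro i
  rw [Category.assoc, perm_pr, perm_pr, perm_pr]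
  rfl

theorem perm_one (Y : V) (n : ℕ) : perm Y (1 : Equiv.Perm (Fin n)) = 𝟙 (pow Y n) := by
  apply pow_ext
  intro i
  rw [perm_pr, Category.id_comp]
  rfl

theorem pw_up_zero {n : ℕ} (σ : Equiv.Perm (Fin n)) : up σ 0 = 0 :=
  Equiv.Perm.decomposeFin_symm_apply_zero _ _

theorem pw_up_succ {n : ℕ} (σ : Equiv.Perm (Fin n)) (i : Fin n) : up σ i.succ = (σ i).succ := by
  unfold up
  rw [Equiv.Perm.decomposeFin_symm_apply_succ, Equiv.swap_self, Equiv.refl_apply]

theorem pw_pr_zero (Y : V) (n : ℕ) : pr Y (n + 1) 0 = fst Y (pow Y n) := rfl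

theorem pw_pr_succ (Y : V) (n : ℕ) (i : Fin n) : pr Y (n + 1) i.succ = snd Y (pow Y n) ≫ pr Y n i :=
  rfl

theorem perm_up (Y : V) {n : ℕ} (σ : Equiv.Perm (Fin n)) :
    perm Y (up σ) = lift (fst Y (pow Y n)) (snd Y (pow Y n) ≫ perm Y σ) := by
  apply pow_ext
  intro i
  rw [perm_pr]
  refine Fin.cases ?_ (fun j => ?_) i
  · rw [pw_up_zero]
    exact (lift_fst _ _).symm
  · rw [pw_up_succ, pw_pr_succ, pw_pr_succ]
    change _ = lift (fst Y (pow Y n)) (snd Y (pow Y n) ≫ perm Y σ) ≫ snd Y (pow Y n) ≫ pr Y n j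
    rw [lift_snd_assoc, Category.assoc, perm_pr]

theorem perm_swap (Y : V) (n : ℕ) :
    perm Y (Equiv.swap (0 : Fin (n + 2)) 1) =
      lift (snd Y (Y ⊗ pow Y n) ≫ fst Y (pow Y n))
        (lift (fst Y (Y ⊗ pow Y n)) (snd Y (Y ⊗ pow Y n) ≫ snd Y (pow Y n))) := by
  apply pow_ext
  intro i
  rw [perm_pr]
  refine Fin.cases ?_ (fun j => ?_) i
  · rw [Equiv.swap_apply_left]
    exact (lift_fst _ _).symm
  · refine Eq.trans ?_ (lift_snd_assoc (snd Y (Y ⊗ pow Y n) ≫ fst Y (pow Y n))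
        (lift (fst Y (Y ⊗ pow Y n)) (snd Y (Y ⊗ pow Y n) ≫ snd Y (pow Y n)))
        (pr Y (n + 1) j)).symm
    refine Fin.cases ?_ (fun l => ?_) j
    · rw [Fin.succ_zero_eq_one, Equiv.swap_apply_right]
      exact (lift_fst _ _).symm
    · have h1 : Equiv.swap (0 : Fin (n + 2)) 1 l.succ.succ = l.succ.succ := by
        apply Equiv.swap_apply_of_ne_of_ne
        · exact Fin.succ_ne_zero _
        · intro h
          rw [← Fin.succ_zero_eq_one] at h
          exact Fin.succ_ne_zero _ (Fin.succ_injective _ h)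
      rw [h1]
      exact ((lift_snd_assoc (fst Y (Y ⊗ pow Y n)) (snd Y (Y ⊗ pow Y n) ≫ snd Y (pow Y n))
        (pr Y n l)).trans (Category.assoc _ _ _)).symm

theorem up_mul {n : ℕ} (σ τ : Equiv.Perm (Fin n)) : up (σ * τ) = up σ * up τ := by
  ext i
  refine Fin.cases ?_ (fun j => ?_) i
  · rw [Equiv.Perm.mul_apply, pw_up_zero, pw_up_zero, pw_up_zero]
  · rw [Equiv.Perm.mul_apply, pw_up_succ, pw_up_succ, pw_up_succ]
    rfl

theorem pw_up_one (n : ℕ) : up (1 : Equiv.Perm (Fin n)) = 1 := by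
  have h3 := up_mul (1 : Equiv.Perm (Fin n)) 1
  rw [mul_one] at h3
  exact (mul_eq_left.mp h3.symm)

theorem pw_up_swap {n : ℕ} (j : Fin (n + 1)) :
    up (Equiv.swap 0 j) = Equiv.swap (1 : Fin (n + 2)) j.succ := by
  ext x
  refine Fin.cases ?_ (fun y => ?_) x
  · rw [pw_up_zero, Equiv.swap_apply_of_ne_of_ne]
    · exact Fin.zero_ne_one
    · exact (Fin.succ_ne_zero j).symm
  · rw [pw_up_succ]
    rcases eq_or_ne y 0 with rfl | hy
    · rw [Equiv.swap_apply_left, ← Fin.succ_zero_eq_one, Equiv.swap_apply_left]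
    · rcases eq_or_ne y j with rfl | hj
      · rw [Equiv.swap_apply_right, Equiv.swap_apply_right, Fin.succ_zero_eq_one]
      · rw [Equiv.swap_apply_of_ne_of_ne hy hj, Equiv.swap_apply_of_ne_of_ne]
        · rw [← Fin.succ_zero_eq_one]
          exact fun h => hy (Fin.succ_injective _ h)
        · exact fun h => hj (Fin.succ_injective _ h)

theorem pw_swap_zero_succ {n : ℕ} (j : Fin (n + 1)) :
    Equiv.swap (0 : Fin (n + 2)) j.succ = up (Equiv.swap 0 j) * Equiv.swap 0 1 *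
      up (Equiv.swap 0 j) := by
  rw [pw_up_swap, Equiv.swap_mul_swap_mul_swap (x := (0 : Fin (n + 2))) (y := 1) (z := j.succ)
    Fin.zero_ne_one (Fin.succ_ne_zero j).symm, Equiv.swap_comm]

theorem pw_decomp_eq {n : ℕ} (p : Fin (n + 1)) (e : Equiv.Perm (Fin n)) :
    Equiv.Perm.decomposeFin.symm (p, e) = Equiv.swap 0 p * up e := by
  ext x
  refine Fin.cases ?_ (fun y => ?_) x
  · rw [Equiv.Perm.mul_apply, pw_up_zero, Equiv.swap_apply_left,
      Equiv.Perm.decomposeFin_symm_apply_zero]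
  · rw [Equiv.Perm.mul_apply, pw_up_succ, Equiv.Perm.decomposeFin_symm_apply_succ]

/-- the permutations are generated by the exchange of two neighbours -/
theorem perm_induction {P : ∀ n, Equiv.Perm (Fin n) → Prop} (h1 : ∀ n, P n 1)
    (hmul : ∀ n (σ τ : Equiv.Perm (Fin n)), P n σ → P n τ → P n (σ * τ))
    (hup : ∀ n (σ : Equiv.Perm (Fin n)), P n σ → P (n + 1) (up σ))
    (hswap : ∀ n, P (n + 2) (Equiv.swap 0 1)) : ∀ n (σ : Equiv.Perm (Fin n)), P n σ := by
  intro n
  induction n with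
  | zero =>
    intro σ
    rw [Subsingleton.elim σ 1]
    exact h1 0
  | succ n ih =>
    intro σ
    obtain ⟨⟨p, e⟩, rfl⟩ := Equiv.Perm.decomposeFin.symm.surjective σ
    rw [pw_decomp_eq]
    refine hmul _ _ _ ?_ (hup n e (ih e))
    refine Fin.cases ?_ (fun q => ?_) p
    · rw [Equiv.swap_self]
      exact h1 _
    · cases n with
      | zero => exact q.elim0
      | succ n =>
        rw [pw_swap_zero_succ]
        exact hmul _ _ _ (hmul _ _ _ (hup _ _ (ih _)) (hswap n)) (hup _ _ (ih _))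

end Pow

variable {V : Type u} [Category.{v} V] [CartesianMonoidalCategory V] {K : Type x} [Field K]
variable {T : WeilTheory.{u, v, w, x} V K}

theorem pull_perm_mul {Y : V} {n : ℕ} (σ τ : Equiv.Perm (Fin n)) (y : T.H (pow Y n)) :
    T.pull (perm Y (σ * τ)) y = T.pull (perm Y σ) (T.pull (perm Y τ) y) := by
  rw [T.pull_comp', perm_comp]

/-- a permutation of the factors as an isomorphism -/
def pw_permIso (Y : V) {n : ℕ} (σ : Equiv.Perm (Fin n)) : pow Y n ≅ pow Y n where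
  hom := perm Y σ
  inv := perm Y σ⁻¹
  hom_inv_id := by rw [perm_comp, mul_inv_cancel, perm_one]
  inv_hom_id := by rw [perm_comp, inv_mul_cancel, perm_one]

theorem tr_perm {Y : V} {n : ℕ} (σ : Equiv.Perm (Fin n)) (y : T.H (pow Y n)) :
    T.tr _ (T.pull (perm Y σ) y) = T.tr _ y := T.tr_iso (pw_permIso Y σ) y

/-- moving a permutation to the other side -/
theorem tr_perm_mul {Y : V} {n : ℕ} (σ : Equiv.Perm (Fin n)) (y z : T.H (pow Y n)) :
    T.tr _ (T.pull (perm Y σ) y * z) = T.tr _ (y * T.pull (perm Y σ⁻¹) z) := by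
  rw [← tr_perm σ (y * T.pull (perm Y σ⁻¹) z), map_mul (T.pull _), ← pull_perm_mul, mul_inv_cancel,
    perm_one, T.pull_id]

theorem dim_unit (h : (1 : T.H (𝟙_ V)) ≠ 0) : T.dim (𝟙_ V) = 0 := by
  by_contra hd
  apply h
  apply T.nondeg
  intro b
  rw [mul_one]
  refine T.hind (P := fun b => T.tr (𝟙_ V) b = 0) (map_zero _) ?_ ?_ b
  · intro i a ha
    by_cases hi : i = 2 * T.dim (𝟙_ V)
    · rw [← T.tr_iso (λ_ (𝟙_ V))]
      apply T.tr_deg (T.pull_deg _ ha)
      rw [T.dim_prod]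
      omega
    · exact T.tr_deg ha hi
  · intro a b h1 h2
    rw [map_add, h1, h2, add_zero]

theorem pw_one_ne {Y : V} {a : T.H Y} (ha : a ≠ 0) : (1 : T.H (𝟙_ V)) ≠ 0 := by
  intro h
  apply ha
  have h1 : (1 : T.H Y) = 0 := by
    rw [← map_one (T.pull (toUnit Y)), h, map_zero]
  rw [← mul_one a, h1, mul_zero]

theorem dim_pow (h : T.dim (𝟙_ V) = 0) (Y : V) (n : ℕ) : T.dim (pow Y n) = n * T.dim Y := by
  induction n with
  | zero =>
    rw [zero_mul]
    exact h
  | succ n ih =>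
    rw [add_mul, one_mul, ← ih]
    exact (T.dim_prod Y (pow Y n)).trans (add_comm _ _)

end Pool.NP
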