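import Pool.Agent.Work.MP_a60482_np.WardA
import Pool.Agent.Work.MP_a60482_np.Pow

/-!
Block WARD, part D: the Picard-Lefschetz formula for a symmetric class.
-/

open CategoryTheory MonoidalCategory CartesianMonoidalCategory

universe u v w x b

namespace Pool.NP

open Pool.KC Pool.Std

variable {V : Type u} [Category.{v} V] [CartesianMonoidalCategory V] {K : Type x} [Field K]
variable {T : WeilTheory.{u, v, w, x} V K}

theorem iota_deg {Y W : V} {i j l : ℕ} {a : T.H Y} (ha : a ∈ T.deg Y i) {z : T.H (Y ⊗ W)}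
    (hz : z ∈ T.deg (Y ⊗ W) j) (h : i + j = 2 * T.dim Y + l) : iota T W a z ∈ T.deg W l :=
  T.push_deg (T.mul_deg (T.pull_deg _ ha) hz) h

theorem act_eq_iota {Y W : V} (z : T.H (Y ⊗ W)) (a : T.H Y) : T.act z a = iota T W a z :=
  T.act_apply z a

/-- base change for a product map -/
theorem push_base_d {Y W W' : V} (f : W' ⟶ W) (z : T.H (Y ⊗ W)) :
    T.push Y W' (T.pull (lift (fst Y W') (snd Y W' ≫ f)) z) = T.pull f (T.push Y W z) := by
  refine T.kind (P := fun z => T.push Y W' (T.pull (lift (fst Y W') (snd Y W' ≫ f)) z) =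
    T.pull f (T.push Y W z)) (by simp) ?_ ?_ z
  · intro a q
    have h1 : T.pull (lift (fst Y W') (snd Y W' ≫ f)) (T.pull (fst Y W) a * T.pull (snd Y W) q) =
        T.pull (fst Y W') a * T.pull (snd Y W') (T.pull f q) := by
      simp only [map_mul, T.pull_comp', lift_fst, lift_snd]
    rw [h1, T.push_pure, T.push_pure, map_smul]
  · intro z z' h1 h2
    simp only [map_add, h1, h2]

theorem iota_base {Y W W' : V} (f : W' ⟶ W) (a : T.H Y) (z : T.H (Y ⊗ W)) :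
    iota T W' a (T.pull (lift (fst Y W') (snd Y W' ≫ f)) z) = T.pull f (iota T W a z) := by
  have h1 : T.pull (fst Y W') a * T.pull (lift (fst Y W') (snd Y W' ≫ f)) z =
      T.pull (lift (fst Y W') (snd Y W' ≫ f)) (T.pull (fst Y W) a * z) := by
    rw [map_mul, T.pull_comp', lift_fst]
  change T.push Y W' (T.pull (fst Y W') a * T.pull (lift (fst Y W') (snd Y W' ≫ f)) z) = _
  rw [h1, push_base_d]
  rfl

theorem pull_cross {Y W W' : V} (f : W' ⟶ W) (a : T.H Y) (q : T.H W) :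
    T.pull (lift (fst Y W') (snd Y W' ≫ f)) (T.pull (fst Y W) a * T.pull (snd Y W) q) =
      T.pull (fst Y W') a * T.pull (snd Y W') (T.pull f q) := by
  simp only [map_mul, T.pull_comp', lift_fst, lift_snd]

/-- the exchange of the first two factors -/
abbrev xch (Y W : V) : Y ⊗ (Y ⊗ W) ⟶ Y ⊗ (Y ⊗ W) :=
  lift (snd Y (Y ⊗ W) ≫ fst Y W) (lift (fst Y (Y ⊗ W)) (snd Y (Y ⊗ W) ≫ snd Y W))

theorem push_push_xch {Y W : V} (z : T.H (Y ⊗ (Y ⊗ W))) :
    T.push Y W (T.push Y (Y ⊗ W) (T.pull (xch Y W) z)) = T.push Y W (T.push Y (Y ⊗ W) z) := by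
  refine T.kind' (P := fun z => T.push Y W (T.push Y (Y ⊗ W) (T.pull (xch Y W) z)) =
    T.push Y W (T.push Y (Y ⊗ W) z)) (by simp) ?_ ?_ z
  · intro i _ a z' ha _
    refine T.kind' (P := fun z' => T.push Y W (T.push Y (Y ⊗ W) (T.pull (xch Y W)
      (T.pull (fst Y (Y ⊗ W)) a * T.pull (snd Y (Y ⊗ W)) z'))) =
      T.push Y W (T.push Y (Y ⊗ W) (T.pull (fst Y (Y ⊗ W)) a * T.pull (snd Y (Y ⊗ W)) z')))
      (by simp) ?_ ?_ z'
    · intro j l b q hb hq
      have h1 : T.pull (xch Y W) (T.pull (fst Y (Y ⊗ W)) a * T.pull (snd Y (Y ⊗ W))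
          (T.pull (fst Y W) b * T.pull (snd Y W) q)) =
          T.pull (snd Y (Y ⊗ W)) (T.pull (fst Y W) a) *
            (T.pull (fst Y (Y ⊗ W)) b * T.pull (snd Y (Y ⊗ W)) (T.pull (snd Y W) q)) := by
        simp only [map_mul, T.pull_comp', lift_fst, lift_snd, lift_snd_assoc]
      rw [h1, T.push_snd_mul, T.push_pure, mul_smul_comm, map_smul, T.push_pure, T.push_pure,
        map_smul, T.push_pure, smul_smul, smul_smul, mul_comm]
    · intro x y h1 h2
      simp only [map_add, mul_add, h1, h2]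
  · intro x y h1 h2
    simp only [map_add, h1, h2]

/-- exchange of two contractions with odd classes -/
theorem iota_iota {Y W : V} {s t : ℕ} (hs : Odd s) (ht : Odd t) {a q : T.H Y}
    (ha : a ∈ T.deg Y s) (hq : q ∈ T.deg Y t) (γ : T.H (Y ⊗ (Y ⊗ W)))
    (hγ : T.pull (xch Y W) γ = γ) :
    iota T W a (iota T (Y ⊗ W) q γ) = - iota T W q (iota T (Y ⊗ W) a γ) := by
  have h1 : ∀ a q : T.H Y, iota T W a (iota T (Y ⊗ W) q γ) = T.push Y W (T.push Y (Y ⊗ W)
      (T.pull (snd Y (Y ⊗ W)) (T.pull (fst Y W) a) * (T.pull (fst Y (Y ⊗ W)) q * γ))) := by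
    intro a q
    rw [T.push_snd_mul]
    rfl
  rw [h1, h1, ← push_push_xch]
  have h2 : T.pull (xch Y W) (T.pull (snd Y (Y ⊗ W)) (T.pull (fst Y W) a) *
      (T.pull (fst Y (Y ⊗ W)) q * γ)) = T.pull (fst Y (Y ⊗ W)) a *
        (T.pull (snd Y (Y ⊗ W)) (T.pull (fst Y W) q) * γ) := by
    rw [map_mul, map_mul, hγ]
    simp only [T.pull_comp', lift_fst, lift_snd_assoc]
  have h3 : T.pull (fst Y (Y ⊗ W)) a * T.pull (snd Y (Y ⊗ W)) (T.pull (fst Y W) q) =
      - (T.pull (snd Y (Y ⊗ W)) (T.pull (fst Y W) q) * T.pull (fst Y (Y ⊗ W)) a) := by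
    rw [T.comm (T.pull_deg (fst Y (Y ⊗ W)) ha)
      (T.pull_deg (snd Y (Y ⊗ W)) (T.pull_deg (fst Y W) hq)), Odd.neg_one_pow (hs.mul ht),
      neg_one_mul]
  rw [h2, ← mul_assoc, h3, neg_mul, map_neg, map_neg, mul_assoc]

/-- the term of the exchange of the first two factors -/
theorem tr_tau_xch {Y W : V} {m p : ℕ} (hm : Odd m) (hp : Odd p) {a q : T.H Y}
    (ha : a ∈ T.deg Y m) (hq : q ∈ T.deg Y m) {γ : T.H (Y ⊗ (Y ⊗ W))}
    (hγ : T.pull (xch Y W) γ = γ) (h1 : iota T (Y ⊗ W) a γ ∈ T.deg (Y ⊗ W) p) :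
    T.tr _ (tau T (Y ⊗ W) a γ * T.pull (xch Y W)
      (T.pull (fst Y (Y ⊗ W)) q * T.pull (snd Y (Y ⊗ W)) (iota T (Y ⊗ W) q γ))) =
    T.tr W (iota T W a (iota T (Y ⊗ W) q γ) * iota T W a (iota T (Y ⊗ W) q γ)) := by
  set A := iota T (Y ⊗ W) a γ with hA
  set ξ := iota T (Y ⊗ W) q γ with hξ
  set f : Y ⊗ (Y ⊗ W) ⟶ Y ⊗ W := lift (fst Y (Y ⊗ W)) (snd Y (Y ⊗ W) ≫ snd Y W) with hf
  have e1 : T.pull (xch Y W) (T.pull (fst Y (Y ⊗ W)) q * T.pull (snd Y (Y ⊗ W)) ξ) =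
      T.pull (snd Y (Y ⊗ W)) (T.pull (fst Y W) q) * T.pull f ξ := by
    rw [map_mul, T.pull_comp', T.pull_comp', lift_fst, lift_snd, T.pull_comp']
  have e2 : T.pull (snd Y (Y ⊗ W)) (A * T.pull (fst Y W) q) * T.pull (fst Y (Y ⊗ W)) a =
      T.pull (fst Y (Y ⊗ W)) a * T.pull (snd Y (Y ⊗ W)) (A * T.pull (fst Y W) q) := by
    have h3 : A * T.pull (fst Y W) q ∈ T.deg (Y ⊗ W) (2 * ((p + m) / 2)) := by
      refine T.deg_of_eq (T.mul_deg h1 (T.pull_deg _ hq)) ?_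
      obtain ⟨b1, hb1⟩ := hm
      obtain ⟨b2, hb2⟩ := hp
      omega
    exact T.even_comm (T.pull_deg _ h3) _
  have e3 : tau T (Y ⊗ W) a γ * (T.pull (snd Y (Y ⊗ W)) (T.pull (fst Y W) q) * T.pull f ξ) =
      T.pull (snd Y (Y ⊗ W)) (A * T.pull (fst Y W) q) *
        (T.pull (fst Y (Y ⊗ W)) a * T.pull f ξ) := by
    unfold tau
    rw [← mul_assoc, mul_assoc (T.pull (fst Y (Y ⊗ W)) a), ← map_mul, ← e2, mul_assoc]
  have e4 : T.push Y (Y ⊗ W) (T.pull (fst Y (Y ⊗ W)) a * T.pull f ξ) =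
      T.pull (snd Y W) (iota T W a ξ) := iota_base (snd Y W) a ξ
  have e5 : A * T.pull (fst Y W) q = - (T.pull (fst Y W) q * A) := by
    rw [T.comm h1 (T.pull_deg (fst Y W) hq), Odd.neg_one_pow (hp.mul hm), neg_one_mul]
  have e6 : iota T W q A = - iota T W a ξ := by
    have := iota_iota hm hm hq ha γ hγ
    rw [hA, this]
  rw [e1, e3, ← T.tr_push, T.push_snd_mul, e4, e5, neg_mul, map_neg, ← T.tr_push,
    T.push_mul_snd]
  have e7 : T.push Y W (T.pull (fst Y W) q * A) = iota T W q A := rfl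
  rw [e7, e6, neg_mul, map_neg, neg_neg]

/-- the term of the identity -/
theorem tr_tau_id {Y W : V} {m p : ℕ} (hm : Odd m) (hp : Odd p) {a q : T.H Y}
    (hq : q ∈ T.deg Y m) {γ : T.H (Y ⊗ W)} (h1 : iota T W a γ ∈ T.deg W p) (ξ : T.H W) :
    T.tr _ (tau T W a γ * (T.pull (fst Y W) q * T.pull (snd Y W) ξ)) =
      - (T.tr Y (a * q) * T.tr W (iota T W a γ * ξ)) := by
  have e1 : T.pull (snd Y W) (iota T W a γ) * T.pull (fst Y W) q =
      - (T.pull (fst Y W) q * T.pull (snd Y W) (iota T W a γ)) := by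
    rw [T.comm (T.pull_deg (snd Y W) h1) (T.pull_deg (fst Y W) hq), Odd.neg_one_pow (hp.mul hm),
      neg_one_mul]
  have e2 : tau T W a γ * (T.pull (fst Y W) q * T.pull (snd Y W) ξ) =
      - (T.pull (fst Y W) (a * q) * T.pull (snd Y W) (iota T W a γ * ξ)) := by
    unfold tau
    rw [← mul_assoc, mul_assoc (T.pull (fst Y W) a), e1, mul_neg, neg_mul, map_mul, map_mul]
    simp only [mul_assoc]
  rw [e2, map_neg, T.tr_prod]

theorem swap_succ {n : ℕ} (j : Fin (n + 1)) :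
    Equiv.swap (0 : Fin (n + 2)) j.succ = up (Equiv.swap 0 j) * Equiv.swap 0 1 *
      up (Equiv.swap 0 j) := by
  have h1 : up (Equiv.swap 0 j) = Equiv.swap (1 : Fin (n + 2)) j.succ := by
    ext x
    unfold up
    refine Fin.cases ?_ (fun y => ?_) x
    · rw [Equiv.Perm.decomposeFin_symm_apply_zero, Equiv.swap_apply_of_ne_of_ne]
      · exact Fin.zero_ne_one
      · exact (Fin.succ_ne_zero j).symm
    · rw [Equiv.Perm.decomposeFin_symm_apply_succ, Equiv.swap_self, Equiv.refl_apply]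
      rcases eq_or_ne y 0 with rfl | hy
      · rw [Equiv.swap_apply_left, ← Fin.succ_zero_eq_one, Equiv.swap_apply_left]
      · rcases eq_or_ne y j with rfl | hj
        · rw [Equiv.swap_apply_right, Equiv.swap_apply_right, Fin.succ_zero_eq_one]
        · rw [Equiv.swap_apply_of_ne_of_ne hy hj, Equiv.swap_apply_of_ne_of_ne]
          · rw [← Fin.succ_zero_eq_one]
            exact fun h => hy (Fin.succ_injective _ h)
          · exact fun h => hj (Fin.succ_injective _ h)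
  rw [h1, Equiv.swap_mul_swap_mul_swap (x := (0 : Fin (n + 2))) (y := 1) (z := j.succ)
    Fin.zero_ne_one (Fin.succ_ne_zero j).symm, Equiv.swap_comm]

/-- **The Picard-Lefschetz relation** for a symmetric class -/
theorem pl_rel {X : V} {c : T.H X} (S : Gen T c) {n k : ℕ} (hn : Even n)
    {γ : T.H (pow S.Y (n + 2))} (hγ : γ ∈ T.C (pow S.Y (n + 2)) k)
    (hk : 2 * k = (n + 2) * T.dim S.Y)
    (hsym : ∀ σ : Equiv.Perm (Fin (n + 2)), T.pull (perm S.Y σ) γ = γ) {y : T.H S.Y}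
    (hy : y ∈ S.van) :
    T.tr S.Y (S.v * y) * T.tr (pow S.Y (n + 1)) (iota T (pow S.Y (n + 1)) S.v γ *
        iota T (pow S.Y (n + 1)) y γ) =
      (n + 1) * T.tr (pow S.Y n) (iota T (pow S.Y n) S.v (iota T (pow S.Y (n + 1)) y γ) *
        iota T (pow S.Y n) S.v (iota T (pow S.Y (n + 1)) y γ)) := by
  have hyd : y ∈ T.deg S.Y (T.dim S.Y) := hy.1
  set ξ := iota T (pow S.Y (n + 1)) y γ with hξ
  set θ : T.H (pow S.Y (n + 2)) := tau T (pow S.Y (n + 1)) S.v γ with hθ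
  set β : T.H (pow S.Y (n + 2)) := T.pull (fst S.Y (pow S.Y (n + 1))) y *
    T.pull (snd S.Y (pow S.Y (n + 1))) ξ with hβ
  have hdeg : ∀ a ∈ T.deg S.Y (T.dim S.Y), iota T (pow S.Y (n + 1)) a γ ∈
      T.deg (pow S.Y (n + 1)) ((n + 1) * T.dim S.Y) := by
    intro a ha
    refine iota_deg ha (T.C_deg _ _ hγ) ?_
    rw [hk]
    ring
  have hodd : Odd ((n + 1) * T.dim S.Y) := (Even.add_one hn).mul S.odd
  -- the terms of the relation
  have hup : ∀ (ρ : Equiv.Perm (Fin (n + 1))) (a : T.H S.Y),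
      T.pull (perm S.Y ρ) (iota T (pow S.Y (n + 1)) a γ) = iota T (pow S.Y (n + 1)) a γ := by
    intro ρ a
    rw [← iota_base, ← perm_up]
    exact congrArg _ (hsym (up ρ))
  have hupc : ∀ (ρ : Equiv.Perm (Fin (n + 1))) (a b : T.H S.Y),
      T.pull (perm S.Y (up ρ)) (T.pull (fst S.Y (pow S.Y (n + 1))) a *
        T.pull (snd S.Y (pow S.Y (n + 1))) (iota T (pow S.Y (n + 1)) b γ)) =
      T.pull (fst S.Y (pow S.Y (n + 1))) a *
        T.pull (snd S.Y (pow S.Y (n + 1))) (iota T (pow S.Y (n + 1)) b γ) := by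
    intro ρ a b
    have h1 := pull_cross (T := T) (perm S.Y ρ) a (iota T (pow S.Y (n + 1)) b γ)
    rw [hup] at h1
    rw [perm_up]
    exact h1
  have hupθ : ∀ ρ : Equiv.Perm (Fin (n + 1)), T.pull (perm S.Y (up ρ)) θ = θ :=
    fun ρ => hupc ρ S.v S.v
  have hupβ : ∀ ρ : Equiv.Perm (Fin (n + 1)), T.pull (perm S.Y (up ρ)) β = β :=
    fun ρ => hupc ρ y y
  have hxch : T.pull (xch S.Y (pow S.Y n)) γ = γ := by
    have h1 := hsym (Equiv.swap 0 1)
    rw [perm_swap] at h1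
    exact h1
  have hterm : ∀ j : Fin (n + 1), T.tr _ (T.pull (perm S.Y (Equiv.swap 0 j.succ)) θ * β) =
      T.tr (pow S.Y n) (iota T (pow S.Y n) S.v ξ * iota T (pow S.Y n) S.v ξ) := by
    intro j
    rw [tr_perm_mul, Equiv.swap_inv, swap_succ, pull_perm_mul, pull_perm_mul, hupβ]
    have h1 : T.tr _ (θ * T.pull (perm S.Y (up (Equiv.swap 0 j)))
        (T.pull (perm S.Y (Equiv.swap 0 1)) β)) =
        T.tr _ (T.pull (perm S.Y (up (Equiv.swap 0 j))⁻¹) θ *
          T.pull (perm S.Y (Equiv.swap 0 1)) β) := by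
      rw [tr_perm_mul, inv_inv]
    have h2 : (up (Equiv.swap 0 j))⁻¹ = up (Equiv.swap 0 j) := by
      rw [inv_eq_iff_mul_eq_one, ← up_mul, Equiv.swap_mul_self]
      have h3 := up_mul (1 : Equiv.Perm (Fin (n + 1))) 1
      rw [mul_one] at h3
      exact (mul_eq_left.mp h3.symm)
    rw [h1, h2, hupθ, perm_swap]
    exact tr_tau_xch S.odd hodd S.v_mem hyd hxch (hdeg S.v S.v_mem)
  have hzero : T.tr _ (T.pull (perm S.Y (Equiv.swap (0 : Fin (n + 2)) 0)) θ * β) =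
      - (T.tr S.Y (S.v * y) * T.tr (pow S.Y (n + 1)) (iota T (pow S.Y (n + 1)) S.v γ * ξ)) := by
    rw [Equiv.swap_self, show (Equiv.refl (Fin (n + 2))) = (1 : Equiv.Perm (Fin (n + 2))) from rfl,
      perm_one, T.pull_id]
    exact tr_tau_id S.odd hodd hyd (hdeg S.v S.v_mem) ξ
  have hsum := S.pl (n + 1) k γ hγ
  have hsum' : ∑ j : Fin (n + 2), T.tr _ (T.pull (perm S.Y (Equiv.swap 0 j)) θ * β) = 0 := by
    rw [← map_sum, ← Finset.sum_mul]
    have h1 : ∑ j : Fin (n + 2), T.pull (perm S.Y (Equiv.swap 0 j)) θ = 0 := by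
      rw [← hsum]
      refine Finset.sum_congr rfl fun j _ => ?_
      rw [hsym]
    rw [h1, zero_mul, map_zero]
  rw [Fin.sum_univ_succ, hzero, Finset.sum_congr rfl fun j _ => hterm j, Finset.sum_const,
    Finset.card_univ, Fintype.card_fin, nsmul_eq_mul, neg_add_eq_zero] at hsum'
  rw [hsum']
  push_cast
  ring

end Pool.NP
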