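import Pool.Agent.Work.MP_a60482_np.WardB
import Pool.Agent.Work.MP_a60482_np.WardC
import Pool.Agent.Work.MP_a60482_np.WardD
import Pool.Agent.Work.MP_a60482_np.Proj

/-!
Block WARD: the Ward identity.
-/

open CategoryTheory MonoidalCategory CartesianMonoidalCategory

universe u v w x b

namespace Pool.NP

open Pool.KC Pool.Std

variable {V : Type u} [Category.{v} V] [CartesianMonoidalCategory V] {K : Type x} [Field K]
variable {T : WeilTheory.{u, v, w, x} V K} {X : V} {c : T.H X}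

/-- the relations for one class, on `Y × (Y × W)` -/
theorem ward_core {S : Gen T c} (E : Idem S) (h4 : FourRel E) {W : V} {k : ℕ}
    (hk : 2 * k = 2 * T.dim S.Y + T.dim W) {γ : T.H (S.Y ⊗ (S.Y ⊗ W))}
    (hγ : γ ∈ T.C (S.Y ⊗ (S.Y ⊗ W)) k)
    (hs : T.pull (lift (snd S.Y (S.Y ⊗ W) ≫ fst S.Y W)
      (lift (fst S.Y (S.Y ⊗ W)) (snd S.Y (S.Y ⊗ W) ≫ snd S.Y W))) γ = γ)
    (he : ∀ a : T.H S.Y, T.act (X := S.Y) (Y := S.Y ⊗ W) γ (T.act E.e a) =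
      T.act (X := S.Y) (Y := S.Y ⊗ W) γ a) {y : T.H S.Y} (hy : y ∈ S.van)
    (hβ : T.tr S.Y (S.v * y) ≠ 0) (m : K)
    (hD : T.tr S.Y (S.v * y) * T.tr (S.Y ⊗ W) (iota T (S.Y ⊗ W) S.v γ *
      iota T (S.Y ⊗ W) y γ) = m * T.tr W (iota T W S.v (iota T (S.Y ⊗ W) y γ) *
      iota T W S.v (iota T (S.Y ⊗ W) y γ))) :
    (E.t + m - 1) * T.tr _ (γ * γ) = m * T.tr W (ctr E W γ * ctr E W γ) := by
  have hdeg : γ ∈ T.deg (S.Y ⊗ (S.Y ⊗ W)) (2 * k) := T.C_deg _ _ hγ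
  have hκ := kap_mem hk hγ
  have hB := tr_kappa_cross E W γ hs he hκ
  obtain ⟨s, hC1, hC2⟩ := wc E W γ hk hγ he
  have hx : T.pull (fst S.Y S.Y) y * T.pull (snd S.Y S.Y) S.v ∈
      T.deg (S.Y ⊗ S.Y) (2 * T.dim S.Y) :=
    T.deg_of_eq (T.mul_deg (T.pull_deg _ hy.1) (T.pull_deg _ S.v_mem)) (by omega)
  have h1 := h4 _ hκ y hy
  rw [tr_act_kap hdeg hx, act_hat_cross S.odd S.odd hy.1 S.v_mem, hB,
    tr_act_kap hdeg (T.C_deg _ _ E.mem), act_hat_e, neg_mul_neg, hC1] at h1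
  rw [← act_eq_iota, ← act_eq_iota γ y, hC2 S.v S.v_van y hy, act_eq_iota γ y] at hD
  rw [hC1]
  have h3 : T.tr S.Y (S.v * y) ^ 2 * ((E.t + m - 1) * (E.t * s)) =
      T.tr S.Y (S.v * y) ^ 2 * (m * T.tr W (ctr E W γ * ctr E W γ)) := by
    linear_combination (E.t * (E.t - 1)) * hD + m * h1
  exact mul_left_cancel₀ (pow_ne_zero 2 hβ) h3

/-- **Block WARD**. -/
theorem wardRel [CharZero K] {S : Gen T c} (E : Idem S) (h4 : FourRel E) (_ht : E.t ≠ 1)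
    (hu : ∃ y ∈ S.van, T.tr S.Y (S.v * y) ≠ 0) : WardRel E := by
  intro n hn γ hγ
  obtain ⟨y, hy, hβ⟩ := hu
  obtain ⟨k, hk, hC⟩ := hγ.mem
  have hk' : 2 * k = 2 * T.dim S.Y + T.dim (pow S.Y n) := by
    rw [hk, dim_pow (dim_unit (pw_one_ne S.v_ne))]
    ring
  have hs := hγ.symm (Equiv.swap 0 1)
  rw [perm_swap] at hs
  have h1 := ward_core E h4 (W := pow S.Y n) hk' hC hs (act_of_Pi E hγ.proj) hy hβ ((n : K) + 1)
    (pl_rel S hn hC hk hγ.symm hy)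
  rw [show E.t + ((n : K) + 1) - 1 = E.t + n by ring] at h1
  exact h1

end Pool.NP
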