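import Pool.Agent.Work.MP_a60482_np.Alg
import Pool.Agent.Work.MP_a60482_np.Sec
import Pool.Agent.Work.MP_a60482_np.Par
import Pool.Agent.Work.MP_a60482_np.Four
import Pool.Agent.Work.MP_a60482_np.Rg
import Pool.Agent.Work.MP_a60482_np.Ward
import Pool.Agent.Work.MP_a60482_np.Ph

/-!
A left inverse of the Lefschetz operator in degree `dim X - 2` from the nilpotence of the
numerically trivial self-correspondences.
-/

open CategoryTheory MonoidalCategory CartesianMonoidalCategory

universe u v w x b

namespace Pool.NP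

open Pool.KC Pool.Std

variable {V : Type u} [Category.{v} V] [CartesianMonoidalCategory V] {K : Type x} [Field K]
variable {T : WeilTheory.{u, v, w, x} V K}

theorem inv_of_nil [CharZero K] {X : V} {c : T.H X} (hc : c ∈ T.C X 1) (hnil : Nil T)
    (S : Gen T c) (hhard1 : ∀ a ∈ T.deg X (T.dim X - 1), c * a = 0 → a = 0)
    (hhard2 : ∀ a ∈ T.deg X (T.dim X - 2), c * (c * a) = 0 → a = 0) : Inv T c := by
  obtain ⟨E⟩ := S.exists_idem hnil
  obtain ⟨g, hg1, hg⟩ := E.exists_nat
  have ht : E.t ≠ 1 := by
    intro h
    rw [h] at hg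
    have h2 : ((1 + 2 * g : ℕ) : K) = 0 := by
      push_cast
      rw [hg]
      ring
    rw [Nat.cast_eq_zero] at h2
    omega
  have hw := wardRel E (fourRel E) ht (S.exists_dual hc hhard1)
  exact inv_of_even hc E hhard2 fun j z hz he => even_zero hnil E hw hg hz he

end Pool.NP
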