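import Pool.Agent.Work.MP_a60482_np.Conv
import Pool.Agent.Work.MP_a60482_np.END
import Pool.Agent.Work.MP_a60482_np.Mid1
import Pool.Agent.Work.MP_a60482_np.Main

/-!
The Lefschetz standard conjecture from the nilpotence of the numerically trivial
self-correspondences.
-/

open CategoryTheory MonoidalCategory CartesianMonoidalCategory

universe u v w x b

namespace Pool.Std

open Pool.KC

variable {V : Type u} [Category.{v} V] [CartesianMonoidalCategory V] {K : Type x} [Field K]
variable {D : WeilCoh.{u, v, w, x} V K}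

namespace WeilCoh

theorem actHom_iterate (h : D.IsWeil) {X : V} (z : D.H (X ⊗ X)) (k : ℕ) (a : D.H X) :
    (((toWeil h).act z : Module.End K ((toWeil h).H X)) ^ k) a = (D.act z)^[k] a := by
  induction k with
  | zero => rfl
  | succ k ih =>
    rw [pow_succ', Function.iterate_succ_apply', Module.End.mul_apply, ih]
    exact act_eq h z _

theorem numTriv_iff (h : D.IsWeil) (hK : D.CoefficientsIn K) {X : V} (z : D.H (X ⊗ X)) :
    D.NumTriv z ↔ ∀ y ∈ (toWeil h).C (X ⊗ X) ((toWeil h).dim X),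
      (toWeil h).tr (X ⊗ X) (z * y) = 0 := by
  constructor
  · exact fun hz y hy => hz y ((mem_C_iff h hK).mp hy)
  · exact fun hz y hy => hz y ((mem_C_iff h hK).mpr hy)

theorem nilpotence_iff (h : D.IsWeil) (hK : D.CoefficientsIn K) :
    D.Nilpotence ↔ NP.Nil (toWeil h) := by
  constructor
  · intro hn X z hz h0
    obtain ⟨k, hk⟩ := hn X z ((mem_C_iff h hK).mp hz) ((numTriv_iff h hK z).mpr h0)
    refine ⟨k, LinearMap.ext fun a => ?_⟩
    rw [actHom_iterate h]
    exact hk a
  · intro hn X z hz h0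
    obtain ⟨k, hk⟩ := hn X z ((mem_C_iff h hK).mpr hz) ((numTriv_iff h hK z).mp h0)
    refine ⟨k, fun a => ?_⟩
    rw [← actHom_iterate h, hk]
    rfl

end WeilCoh

namespace Polarization

variable {G : Polarization.{u, v, w, x, b} D} [CharZero K]

theorem inv_of_generic (h : D.IsWeil) (hK : D.CoefficientsIn K) (hP : G.IsPolarized)
    (hG : G.HasGenericSections) (hnil : NP.Nil (WeilCoh.toWeil h)) {X : V} (M : G.Bund X) {m : ℕ}
    (hm : 1 ≤ m) (hX : D.dim X = 2 * m) : NP.Inv (WeilCoh.toWeil h) (X := X) (G.c M) := by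
  obtain ⟨Y, i, hY⟩ := hG X M m hm hX
  refine NP.inv_of_nil ((WeilCoh.mem_C_iff h hK).mpr (hP.chern_mem X M)) hnil
    (hY.toGen h hK hX) ?_ ?_
  · intro a ha h0
    have hX' : (WeilCoh.toWeil h).dim X = 2 * m := hX
    refine hP.hard_inj X M ((WeilCoh.toWeil h).dim X - 1) 1 ?_ a ha ?_
    · change (WeilCoh.toWeil h).dim X - 1 + 1 = (WeilCoh.toWeil h).dim X
      omega
    · rw [pow_one]
      exact h0
  · intro a ha h0
    have hX' : (WeilCoh.toWeil h).dim X = 2 * m := hX
    refine hP.hard_inj X M ((WeilCoh.toWeil h).dim X - 2) 2 ?_ a ha ?_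
    · change (WeilCoh.toWeil h).dim X - 2 + 2 = (WeilCoh.toWeil h).dim X
      omega
    · rw [pow_two, mul_assoc]
      exact h0

/-- **Nilpotence implies the Lefschetz standard conjecture.** -/
theorem conjB_of_nil (h : D.IsWeil) (hK : D.CoefficientsIn K) (hc : D.Connected)
    (hP : G.IsPolarized) (hH : G.HasHypersurfaces) (hG : G.HasGenericSections)
    (hnil : NP.Nil (WeilCoh.toWeil h)) (X : V) (M : G.Bund X) : G.ConjB M := by
  rw [conjB_iff h hP]
  have hKA : ∀ (X : V) (i : ℕ) (s : K), ∀ a ∈ (WeilCoh.toCyc h).A X i,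
      s • a ∈ (WeilCoh.toCyc h).A X i := fun X i s a ha => hK.smul X i s a ha
  have hdim : ∀ A B : V, (WeilCoh.toWeil h).dim (A ⊗ B) =
      (WeilCoh.toWeil h).dim A + (WeilCoh.toWeil h).dim B := h.kunneth.dim
  refine NP.lefB_of_mid1 (G := toPl h hP) (hK.div h) hc (fun _ => True) ?_ ?_ ?_ X M trivial
  · intro X M _ hX
    obtain ⟨Y, i, hY⟩ := hH X M hX
    exact ⟨hY.toHyp h hP, trivial⟩
  · intro A B N M _ _ m hm hd
    obtain ⟨g, hg, hga⟩ := inv_of_generic h hK hP hG hnil (G.box N M) hm hd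
    refine NP.mid1_of_inv (R := WeilCoh.toCyc h) (U := A ⊗ B) (c := G.c (G.box N M)) (g := g)
      ((WeilCoh.mem_C_iff h hK).mp hg) ?_ m hm hd
    intro i hi a ha
    apply hga
    rw [show (WeilCoh.toWeil h).dim (A ⊗ B) - 2 = i by omega]
    exact ha
  · intro X M _ hX hl
    refine lefB_of_high_nil (G := toPl h hP) hKA ?_ hX hl ?_
    · intro Z z hz h0
      exact hnil Z z (Submodule.subset_span hz) fun y hy => h0 y ((WeilCoh.mem_C_iff h hK).mp hy)
    · have hd : D.dim (X ⊗ X) = 2 * D.dim X := by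
        rw [h.kunneth.dim]
        omega
      have hd' : (WeilCoh.toWeil h).dim (X ⊗ X) = 2 * (WeilCoh.toWeil h).dim X := hd
      obtain ⟨g, hg, hga⟩ := inv_of_generic h hK hP hG hnil (G.box M M) (m := D.dim X) hX hd
      rw [hd'] at hg hga
      exact ⟨g, (WeilCoh.mem_C_iff h hK).mp hg, hga⟩

end Polarization

end Pool.Std
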