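import Pool.Agent.Work.StdConj01.Main
import Pool.Agent.Work.MP_a60482_kc.Num
import Pool.Agent.Work.StdConj.Prod

/-!
Numerically trivial classes and operators.
-/

open CategoryTheory MonoidalCategory CartesianMonoidalCategory

universe u v w x b

namespace Pool.Std

open Pool.KC Pool.SL

variable {V : Type u} [Category.{v} V] [CartesianMonoidalCategory V] {K : Type x} [Field K]
variable {T : WeilTheory.{u, v, w, x} V K}

/-- numerically trivial classes -/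
def Cyc.Num (R : Cyc T) {X : V} (z : T.H X) : Prop :=
  ∀ j, ∀ y ∈ R.A X j, T.tr X (z * y) = 0

namespace Cyc

variable {R : Cyc T}

theorem Num.zero {X : V} : R.Num (0 : T.H X) := by
  intro j y _
  rw [zero_mul, map_zero]

theorem Num.add {X : V} {z z' : T.H X} (h : R.Num z) (h' : R.Num z') : R.Num (z + z') := by
  intro j y hy
  rw [add_mul, map_add, h j y hy, h' j y hy, add_zero]

theorem Num.smul {X : V} {z : T.H X} (c : K) (h : R.Num z) : R.Num (c • z) := by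
  intro j y hy
  rw [smul_mul_assoc, map_smul, h j y hy, smul_zero]

theorem Num.neg {X : V} {z : T.H X} (h : R.Num z) : R.Num (-z) := by
  intro j y hy
  rw [neg_mul, map_neg, h j y hy, neg_zero]

theorem Num.sub {X : V} {z z' : T.H X} (h : R.Num z) (h' : R.Num z') : R.Num (z - z') := by
  rw [sub_eq_add_neg]
  exact h.add h'.neg

theorem Num.of_deg {X : V} {i : ℕ} {z : T.H X} (hz : z ∈ T.deg X (2 * i))
    (h : ∀ j, i + j = T.dim X → ∀ y ∈ R.A X j, T.tr X (z * y) = 0) : R.Num z := by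
  intro j y hy
  by_cases hj : i + j = T.dim X
  · exact h j hj y hy
  · exact T.tr_mul_ne hz (R.deg hy) (by omega)

theorem Num.mul_right {X : V} {z y : T.H X} {j : ℕ} (h : R.Num z) (hy : y ∈ R.A X j) :
    R.Num (z * y) := by
  intro k t ht
  rw [mul_assoc]
  exact h _ _ (R.mul hy ht)

theorem Num.mul_left {X : V} {z y : T.H X} {j : ℕ} (h : R.Num z) (hy : y ∈ R.A X j) :
    R.Num (y * z) := by
  rw [T.even_comm (R.deg hy)]
  exact h.mul_right hy

theorem Num.of_iso {X Y : V} (f : X ≅ Y) {z : T.H Y} (h : R.Num z) :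
    R.Num (T.pull f.hom z) := by
  intro j y hy
  have h1 : y = T.pull f.hom (T.pull f.inv y) := by
    rw [T.pull_comp', f.hom_inv_id, T.pull_id]
  rw [h1, ← map_mul, T.tr_iso]
  exact h j _ (R.pull _ hy)

theorem Num.pull_snd {X Y : V} {i : ℕ} {z : T.H Y} (hz : z ∈ T.deg Y (2 * i)) (h : R.Num z) :
    R.Num (T.pull (snd X Y) z) := by
  intro j y hy
  rw [← T.tr_push, T.push_snd_mul]
  rcases Nat.lt_or_ge j (T.dim X) with hj | hj
  · rcases Nat.lt_or_ge (T.dim Y) i with hi | hi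
    · rw [T.deg_eq_zero hz (by omega), zero_mul, map_zero]
    · rw [← T.push_snd_mul, T.tr_push]
      exact T.tr_mul_ne (T.snd_deg hz) (R.deg hy) (by rw [T.dim_prod]; omega)
  · exact h (j - T.dim X) _ (R.push (R.of_eq hy (by omega)))

/-- pull-back along a morphism which is isomorphic to a projection -/
theorem Num.proj {X Y Z : V} (f : X ≅ Z ⊗ Y) {g : X ⟶ Y} (hg : f.hom ≫ snd Z Y = g) {i : ℕ}
    {z : T.H Y} (hz : z ∈ T.deg Y (2 * i)) (h : R.Num z) : R.Num (T.pull g z) := by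
  rw [← hg, ← T.pull_comp']
  exact Num.of_iso f (Num.pull_snd hz h)

/-- `(X × Y) × (X × Y) ≅ (Y × Y) × (X × X)` -/
def shuf (X Y : V) : (X ⊗ Y) ⊗ (X ⊗ Y) ≅ (Y ⊗ Y) ⊗ (X ⊗ X) where
  hom := lift (lift (fst _ _ ≫ snd _ _) (snd _ _ ≫ snd _ _))
    (lift (fst _ _ ≫ fst _ _) (snd _ _ ≫ fst _ _))
  inv := lift (lift (snd _ _ ≫ fst _ _) (fst _ _ ≫ fst _ _))
    (lift (snd _ _ ≫ snd _ _) (fst _ _ ≫ snd _ _))
  hom_inv_id := by ext <;> simp
  inv_hom_id := by ext <;> simp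

/-- `(X × Y) × (X × Y) ≅ (X × X) × (Y × Y)` -/
def shuf' (X Y : V) : (X ⊗ Y) ⊗ (X ⊗ Y) ≅ (X ⊗ X) ⊗ (Y ⊗ Y) where
  hom := lift (lift (fst _ _ ≫ fst _ _) (snd _ _ ≫ fst _ _))
    (lift (fst _ _ ≫ snd _ _) (snd _ _ ≫ snd _ _))
  inv := lift (lift (fst _ _ ≫ fst _ _) (snd _ _ ≫ fst _ _))
    (lift (fst _ _ ≫ snd _ _) (snd _ _ ≫ snd _ _))
  hom_inv_id := by ext <;> simp
  inv_hom_id := by ext <;> simp

theorem Num.box {X Y : V} {i j : ℕ} {z : T.H (X ⊗ X)} {y : T.H (Y ⊗ Y)}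
    (hz : z ∈ T.deg (X ⊗ X) (2 * i)) (h : R.Num z) (hy : y ∈ R.A (Y ⊗ Y) j) :
    R.Num (Pool.Std.bx T z y) := by
  unfold Pool.Std.bx
  exact (Num.proj (shuf X Y) (by simp [shuf]) hz h).mul_right (R.pull _ hy)

theorem Num.box' {X Y : V} {i j : ℕ} {z : T.H (X ⊗ X)} {y : T.H (Y ⊗ Y)}
    (hz : z ∈ R.A (X ⊗ X) i) (hy : y ∈ T.deg (Y ⊗ Y) (2 * j)) (h : R.Num y) :
    R.Num (Pool.Std.bx T z y) := by
  unfold Pool.Std.bx
  exact (Num.proj (shuf' X Y) (by simp [shuf']) hy h).mul_left (R.pull _ hz)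

/-- the supertrace on `H(X)` -/
noncomputable def _root_.Pool.KC.WeilTheory.strX (T : WeilTheory.{u, v, w, x} V K) (X : V) :
    Module.End K (T.H X) →ₗ[K] K :=
  str (T.proj X) (2 * T.dim X + 1)

theorem num_iff {X : V} {z : T.H (X ⊗ X)} :
    R.Num z ↔ ∀ s, ∀ g ∈ R.Op X X s, T.strX X (g * T.act z) = 0 := by
  constructor
  · rintro h s _ ⟨y, hy, rfl⟩
    have h1 := h s _ (R.pull (Cohomology.swap X) hy)
    rw [T.tr_mul_eq_str, T.swap_swap] at h1
    exact h1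
  · intro h j y hy
    rw [T.tr_mul_eq_str]
    exact h j _ (act_mem_Op (R.pull _ hy))

/-- numerically trivial algebraic operators -/
def NumOp (R : Cyc T) (X : V) (r : ℕ) (f : Module.End K (T.H X)) : Prop :=
  ∃ z ∈ R.A (X ⊗ X) r, R.Num z ∧ T.act z = f

theorem NumOp.op {X : V} {r : ℕ} {f : Module.End K (T.H X)} (h : R.NumOp X r f) :
    f ∈ R.Op X X r := by
  obtain ⟨z, hz, -, rfl⟩ := h
  exact ⟨z, hz, rfl⟩

theorem numOp_of {X : V} {r : ℕ} {f : Module.End K (T.H X)} (hf : f ∈ R.Op X X r)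
    (h : ∀ s, ∀ g ∈ R.Op X X s, T.strX X (g * f) = 0) : R.NumOp X r f := by
  obtain ⟨z, hz, rfl⟩ := hf
  exact ⟨z, hz, num_iff.mpr h, rfl⟩

theorem NumOp.str {X : V} {r s : ℕ} {f g : Module.End K (T.H X)} (h : R.NumOp X r f)
    (hg : g ∈ R.Op X X s) : T.strX X (g * f) = 0 := by
  obtain ⟨z, hz, h1, rfl⟩ := h
  exact num_iff.mp h1 s g hg

theorem NumOp.add {X : V} {r : ℕ} {f g : Module.End K (T.H X)} (h : R.NumOp X r f)
    (h' : R.NumOp X r g) : R.NumOp X r (f + g) := by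
  obtain ⟨z, hz, h1, rfl⟩ := h
  obtain ⟨y, hy, h2, rfl⟩ := h'
  exact ⟨z + y, add_mem hz hy, h1.add h2, T.act_add _ _⟩

/-- the numerically trivial operators are a left ideal -/
theorem NumOp.left {X : V} {r s t : ℕ} {f g : Module.End K (T.H X)} (h : R.NumOp X r f)
    (hg : g ∈ R.Op X X s) (ht : r + s = T.dim X + t) : R.NumOp X t (g * f) := by
  refine numOp_of (Op_comp h.op hg ht) ?_
  intro q k hk
  rcases Nat.lt_or_ge (s + q) (T.dim X) with h1 | h1
  · -- the composition `k * g` is zero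
    have h2 : k * g = 0 := by
      obtain ⟨y, hy, rfl⟩ := hg
      obtain ⟨y', hy', rfl⟩ := hk
      apply LinearMap.ext
      intro a
      refine T.hind (P := fun a => (T.act y' * T.act y) a = (0 : Module.End K (T.H X)) a)
        (by simp) ?_ ?_ a
      · intro i a ha
        rw [Module.End.mul_apply, LinearMap.zero_apply]
        rcases Nat.lt_or_ge (i + 2 * s) (2 * T.dim X) with h3 | h3
        · rw [act_eq_zero T.toCohomology (R.deg hy) ha h3, map_zero]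
        · have h4 := T.act_deg (R.deg hy) (l := i + 2 * s - 2 * T.dim X) (by omega) ha
          rcases Nat.lt_or_ge (2 * T.dim X) i with h5 | h5
          · rw [T.deg_eq_zero ha h5, map_zero, map_zero]
          · exact act_eq_zero T.toCohomology (R.deg hy') h4 (by omega)
      · intro a b h3 h4
        rw [map_add, h3, h4, map_add]
    rw [← mul_assoc, h2, zero_mul, map_zero]
  · rw [← mul_assoc]
    exact h.str (Op_comp hg hk (t := s + q - T.dim X) (by omega))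

theorem NumOp.box {X Y : V} {i j : ℕ} {z : T.H (X ⊗ X)} {y : T.H (Y ⊗ Y)}
    (hz : z ∈ R.A (X ⊗ X) i) (h : R.Num z) (hy : y ∈ R.A (Y ⊗ Y) j) :
    R.NumOp (X ⊗ Y) (i + j) (T.act (Pool.Std.bx T z y)) :=
  ⟨_, bx_mem hz hy, Num.box (R.deg hz) h hy, rfl⟩

theorem NumOp.box' {X Y : V} {i j : ℕ} {z : T.H (X ⊗ X)} {y : T.H (Y ⊗ Y)}
    (hz : z ∈ R.A (X ⊗ X) i) (hy : y ∈ R.A (Y ⊗ Y) j) (h : R.Num y) :
    R.NumOp (X ⊗ Y) (i + j) (T.act (Pool.Std.bx T z y)) :=
  ⟨_, bx_mem hz hy, Num.box' hz (R.deg hy) h, rfl⟩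

end Cyc

end Pool.Std
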