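import Pool.Agent.Work.MP_a60482_np.Defs

/-!
Block WARD, part A: the class `κ` on `Y^4` of a class `γ` on `Y × (Y × W)`.
-/

open CategoryTheory MonoidalCategory CartesianMonoidalCategory

universe u v w x b

namespace Pool.NP

open Pool.KC Pool.Std

variable {V : Type u} [Category.{v} V] [CartesianMonoidalCategory V] {K : Type x} [Field K]
variable {T : WeilTheory.{u, v, w, x} V K}

/-- the reassociation `(Y × Y) × W → Y × (Y × W)` -/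
abbrev asc (Y W : V) : (Y ⊗ Y) ⊗ W ⟶ Y ⊗ (Y ⊗ W) :=
  lift (fst (Y ⊗ Y) W ≫ fst Y Y) (lift (fst (Y ⊗ Y) W ≫ snd Y Y) (snd (Y ⊗ Y) W))

/-- the class `γ`, on `(Y × Y) × W` -/
noncomputable def hat (T : WeilTheory.{u, v, w, x} V K) {Y W : V} (γ : T.H (Y ⊗ (Y ⊗ W))) :
    T.H ((Y ⊗ Y) ⊗ W) := T.pull (asc Y W) γ

/-- the transposed class -/
noncomputable def flip (T : WeilTheory.{u, v, w, x} V K) {A W : V} (z : T.H (A ⊗ W)) :
    T.H (W ⊗ A) := T.pull (lift (snd W A) (fst W A)) z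

/-- the class `κ` on `Y^4` -/
noncomputable def kap (T : WeilTheory.{u, v, w, x} V K) {Y W : V} (γ : T.H (Y ⊗ (Y ⊗ W))) :
    T.H ((Y ⊗ Y) ⊗ (Y ⊗ Y)) := T.comp (hat T γ) (flip T (hat T γ))

theorem pull_flip_flip {A W : V} (z : T.H (A ⊗ W)) : flip T (flip T z) = z := by
  unfold flip
  rw [T.pull_comp', comp_lift, lift_fst, lift_snd, lift_fst_snd, T.pull_id]

theorem tr_flip {A W : V} (z : T.H (A ⊗ W)) : T.tr (W ⊗ A) (flip T z) = T.tr (A ⊗ W) z := by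
  let f : W ⊗ A ≅ A ⊗ W := ⟨lift (snd W A) (fst W A), lift (snd A W) (fst A W),
    by rw [comp_lift, lift_fst, lift_snd, lift_fst_snd],
    by rw [comp_lift, lift_fst, lift_snd, lift_fst_snd]⟩
  exact T.tr_iso f z

/-- adjointness -/
theorem tr_act_flip {A W : V} {i : ℕ} {z : T.H (A ⊗ W)} (hz : z ∈ T.deg (A ⊗ W) (2 * i))
    {j : ℕ} {y : T.H A} (hy : y ∈ T.deg A (2 * j)) (q : T.H W) :
    T.tr A (T.act (flip T z) q * y) = T.tr W (T.act z y * q) := by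
  rw [T.tr_act, T.tr_act, ← tr_flip (T.pull (fst A W) y * z * T.pull (snd A W) q)]
  have h1 : flip T (T.pull (fst A W) y * z * T.pull (snd A W) q) =
      T.pull (snd W A) y * flip T z * T.pull (fst W A) q := by
    unfold flip
    rw [map_mul, map_mul, T.pull_comp', T.pull_comp', lift_fst, lift_snd]
  have h2 : flip T z ∈ T.deg (W ⊗ A) (2 * i) := T.pull_deg _ hz
  have e1 := T.even_comm h2 (T.pull (fst W A) q)
  have e2 := T.even_comm (T.pull_deg (snd W A) hy) (T.pull (fst W A) q)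
  have e3 := T.even_comm (T.pull_deg (snd W A) hy) (flip T z)
  rw [h1, e3, mul_assoc (flip T z), e2, ← mul_assoc, e1]

theorem flip_hat_deg {Y W : V} {i : ℕ} {γ : T.H (Y ⊗ (Y ⊗ W))}
    (hγ : γ ∈ T.deg (Y ⊗ (Y ⊗ W)) (2 * i)) : hat T γ ∈ T.deg _ (2 * i) := T.pull_deg _ hγ

/-- (i) -/
theorem tr_act_kap {Y W : V} {i j : ℕ} {γ : T.H (Y ⊗ (Y ⊗ W))}
    (hγ : γ ∈ T.deg (Y ⊗ (Y ⊗ W)) (2 * i)) {y : T.H (Y ⊗ Y)} (hy : y ∈ T.deg (Y ⊗ Y) (2 * j)) :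
    T.tr (Y ⊗ Y) (T.act (kap T γ) y * y) = T.tr W (T.act (hat T γ) y * T.act (hat T γ) y) := by
  unfold kap
  rw [T.act_comp, LinearMap.comp_apply, tr_act_flip (flip_hat_deg hγ) hy]

/-- push-forward in two steps -/
theorem push_asc {Y W : V} (z : T.H (Y ⊗ (Y ⊗ W))) :
    T.push (Y ⊗ Y) W (T.pull (asc Y W) z) = T.push Y W (T.push Y (Y ⊗ W) z) := by
  refine T.kind (P := fun z => T.push (Y ⊗ Y) W (T.pull (asc Y W) z) =
    T.push Y W (T.push Y (Y ⊗ W) z)) (by simp) ?_ ?_ z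
  · intro a z'
    refine T.kind (P := fun z' => T.push (Y ⊗ Y) W (T.pull (asc Y W)
      (T.pull (fst Y (Y ⊗ W)) a * T.pull (snd Y (Y ⊗ W)) z')) =
      T.push Y W (T.push Y (Y ⊗ W) (T.pull (fst Y (Y ⊗ W)) a * T.pull (snd Y (Y ⊗ W)) z')))
      (by simp) ?_ ?_ z'
    · intro b q
      have h1 : T.pull (asc Y W) (T.pull (fst Y (Y ⊗ W)) a * T.pull (snd Y (Y ⊗ W))
          (T.pull (fst Y W) b * T.pull (snd Y W) q)) =
          T.pull (fst (Y ⊗ Y) W) (T.pull (fst Y Y) a * T.pull (snd Y Y) b) *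
            T.pull (snd (Y ⊗ Y) W) q := by
        simp only [map_mul, T.pull_comp', lift_fst, lift_snd, lift_snd_assoc]
        rw [mul_assoc]
      rw [h1, T.push_pure, T.tr_prod, T.push_pure, map_smul, T.push_pure, smul_smul]
    · intro x y h1 h2
      simp only [map_add, mul_add, h1, h2]
  · intro x y h1 h2
    simp only [map_add, h1, h2]

/-- (ii) -/
theorem act_hat_e {X : V} {c : T.H X} {S : Gen T c} (E : Idem S) {W : V}
    (γ : T.H (S.Y ⊗ (S.Y ⊗ W))) : T.act (hat T γ) E.e = ctr E W γ := by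
  have h1 : T.pull (fst (S.Y ⊗ S.Y) W) E.e = T.pull (asc S.Y W)
      (T.pull (lift (fst S.Y (S.Y ⊗ W)) (snd S.Y (S.Y ⊗ W) ≫ fst S.Y W)) E.e) := by
    rw [T.pull_comp', comp_lift, lift_fst, lift_snd_assoc, lift_fst, ← comp_lift, lift_fst_snd,
      Category.comp_id]
  rw [T.act_apply, h1]
  unfold hat
  rw [← map_mul, push_asc]
  rfl

/-- (iii) -/
theorem act_hat_cross {Y W : V} {s t : ℕ} (hs : Odd s) (ht : Odd t) {y q : T.H Y}
    (hy : y ∈ T.deg Y s) (hq : q ∈ T.deg Y t) (γ : T.H (Y ⊗ (Y ⊗ W))) :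
    T.act (hat T γ) (T.pull (fst Y Y) y * T.pull (snd Y Y) q) =
      - iota T W q (iota T (Y ⊗ W) y γ) := by
  have h1 : T.pull (fst (Y ⊗ Y) W) (T.pull (fst Y Y) y * T.pull (snd Y Y) q) =
      T.pull (asc Y W) (T.pull (fst Y (Y ⊗ W)) y *
        T.pull (snd Y (Y ⊗ W)) (T.pull (fst Y W) q)) := by
    simp only [map_mul, T.pull_comp', lift_fst, lift_snd_assoc]
  have h2 : T.pull (fst Y (Y ⊗ W)) y * T.pull (snd Y (Y ⊗ W)) (T.pull (fst Y W) q) =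
      - (T.pull (snd Y (Y ⊗ W)) (T.pull (fst Y W) q) * T.pull (fst Y (Y ⊗ W)) y) := by
    rw [T.comm (T.pull_deg (fst Y (Y ⊗ W)) hy)
      (T.pull_deg (snd Y (Y ⊗ W)) (T.pull_deg (fst Y W) hq)), Odd.neg_one_pow (hs.mul ht),
      neg_one_mul]
  rw [T.act_apply, h1]
  unfold hat
  rw [← map_mul, push_asc, h2, neg_mul, map_neg, mul_assoc, T.push_snd_mul, map_neg]
  rfl

/-- (iv) -/
theorem kap_mem {Y W : V} {k : ℕ} (hk : 2 * k = 2 * T.dim Y + T.dim W)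
    {γ : T.H (Y ⊗ (Y ⊗ W))} (hγ : γ ∈ T.C (Y ⊗ (Y ⊗ W)) k) :
    kap T γ ∈ T.C ((Y ⊗ Y) ⊗ (Y ⊗ Y)) (2 * T.dim Y) := by
  unfold kap Cohomology.comp
  apply T.C_push
  have h1 : hat T γ ∈ T.C _ k := T.C_pull _ hγ
  have h2 : flip T (hat T γ) ∈ T.C _ k := T.C_pull _ h1
  have h3 := T.C_mul (T.C_pull (lift (snd W ((Y ⊗ Y) ⊗ (Y ⊗ Y)) ≫ fst (Y ⊗ Y) (Y ⊗ Y))
    (fst W ((Y ⊗ Y) ⊗ (Y ⊗ Y)))) h1) (T.C_pull (lift (fst W ((Y ⊗ Y) ⊗ (Y ⊗ Y)))
    (snd W ((Y ⊗ Y) ⊗ (Y ⊗ Y)) ≫ snd (Y ⊗ Y) (Y ⊗ Y))) h2)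
  rw [show T.dim W + 2 * T.dim Y = k + k by omega]
  exact h3

end Pool.NP
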