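import Pool.Agent.Work.MP_a60482_np.WardA
import Pool.Agent.Work.MP_a60482_kc.Num
import Pool.Agent.Work.StdConj.Prod

/-!
Block WARD, part B: the intersection number of `κ` with the matching `14|23` is `∫ γ²`.
-/

open CategoryTheory MonoidalCategory CartesianMonoidalCategory

universe u v w x b

namespace Pool.NP

open Pool.KC Pool.Std

theorem neg_one_aux2 {K : Type*} [Field K] {a b c d n n' : ℕ} (h1 : a + c = 2 * n)
    (h2 : b + d = 2 * n') :
    (-1 : K) ^ (b * c) = (-1) ^ (c * d) * ((-1) ^ c * (-1) ^ (c * a)) := by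
  rcases Nat.even_or_odd c with hc | hc
  · rw [(hc.mul_left b).neg_one_pow, (hc.mul_right d).neg_one_pow, hc.neg_one_pow,
      (hc.mul_right a).neg_one_pow]
    simp
  · have ha : Odd a := by
      rw [← Nat.not_even_iff_odd] at hc ⊢
      intro h
      apply hc
      have : Even (a + c) := by rw [h1]; exact even_two_mul n
      exact (Nat.even_add.mp this).mp h
    rcases Nat.even_or_odd d with hd | hd
    · have hb : Even b := by
        have : Even (b + d) := by rw [h2]; exact even_two_mul n'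
        exact (Nat.even_add.mp this).mpr hd
      rw [(hb.mul_right c).neg_one_pow, (hd.mul_left c).neg_one_pow, hc.neg_one_pow,
        (hc.mul ha).neg_one_pow]
      simp
    · have hb : Odd b := by
        rw [← Nat.not_even_iff_odd] at hd ⊢
        intro h
        apply hd
        have : Even (b + d) := by rw [h2]; exact even_two_mul n'
        exact (Nat.even_add.mp this).mp h
      rw [(hb.mul hc).neg_one_pow, (hc.mul hd).neg_one_pow, hc.neg_one_pow,
        (hc.mul ha).neg_one_pow]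
      simp

variable {V : Type u} [Category.{v} V] [CartesianMonoidalCategory V] {K : Type x} [Field K]

section Coh

variable (T : Cohomology.{u, v, w, x} V K)

/-- The intersection number of two classes on `X × W` is a supertrace on `H(X)`. -/
theorem tr_mul_eq_str2 {X W : V} (z y : T.H (X ⊗ W)) :
    T.tr (X ⊗ W) (z * y) =
      str (T.proj X) (2 * T.dim X + 1) (T.act (T.pull (lift (snd W X) (fst W X)) y) ∘ₗ T.act z) := by
  have hadd : ∀ (f g : T.H W →ₗ[K] T.H X) (h : T.H X →ₗ[K] T.H W),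
      (f + g) ∘ₗ h = f ∘ₗ h + g ∘ₗ h := fun f g h => LinearMap.add_comp _ _ _
  refine T.kind' (P := fun z => T.tr (X ⊗ W) (z * y) =
      str (T.proj X) (2 * T.dim X + 1)
        (T.act (T.pull (lift (snd W X) (fst W X)) y) ∘ₗ T.act z))
    (by simp [T.act_zero]) ?_ ?_ z
  · intro a b p q hp hq
    refine T.kind' (P := fun y =>
      T.tr (X ⊗ W) (T.pull (fst X W) p * T.pull (snd X W) q * y) =
      str (T.proj X) (2 * T.dim X + 1) (T.act (T.pull (lift (snd W X) (fst W X)) y) ∘ₗ
        T.act (T.pull (fst X W) p * T.pull (snd X W) q))) (by simp [T.act_zero]) ?_ ?_ y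
    · intro c d r s hr hs
      -- left side
      have hL : T.tr (X ⊗ W) (T.pull (fst X W) p * T.pull (snd X W) q *
          (T.pull (fst X W) r * T.pull (snd X W) s)) =
          (-1) ^ (b * c) * (T.tr X (p * r) * T.tr W (q * s)) := by
        have h1 := T.comm (T.snd_deg (X := X) hq) (T.fst_deg (Y := W) hr)
        rw [T.neg_pow_smul] at h1
        have h2 : T.pull (fst X W) p * T.pull (snd X W) q *
            (T.pull (fst X W) r * T.pull (snd X W) s) =
            ((-1 : K) ^ (b * c)) • (T.pull (fst X W) (p * r) * T.pull (snd X W) (q * s)) := by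
          rw [mul_assoc, ← mul_assoc (T.pull (snd X W) q), h1, map_mul, map_mul]
          simp only [smul_mul_assoc, mul_smul_comm, mul_assoc]
        rw [h2, map_smul, T.tr_prod, smul_eq_mul]
      -- right side
      have hsw : T.pull (lift (snd W X) (fst W X)) (T.pull (fst X W) r * T.pull (snd X W) s) =
          (-1 : K) ^ (c * d) • (T.pull (fst W X) s * T.pull (snd W X) r) := by
        rw [map_mul, T.pull_comp', T.pull_comp', lift_fst, lift_snd,
          T.comm (T.snd_deg (X := W) hr) (T.fst_deg (Y := X) hs), T.neg_pow_smul]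
      have hop : T.act (T.pull (lift (snd W X) (fst W X))
          (T.pull (fst X W) r * T.pull (snd X W) s)) ∘ₗ
          T.act (T.pull (fst X W) p * T.pull (snd X W) q) =
          ((-1 : K) ^ (c * d) * T.tr W (q * s)) • (T.dualMap X p).smulRight r := by
        ext t
        rw [hsw, T.act_smul]
        simp only [LinearMap.comp_apply, LinearMap.smul_apply, LinearMap.smulRight_apply]
        rw [T.act_pure, T.act_pure, T.dualMap_apply, smul_mul_assoc, map_smul, smul_smul,
          smul_smul]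
        congr 1
        rw [smul_eq_mul]
        ring
      have hR : str (T.proj X) (2 * T.dim X + 1)
          (T.act (T.pull (lift (snd W X) (fst W X)) (T.pull (fst X W) r * T.pull (snd X W) s)) ∘ₗ
          T.act (T.pull (fst X W) p * T.pull (snd X W) q)) =
          (-1) ^ (c * d) * T.tr W (q * s) * ((-1) ^ c * T.tr X (r * p)) := by
        rw [hop, map_smul, smul_eq_mul]
        congr 1
        rw [str_apply]
        have h1 : ∀ i, LinearMap.trace K (T.H X) ((T.dualMap X p).smulRight r * T.proj X i) =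
            T.tr X (T.proj X i r * p) := by
          intro i
          have : (T.dualMap X p).smulRight r * T.proj X i =
              ((T.dualMap X p) ∘ₗ T.proj X i).smulRight r := by
            ext t
            rfl
          rw [this, LinearMap.trace_smulRight]
          rfl
        simp only [h1]
        by_cases hc : c < 2 * T.dim X + 1
        · rw [Finset.sum_eq_single c]
          · rw [T.proj_same hr]
          · intro j _ hj
            rw [T.proj_ne hr (Ne.symm hj), zero_mul, map_zero, mul_zero]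
          · intro h
            exact absurd (Finset.mem_range.mpr hc) h
        · rw [T.deg_eq_zero hr (by omega)]
          simp
      rw [hL, hR]
      by_cases h1 : a + c = 2 * T.dim X
      · by_cases h2 : b + d = 2 * T.dim W
        · have h3 : T.tr X (r * p) = (-1) ^ (c * a) * T.tr X (p * r) := by
            rw [T.comm hr hp, T.neg_pow_smul, map_smul, smul_eq_mul]
          rw [h3, neg_one_aux2 h1 h2]
          ring
        · rw [T.tr_mul_ne hq hs h2]
          ring
      · rw [T.tr_mul_ne hp hr h1, T.tr_mul_ne hr hp (by omega)]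
        ring
    · intro y y' h1 h2
      rw [mul_add, map_add, h1, h2, map_add, T.act_add, hadd, map_add]
  · intro z z' h1 h2
    rw [add_mul, map_add, h1, h2, T.act_add, LinearMap.comp_add, map_add]

/-- transport of the source of a correspondence along an isomorphism -/
theorem act_iso_fst {X X' W : V} (f : X ≅ X') (z : T.H (X' ⊗ W)) (a : T.H X') :
    T.act (T.pull (lift (fst X W ≫ f.hom) (snd X W)) z) (T.pull f.hom a) = T.act z a := by
  refine T.kind (P := fun z => T.act (T.pull (lift (fst X W ≫ f.hom) (snd X W)) z)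
    (T.pull f.hom a) = T.act z a) (by simp [T.act_zero]) ?_ ?_ z
  · intro p q
    rw [map_mul, T.pull_comp', T.pull_comp', lift_fst, lift_snd, T.pull_comp (fst X W) f.hom,
      T.act_pure, T.act_pure, ← map_mul, T.tr_iso]
  · intro p q h1 h2
    rw [map_add, T.act_add, T.act_add, LinearMap.add_apply, LinearMap.add_apply, h1, h2]

/-- `(Y × Y) × W ≅ Y × (Y × W)` -/
def ascIso (Y W : V) : (Y ⊗ Y) ⊗ W ≅ Y ⊗ (Y ⊗ W) where
  hom := asc Y W
  inv := lift (lift (fst Y (Y ⊗ W)) (snd Y (Y ⊗ W) ≫ fst Y W)) (snd Y (Y ⊗ W) ≫ snd Y W)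
  hom_inv_id := by ext <;> simp [asc]
  inv_hom_id := by ext <;> simp [asc]

/-- a class on `Y × Y × W` as a correspondence from `Y × Y` to `W` -/
theorem act_hat {Y W : V} {s t : ℕ} {a e : T.H Y} (ha : a ∈ T.deg Y s) (he : e ∈ T.deg Y t)
    (γ : T.H (Y ⊗ (Y ⊗ W))) :
    T.act (T.pull (asc Y W) γ) (T.pull (fst Y Y) a * T.pull (snd Y Y) e) =
      (-1 : K) ^ (s * t) • T.act (T.act γ a) e := by
  refine T.kind' (P := fun γ => T.act (T.pull (asc Y W) γ)
    (T.pull (fst Y Y) a * T.pull (snd Y Y) e) = (-1 : K) ^ (s * t) • T.act (T.act γ a) e)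
    (by simp [T.act_zero]) ?_ ?_ γ
  · intro i j p q' hp _
    refine T.kind (P := fun q' => T.act (T.pull (asc Y W)
      (T.pull (fst Y (Y ⊗ W)) p * T.pull (snd Y (Y ⊗ W)) q'))
      (T.pull (fst Y Y) a * T.pull (snd Y Y) e) = (-1 : K) ^ (s * t) •
        T.act (T.act (T.pull (fst Y (Y ⊗ W)) p * T.pull (snd Y (Y ⊗ W)) q') a) e)
      (by simp [T.act_zero]) ?_ ?_ q'
    · intro q r
      have h1 : T.pull (asc Y W) (T.pull (fst Y (Y ⊗ W)) p *
          T.pull (snd Y (Y ⊗ W)) (T.pull (fst Y W) q * T.pull (snd Y W) r)) =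
          T.pull (fst (Y ⊗ Y) W) (T.pull (fst Y Y) p * T.pull (snd Y Y) q) *
            T.pull (snd (Y ⊗ Y) W) r := by
        simp only [map_mul, T.pull_comp', asc, lift_fst, lift_snd, lift_snd_assoc, mul_assoc]
      rw [h1, T.act_pure, T.act_pure]
      have h2 : T.act (T.tr Y (a * p) • (T.pull (fst Y W) q * T.pull (snd Y W) r)) e =
          (T.tr Y (a * p) * T.tr Y (e * q)) • r := by
        rw [T.act_smul, LinearMap.smul_apply, T.act_pure, smul_smul]
      rw [h2, smul_smul]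
      congr 1
      have h3 := T.comm (T.snd_deg (X := Y) he) (T.fst_deg (Y := Y) hp)
      rw [T.neg_pow_smul] at h3
      have h4 : T.pull (fst Y Y) a * T.pull (snd Y Y) e *
          (T.pull (fst Y Y) p * T.pull (snd Y Y) q) =
          (-1 : K) ^ (t * i) • (T.pull (fst Y Y) (a * p) * T.pull (snd Y Y) (e * q)) := by
        rw [mul_assoc, ← mul_assoc (T.pull (snd Y Y) e), h3, map_mul, map_mul]
        simp only [smul_mul_assoc, mul_smul_comm, mul_assoc]
      rw [h4, map_smul, T.tr_prod, smul_eq_mul]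
      by_cases h5 : s + i = 2 * T.dim Y
      · have h6 : (-1 : K) ^ (t * i) = (-1) ^ (s * t) := by
          rcases Nat.even_or_odd t with ht | ht
          · rw [(ht.mul_right i).neg_one_pow, (ht.mul_left s).neg_one_pow]
          · have h7 : Even (s + i) := by rw [h5]; exact even_two_mul _
            rcases Nat.even_or_odd s with hs' | hs'
            · have hi' : Even i := (Nat.even_add.mp h7).mp hs'
              rw [(hi'.mul_left t).neg_one_pow, (hs'.mul_right t).neg_one_pow]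
            · have hi' : Odd i := by
                rw [← Nat.not_even_iff_odd] at hs' ⊢
                exact fun h => hs' ((Nat.even_add.mp h7).mpr h)
              rw [(ht.mul hi').neg_one_pow, (hs'.mul ht).neg_one_pow]
        rw [h6]
      · rw [T.tr_mul_ne ha hp h5]
        ring
    · intro q r h1 h2
      rw [map_add, mul_add, map_add, T.act_add, T.act_add, LinearMap.add_apply,
        LinearMap.add_apply, h1, h2, T.act_add, LinearMap.add_apply, smul_add]
  · intro p q h1 h2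
    rw [map_add, T.act_add, T.act_add, LinearMap.add_apply, LinearMap.add_apply, h1, h2,
      T.act_add, LinearMap.add_apply, smul_add]

end Coh

variable {T : WeilTheory.{u, v, w, x} V K}

theorem tr_kappa_cross' {Y : V} {ε : T.H (Y ⊗ Y)} (hεC : ε ∈ T.C (Y ⊗ Y) (T.dim Y))
    (hεs : T.pull (lift (snd Y Y) (fst Y Y)) ε = ε) (W : V) (γ : T.H (Y ⊗ (Y ⊗ W)))
    (hs : T.pull (lift (snd Y (Y ⊗ W) ≫ fst Y W)
      (lift (fst Y (Y ⊗ W)) (snd Y (Y ⊗ W) ≫ snd Y W))) γ = γ)
    (he : ∀ a : T.H Y, T.act γ (T.act ε a) = T.act γ a)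
    (hκ : T.comp (T.pull (asc Y W) γ)
      (T.pull (lift (snd W (Y ⊗ Y)) (fst W (Y ⊗ Y))) (T.pull (asc Y W) γ)) ∈
        T.C ((Y ⊗ Y) ⊗ (Y ⊗ Y)) (2 * T.dim Y)) :
    T.tr _ (T.comp (T.pull (asc Y W) γ)
      (T.pull (lift (snd W (Y ⊗ Y)) (fst W (Y ⊗ Y))) (T.pull (asc Y W) γ)) *
      (at2 T ε (q1 Y) (q4 Y) * at2 T ε (q2 Y) (q3 Y))) = T.tr _ (γ * γ) := by
  set hat := T.pull (asc Y W) γ with hhat
  set κ := T.comp hat (T.pull (lift (snd W (Y ⊗ Y)) (fst W (Y ⊗ Y))) hat) with hκdef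
  have hdQ : T.dim (Y ⊗ Y) = 2 * T.dim Y := by rw [T.dim_prod]; omega
  have hed : ε ∈ T.deg (Y ⊗ Y) (2 * T.dim Y) := T.C_deg _ _ hεC
  -- the exchange of the factors of `Y × Y`
  let sq : Y ⊗ Y ≅ Y ⊗ Y := Cohomology.swIso Y Y
  have hsq : sq.hom = lift (snd Y Y) (fst Y Y) := rfl
  -- `σ`
  set σ := at2 T ε (q1 Y) (q4 Y) * at2 T ε (q2 Y) (q3 Y) with hσ
  have hat2 : ∀ {P Q : V} (g : P ⟶ Q) (f1 f2 : Q ⟶ Y), T.pull g (at2 T ε f1 f2) =
      at2 T ε (g ≫ f1) (g ≫ f2) := by
    intro P Q g f1 f2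
    unfold at2
    rw [T.pull_comp', comp_lift]
  have hsymm : ∀ {P : V} (f1 f2 : P ⟶ Y), at2 T ε f1 f2 = at2 T ε f2 f1 := by
    intro P f1 f2
    unfold at2
    conv_lhs => rw [← hεs]
    rw [T.pull_comp']
    congr 2
    ext <;> simp
  have hat2d : ∀ {P : V} (f1 f2 : P ⟶ Y), at2 T ε f1 f2 ∈ T.deg P (2 * T.dim Y) :=
    fun f1 f2 => T.pull_deg _ hed
  have hσC : σ ∈ T.C ((Y ⊗ Y) ⊗ (Y ⊗ Y)) (2 * T.dim Y) := by
    have := T.C_mul (T.C_pull (lift (q1 Y) (q4 Y)) hεC) (T.C_pull (lift (q2 Y) (q3 Y)) hεC)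
    exact T.C_of_eq this (by omega)
  have hσs : T.pull (Cohomology.swap (Y ⊗ Y)) σ = σ := by
    rw [hσ, map_mul, hat2, hat2]
    have e1 : Cohomology.swap (Y ⊗ Y) ≫ q1 Y = q3 Y := by simp [q1, q3, Cohomology.swap]
    have e2 : Cohomology.swap (Y ⊗ Y) ≫ q4 Y = q2 Y := by simp [q4, q2, Cohomology.swap]
    have e3 : Cohomology.swap (Y ⊗ Y) ≫ q2 Y = q4 Y := by simp [q4, q2, Cohomology.swap]
    have e4 : Cohomology.swap (Y ⊗ Y) ≫ q3 Y = q1 Y := by simp [q1, q3, Cohomology.swap]
    rw [e1, e2, e3, e4, hsymm (q3 Y), hsymm (q4 Y), T.even_comm (hat2d _ _)]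
  -- the action of `σ`
  have hσbx : σ = T.pull (lift (fst (Y ⊗ Y) (Y ⊗ Y)) (snd (Y ⊗ Y) (Y ⊗ Y) ≫ sq.hom))
      (bx T ε ε) := by
    unfold bx
    rw [map_mul, T.pull_comp', T.pull_comp', hσ]
    unfold at2
    congr 2
    · congr 1
      ext <;> simp [hsq, q1, q4]
    · congr 1
      ext <;> simp [hsq, q2, q3]
  have hσact : ∀ {s t : ℕ} {a e : T.H Y}, a ∈ T.deg Y s → e ∈ T.deg Y t →
      T.act σ (T.pull (fst Y Y) a * T.pull (snd Y Y) e) =
        T.pull sq.hom (T.pull (fst Y Y) (T.act ε a) * T.pull (snd Y Y) (T.act ε e)) := by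
    intro s t a e ha he'
    rw [hσbx, T.act_pull_snd, act_bx hed ε ha he']
  -- symmetry of `hat`
  have hhs : T.pull (lift (fst (Y ⊗ Y) W ≫ sq.hom) (snd (Y ⊗ Y) W)) hat = hat := by
    rw [hhat, T.pull_comp']
    conv_rhs => rw [← hs]
    rw [T.pull_comp']
    congr 2
    ext <;> simp [hsq, asc]
  have hhsw : ∀ a : T.H (Y ⊗ Y), T.act hat (T.pull sq.hom a) = T.act hat a := by
    intro a
    conv_lhs => rw [← hhs]
    exact act_iso_fst T.toCohomology sq hat a
  -- `hat` is `e`-projected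
  have he0 : ∀ {s t : ℕ} {a e : T.H Y}, a ∈ T.deg Y s → e ∈ T.deg Y t →
      T.act hat (T.pull (fst Y Y) (T.act ε a) * T.pull (snd Y Y) e) =
        T.act hat (T.pull (fst Y Y) a * T.pull (snd Y Y) e) := by
    intro s t a e ha he'
    have hea : T.act ε a ∈ T.deg Y s := T.act_deg hed (by omega) ha
    rw [hhat, act_hat T.toCohomology hea he', act_hat T.toCohomology ha he', he]
  have hswp : ∀ {s t : ℕ} {a e : T.H Y}, a ∈ T.deg Y s → e ∈ T.deg Y t →
      T.act hat (T.pull (fst Y Y) a * T.pull (snd Y Y) e) =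
        (-1 : K) ^ (s * t) • T.act hat (T.pull (fst Y Y) e * T.pull (snd Y Y) a) := by
    intro s t a e ha he'
    rw [← hhsw, map_mul, T.pull_comp', T.pull_comp', hsq, lift_fst, lift_snd,
      T.comm (T.snd_deg (X := Y) ha) (T.fst_deg (Y := Y) he'), T.neg_pow_smul, map_smul]
  have he1 : ∀ {s t : ℕ} {a e : T.H Y}, a ∈ T.deg Y s → e ∈ T.deg Y t →
      T.act hat (T.pull (fst Y Y) a * T.pull (snd Y Y) (T.act ε e)) =
        T.act hat (T.pull (fst Y Y) a * T.pull (snd Y Y) e) := by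
    intro s t a e ha he'
    have hee : T.act ε e ∈ T.deg Y t := T.act_deg hed (by omega) he'
    rw [hswp ha hee, he0 he' ha, ← hswp ha he']
  have hinv : T.act hat ∘ₗ T.act σ = T.act hat := by
    apply LinearMap.ext
    intro a
    refine T.kind' (P := fun a => (T.act hat ∘ₗ T.act σ) a = T.act hat a) (by simp) ?_ ?_ a
    · intro s t a e ha he'
      have hea : T.act ε a ∈ T.deg Y s := T.act_deg hed (by omega) ha
      rw [LinearMap.comp_apply, hσact ha he', hhsw, he1 hea he', he0 ha he']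
    · intro p q h1 h2
      rw [map_add, map_add, h1, h2]
  -- assembly
  have hκo : (T.act κ : Module.End K (T.H (Y ⊗ Y))) ∈ T.ops (Y ⊗ Y) :=
    T.act_mem_ops.mpr (T.C_of_eq hκ hdQ.symm)
  have hσo : (T.act σ : Module.End K (T.H (Y ⊗ Y))) ∈ T.ops (Y ⊗ Y) :=
    T.act_mem_ops.mpr (T.C_of_eq hσC hdQ.symm)
  have hκa : T.act κ = T.act (T.pull (lift (snd W (Y ⊗ Y)) (fst W (Y ⊗ Y))) hat) ∘ₗ
      T.act hat := by
    rw [hκdef, T.act_comp]
  calc T.tr _ (κ * σ) = str (T.proj (Y ⊗ Y)) (2 * T.dim (Y ⊗ Y) + 1)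
        (T.act σ * T.act κ : Module.End K (T.H (Y ⊗ Y))) := by
        rw [T.tr_mul_eq_str, hσs]
    _ = str (T.proj (Y ⊗ Y)) (2 * T.dim (Y ⊗ Y) + 1)
        (T.act κ * T.act σ : Module.End K (T.H (Y ⊗ Y))) :=
        str_comm (T.ops (Y ⊗ Y)) (fun f hf i => T.ops_mul_proj hf i) hσo hκo
    _ = str (T.proj (Y ⊗ Y)) (2 * T.dim (Y ⊗ Y) + 1)
        (T.act (T.pull (lift (snd W (Y ⊗ Y)) (fst W (Y ⊗ Y))) hat) ∘ₗ T.act hat) := by
        congr 1
        change T.act κ ∘ₗ T.act σ = _
        rw [hκa, LinearMap.comp_assoc, hinv]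
    _ = T.tr ((Y ⊗ Y) ⊗ W) (hat * hat) := (tr_mul_eq_str2 T.toCohomology hat hat).symm
    _ = T.tr _ (γ * γ) := by
        rw [hhat, ← map_mul]
        exact T.tr_iso (ascIso Y W) (γ * γ)

/-- the intersection number of `κ` with the matching `14|23` -/
theorem tr_kappa_cross {X : V} {c : T.H X} {S : Gen T c} (E : Idem S) (W : V)
    (γ : T.H (S.Y ⊗ (S.Y ⊗ W)))
    (hs : T.pull (lift (snd S.Y (S.Y ⊗ W) ≫ fst S.Y W)
      (lift (fst S.Y (S.Y ⊗ W)) (snd S.Y (S.Y ⊗ W) ≫ snd S.Y W))) γ = γ)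
    (he : ∀ a : T.H S.Y, T.act (X := S.Y) (Y := S.Y ⊗ W) γ (T.act E.e a) =
      T.act (X := S.Y) (Y := S.Y ⊗ W) γ a)
    (hκ : kap T γ ∈ T.C ((S.Y ⊗ S.Y) ⊗ (S.Y ⊗ S.Y)) (2 * T.dim S.Y)) :
    T.tr _ (kap T γ * (at2 T E.e (q1 S.Y) (q4 S.Y) * at2 T E.e (q2 S.Y) (q3 S.Y))) =
      T.tr _ (γ * γ) :=
  tr_kappa_cross' E.mem E.symm W γ hs he hκ

end Pool.NP
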